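import Pool.Agent.H507R3.CMLevel

/-!
# Core facts for Sobolev functions on the cube which vanish off an open set compactly inside
-/

set_option autoImplicit false
open MeasureTheory Set Filter Topology
open scoped ContDiff RealInnerProductSpace

namespace Pool.Agent.H507R3.CM

variable {F : Type*} [NormedAddCommGroup F] [InnerProductSpace ℝ F] [FiniteDimensional ℝ F]

/-- The open cube. -/
def cube (n : ℕ) : Set (EuclideanSpace ℝ (Fin n)) := {x | ∀ i, |x i| < 1/2}

lemma cube_open (n : ℕ) : IsOpen (cube n) := by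
  have : cube n = ⋂ i, {x : EuclideanSpace ℝ (Fin n) | |x i| < 1/2} := by
    ext x; simp [cube]
  rw [this]
  apply isOpen_iInter_of_finite
  intro i
  exact isOpen_lt (by fun_prop) continuous_const

lemma cube_convex (n : ℕ) : Convex ℝ (cube n) := by
  intro x hx y hy a b ha hb hab i
  have h1 := hx i
  have h2 := hy i
  rw [abs_lt] at *
  simp only [PiLp.add_apply, PiLp.smul_apply, smul_eq_mul]
  have e1 : a * (1/2) + b * (1/2) = 1/2 := by rw [← add_mul, hab, one_mul]
  rcases ha.eq_or_lt with ha0 | ha0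
  · have hb1 : b = 1 := by linarith
    subst hb1; rw [← ha0]; constructor <;> linarith [h2.1, h2.2]
  · constructor <;> nlinarith [h1.1, h1.2, h2.1, h2.2]

lemma zero_mem_cube (n : ℕ) : (0 : EuclideanSpace ℝ (Fin n)) ∈ cube n := by
  intro i; simp

lemma cube_bounded (n : ℕ) : Bornology.IsBounded (cube n) := by
  rw [isBounded_iff_forall_norm_le]
  refine ⟨Real.sqrt (∑ _i : Fin n, (1:ℝ)), ?_⟩
  intro x hx
  rw [EuclideanSpace.norm_eq]
  apply Real.sqrt_le_sqrt
  apply Finset.sum_le_sum
  intro i _
  have h := hx i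
  rw [Real.norm_eq_abs]
  nlinarith [abs_nonneg (x i)]

lemma cube_fin (n : ℕ) : volume (cube n) < ⊤ := (cube_bounded n).measure_lt_top

lemma cube_add {n : ℕ} (i : Fin n) {x : EuclideanSpace ℝ (Fin n)}
    (hx : x + EuclideanSpace.single i (1:ℝ) ∈ cube n) : x ∉ cube n := by
  intro h
  have h1 := hx i
  have h2 := h i
  simp only [PiLp.add_apply, PiLp.single_apply, if_true] at h1
  rw [abs_lt] at h1 h2
  linarith [h1.1, h1.2, h2.1, h2.2]

lemma cube_sub {n : ℕ} (i : Fin n) {x : EuclideanSpace ℝ (Fin n)}
    (hx : x ∈ cube n) : x - EuclideanSpace.single i (1:ℝ) ∉ cube n := by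
  intro h
  have h1 : x - EuclideanSpace.single i (1:ℝ) + EuclideanSpace.single i (1:ℝ) ∈ cube n := by
    rwa [sub_add_cancel]
  exact cube_add i h1 h

section core

variable {n : ℕ} {Ω' : Set (EuclideanSpace ℝ (Fin n))} (hcomp : IsCompact (closure Ω'))
  (hsub : closure Ω' ⊆ cube n) {w : EuclideanSpace ℝ (Fin n) → F}
  {D : EuclideanSpace ℝ (Fin n) → EuclideanSpace ℝ (Fin n) →L[ℝ] F}
  (hw : MemLp w 2 (volume.restrict (cube n))) (hD : MemLp D 2 (volume.restrict (cube n)))
  (hweak : ∀ φ : EuclideanSpace ℝ (Fin n) → ℝ, ContDiff ℝ ∞ φ → HasCompactSupport φ →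
    tsupport φ ⊆ cube n → ∀ e : EuclideanSpace ℝ (Fin n),
      ∫ x in cube n, fderiv ℝ φ x e • w x = - ∫ x in cube n, φ x • D x e)
  (hz : ∀ᵐ x ∂(volume.restrict (cube n)), x ∉ Ω' → w x = 0)

include hcomp hsub hD hweak hz

/-- Reduction to integrals over the cube for arbitrary smooth test functions. -/
lemma weak_smooth {φ : EuclideanSpace ℝ (Fin n) → ℝ} (hφ : ContDiff ℝ ∞ φ)
    (e : EuclideanSpace ℝ (Fin n)) :
    ∫ x in cube n, fderiv ℝ φ x e • w x = - ∫ x in cube n, φ x • D x e := by
  have hz' : ∀ᵐ x ∂(volume.restrict (cube n)), x ∉ closure Ω' → w x = 0 := by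
    filter_upwards [hz] with x hx hxK
    exact hx fun h => hxK (subset_closure h)
  obtain ⟨hDK, hall⟩ := extend_weak (cube_open n) (cube_fin n) hcomp hsub hD hweak hz'
  have h1 := hall φ hφ e
  have e1 : ∫ x, fderiv ℝ φ x e • (closure Ω').indicator w x
      = ∫ x in cube n, fderiv ℝ φ x e • w x := by
    have : ∫ x, fderiv ℝ φ x e • (closure Ω').indicator w x
        = ∫ x in cube n, fderiv ℝ φ x e • (closure Ω').indicator w x := by
      rw [setIntegral_eq_integral_of_forall_compl_eq_zero]
      intro x hx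
      rw [indicator_of_notMem (fun h => hx (hsub h)), smul_zero]
    rw [this]
    apply integral_congr_ae
    filter_upwards [hz'] with x hx
    by_cases hxK : x ∈ closure Ω'
    · rw [indicator_of_mem hxK]
    · rw [hx hxK, indicator_of_notMem hxK]
  have e2 : ∫ x, φ x • (closure Ω').indicator (fun x => D x e) x
      = ∫ x in cube n, φ x • D x e := by
    have : ∫ x, φ x • (closure Ω').indicator (fun x => D x e) x
        = ∫ x in cube n, φ x • (closure Ω').indicator (fun x => D x e) x := by
      rw [setIntegral_eq_integral_of_forall_compl_eq_zero]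
      intro x hx
      rw [indicator_of_notMem (fun h => hx (hsub h)), smul_zero]
    rw [this]
    apply integral_congr_ae
    filter_upwards [hDK] with x hx
    by_cases hxK : x ∈ closure Ω'
    · rw [indicator_of_mem hxK]
    · rw [hx hxK, indicator_of_notMem hxK]; simp
  rw [e1, e2] at h1
  exact h1

include hw

/-- Representation by translation averages. -/
lemma rep (i : Fin n) : ∃ g : EuclideanSpace ℝ (Fin n) → F, StronglyMeasurable g ∧ Integrable g ∧
    Integrable (fun x => ‖g x‖^2) ∧ (∀ x, x ∉ cube n → g x = 0) ∧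
    (∀ᵐ x ∂(volume.restrict (cube n)), g x = D x (EuclideanSpace.single i 1)) ∧
    (∀ᵐ x : EuclideanSpace ℝ (Fin n), x ∈ cube n →
      w x = Av (EuclideanSpace.single i 1) g x) := by
  have hfinm : IsFiniteMeasure (volume.restrict (cube n)) :=
    ⟨by rw [Measure.restrict_apply_univ]; exact cube_fin n⟩
  set e : EuclideanSpace ℝ (Fin n) := EuclideanSpace.single i 1 with he
  have hDe : MemLp (fun x => D x e) 2 (volume.restrict (cube n)) :=
    (ContinuousLinearMap.apply ℝ F e).comp_memLp' hD
  have hDe1 : Integrable (fun x => D x e) (volume.restrict (cube n)) := hDe.integrable (by norm_num)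
  have hDe2 : Integrable (fun x => ‖D x e‖^2) (volume.restrict (cube n)) := hDe.integrable_norm_pow (by norm_num)
  set g0 := hDe1.aestronglyMeasurable.mk (fun x => D x e) with hg0
  have hg0m : StronglyMeasurable g0 := hDe1.aestronglyMeasurable.stronglyMeasurable_mk
  have hg0e : ∀ᵐ x ∂(volume.restrict (cube n)), D x e = g0 x := hDe1.aestronglyMeasurable.ae_eq_mk
  have hcm : MeasurableSet (cube n) := (cube_open n).measurableSet
  refine ⟨(cube n).indicator g0, hg0m.indicator hcm, ?_, ?_, ?_, ?_, ?_⟩
  · rw [integrable_indicator_iff hcm]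
    exact hDe1.congr hg0e
  · have : (fun x => ‖(cube n).indicator g0 x‖^2) = (cube n).indicator (fun x => ‖g0 x‖^2) := by
      funext x
      by_cases hx : x ∈ cube n
      · rw [indicator_of_mem hx, indicator_of_mem hx]
      · rw [indicator_of_notMem hx, indicator_of_notMem hx]; simp
    rw [this, integrable_indicator_iff hcm]
    refine hDe2.congr ?_
    filter_upwards [hg0e] with x hx
    rw [hx]
  · intro x hx; rw [indicator_of_notMem hx]
  · rw [ae_restrict_iff' hcm] at hg0e ⊢
    filter_upwards [hg0e] with x hx hxc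
    rw [indicator_of_mem hxc, hx hxc]
  · have hgi : Integrable ((cube n).indicator g0) := by
      rw [integrable_indicator_iff hcm]
      exact hDe1.congr hg0e
    have hwi : Integrable ((cube n).indicator w) := by
      rw [integrable_indicator_iff hcm]
      exact hw.integrable (by norm_num)
    have h1 := eq_Av (w := (cube n).indicator w) (g := (cube n).indicator g0) (e := e)
      (cube_open n) hwi (hg0m.indicator hcm) hgi ?_ ?_
    · filter_upwards [h1] with x hx hxc
      have := hx hxc
      rwa [indicator_of_mem hxc] at this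
    · intro φ hφ _
      have h2 := weak_smooth hcomp hsub hD hweak hz hφ e
      have e1 : ∫ x, fderiv ℝ φ x e • (cube n).indicator w x
          = ∫ x in cube n, fderiv ℝ φ x e • w x := by
        rw [← integral_indicator hcm]
        congr 1; ext x
        by_cases hx : x ∈ cube n
        · rw [indicator_of_mem hx, indicator_of_mem hx]
        · rw [indicator_of_notMem hx, indicator_of_notMem hx, smul_zero]
      have e2 : ∫ x, φ x • (cube n).indicator g0 x = ∫ x in cube n, φ x • D x e := by
        have : ∫ x, φ x • (cube n).indicator g0 x = ∫ x in cube n, φ x • g0 x := by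
          rw [← integral_indicator hcm]
          congr 1; ext x
          by_cases hx : x ∈ cube n
          · rw [indicator_of_mem hx, indicator_of_mem hx]
          · rw [indicator_of_notMem hx, indicator_of_notMem hx, smul_zero]
        rw [this]
        apply integral_congr_ae
        filter_upwards [hg0e] with x hx
        rw [hx]
      rw [e1, e2]; exact h2
    · intro x hx
      rw [indicator_of_notMem (cube_add i hx)]

/-- The derivative vanishes almost everywhere off `Ω'`. -/
lemma deriv_off (hΩ' : IsOpen Ω') : ∀ᵐ x ∂(volume.restrict (cube n)), x ∉ Ω' → D x = 0 := by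
  have hcm : MeasurableSet (cube n) := (cube_open n).measurableSet
  have hcoord : ∀ i : Fin n, ∀ᵐ x ∂(volume.restrict (cube n)), x ∉ Ω' →
      D x (EuclideanSpace.single i 1) = 0 := by
    intro i
    obtain ⟨g, hgm, hgi, _, hg0, hgD, hgA⟩ := rep hcomp hsub hw hD hweak hz i
    set Z : Set (EuclideanSpace ℝ (Fin n)) :=
      (cube n \ Ω') ∩ {x | ‖Av (EuclideanSpace.single i 1) g x‖ = 0} with hZ
    have hZm : MeasurableSet Z := by
      apply (hcm.diff hΩ'.measurableSet).inter
      have : Measurable (fun x => ‖Av (EuclideanSpace.single i 1) g x‖) :=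
        (Av_stronglyMeasurable hgm).norm.measurable
      exact this (measurableSet_singleton (0:ℝ))
    have h1 := zero_on_level (e := EuclideanSpace.single i 1) hgm hgi hg0
      (fun x hx => cube_sub i hx) hZm (fun x hx => hx.1.1)
      (fun x hx => norm_eq_zero.mp hx.2)
    rw [ae_restrict_iff' hcm] at hz hgD ⊢
    filter_upwards [h1, hz, hgD, hgA] with x h1 h2 h3 h4 hxc hxn
    have h5 : ‖Av (EuclideanSpace.single i 1) g x‖ = 0 := by
      rw [← h4 hxc, h2 hxc hxn, norm_zero]
    rw [← h3 hxc]
    exact h1 ⟨⟨hxc, hxn⟩, h5⟩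
  have hall : ∀ᵐ x ∂(volume.restrict (cube n)), ∀ i, x ∉ Ω' →
      D x (EuclideanSpace.single i 1) = 0 := by
    rw [ae_all_iff]; exact hcoord
  filter_upwards [hall] with x hx hxn
  apply ContinuousLinearMap.coe_injective
  apply (EuclideanSpace.basisFun (Fin n) ℝ).toBasis.ext
  intro i
  simpa using hx i hxn

lemma poincare_cube (i : Fin n) :
    ∫ x in cube n, ‖w x‖^2 ≤ ∫ x in cube n, ‖D x (EuclideanSpace.single i 1)‖^2 := by
  obtain ⟨g, hgm, hgi, hg2, hg0, hgD, hgA⟩ := rep hcomp hsub hw hD hweak hz i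
  have h1 := poincare (cube_open n) hgm hg2 hgi hgA
  have h2 : ∫ x, ‖g x‖^2 = ∫ x in cube n, ‖D x (EuclideanSpace.single i 1)‖^2 := by
    have : ∫ x, ‖g x‖^2 = ∫ x in cube n, ‖g x‖^2 := by
      rw [setIntegral_eq_integral_of_forall_compl_eq_zero]
      intro x hx; rw [hg0 x hx]; simp
    rw [this]
    apply integral_congr_ae
    filter_upwards [hgD] with x hx
    rw [hx]
  rwa [h2] at h1

/-- Vector valued smooth test fields. -/
lemma weak_vec {P : EuclideanSpace ℝ (Fin n) → F} (hP : ContDiff ℝ ∞ P)
    (e : EuclideanSpace ℝ (Fin n)) :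
    ∫ x in cube n, ⟪fderiv ℝ P x e, w x⟫ = - ∫ x in cube n, ⟪P x, D x e⟫ := by
  have hfinm : IsFiniteMeasure (volume.restrict (cube n)) :=
    ⟨by rw [Measure.restrict_apply_univ]; exact cube_fin n⟩
  let b := stdOrthonormalBasis ℝ F
  have hwi : Integrable w (volume.restrict (cube n)) := hw.integrable (by norm_num)
  have hDe : MemLp (fun x => D x e) 2 (volume.restrict (cube n)) :=
    (ContinuousLinearMap.apply ℝ F e).comp_memLp' hD
  have hDe1 : Integrable (fun x => D x e) (volume.restrict (cube n)) := hDe.integrable (by norm_num)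
  have hcK : IsCompact (closure (cube n)) := (cube_bounded n).isCompact_closure
  -- bounded multipliers
  have hmul : ∀ (ρ : EuclideanSpace ℝ (Fin n) → ℝ) (_ : Continuous ρ)
      (G : EuclideanSpace ℝ (Fin n) → F), Integrable G (volume.restrict (cube n)) →
      Integrable (fun x => ρ x • G x) (volume.restrict (cube n)) := by
    intro ρ hρ G hG
    obtain ⟨C, hC⟩ := hcK.exists_bound_of_continuousOn hρ.continuousOn
    refine hG.bdd_smul C hρ.aestronglyMeasurable ?_
    rw [ae_restrict_iff' (cube_open n).measurableSet]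
    exact Filter.Eventually.of_forall fun x hx => hC x (subset_closure hx)
  have hcoord : ∀ j, ∫ x in cube n, ⟪b j, fderiv ℝ P x e⟫ * ⟪b j, w x⟫
      = - ∫ x in cube n, ⟪b j, P x⟫ * ⟪b j, D x e⟫ := by
    intro j
    have hφ : ContDiff ℝ ∞ (fun x => ⟪b j, P x⟫) := contDiff_const.inner ℝ hP
    have h1 := weak_smooth hcomp hsub hD hweak hz hφ e
    have hfd : ∀ x, fderiv ℝ (fun x => ⟪b j, P x⟫) x e = ⟪b j, fderiv ℝ P x e⟫ := by
      intro x
      have hd : HasFDerivAt P (fderiv ℝ P x) x :=
        (hP.differentiable (by norm_num)).differentiableAt.hasFDerivAt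
      have h2 := (innerSL ℝ (b j)).hasFDerivAt.comp x hd
      have h3 : HasFDerivAt (fun x => ⟪b j, P x⟫) ((innerSL ℝ (b j)).comp (fderiv ℝ P x)) x := h2
      rw [h3.fderiv]; simp
    simp only [hfd] at h1
    have hc1 : Continuous (fun x => ⟪b j, fderiv ℝ P x e⟫) :=
      continuous_const.inner ((hP.continuous_fderiv (by norm_num)).clm_apply continuous_const)
    have i1 := hmul _ hc1 w hwi
    have i2 := hmul _ hφ.continuous _ hDe1
    have h4 := congrArg (fun z => ⟪b j, z⟫) h1
    rw [inner_neg_right] at h4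
    rw [← integral_inner i1, ← integral_inner i2] at h4
    simp only [inner_smul_right] at h4
    exact h4
  have hexp : ∀ (z z' : F), ⟪z, z'⟫ = ∑ j, ⟪b j, z⟫ * ⟪b j, z'⟫ := by
    intro z z'
    rw [← b.sum_inner_mul_inner z z']
    apply Finset.sum_congr rfl
    intro j _
    rw [real_inner_comm (b j) z]
  have hi : ∀ (Q : EuclideanSpace ℝ (Fin n) → F) (_ : Continuous Q)
      (G : EuclideanSpace ℝ (Fin n) → F), Integrable G (volume.restrict (cube n)) → ∀ j,
      Integrable (fun x => ⟪b j, Q x⟫ * ⟪b j, G x⟫) (volume.restrict (cube n)) := by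
    intro Q hQ G hG j
    have h1 := hmul (fun x => ⟪b j, Q x⟫) (continuous_const.inner hQ) G hG
    have h2 := (innerSL ℝ (b j)).integrable_comp h1
    simpa [inner_smul_right] using h2
  have hcP : Continuous (fun x => fderiv ℝ P x e) :=
    (hP.continuous_fderiv (by norm_num)).clm_apply continuous_const
  have e1 : ∫ x in cube n, ⟪fderiv ℝ P x e, w x⟫
      = ∫ x in cube n, ∑ j, ⟪b j, fderiv ℝ P x e⟫ * ⟪b j, w x⟫ := by
    congr 1; ext x; exact hexp _ _
  have e2 : ∫ x in cube n, ⟪P x, D x e⟫ = ∫ x in cube n, ∑ j, ⟪b j, P x⟫ * ⟪b j, D x e⟫ := by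
    congr 1; ext x; exact hexp _ _
  rw [e1, e2]
  rw [integral_finsetSum _ (fun j _ => hi _ hcP w hwi j),
    integral_finsetSum _ (fun j _ => hi _ hP.continuous _ hDe1 j), ← Finset.sum_neg_distrib]
  exact Finset.sum_congr rfl fun j _ => hcoord j

end core

end Pool.Agent.H507R3.CM
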