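import Pool.Agent.H507R3.CMMap

/-!
# Integration by parts against the gradient of the map
-/

set_option autoImplicit false
open MeasureTheory Set Filter Topology
open scoped ContDiff RealInnerProductSpace

namespace Pool.Agent.H507R3.CM

variable {F : Type*} [NormedAddCommGroup F] [InnerProductSpace ℝ F] [FiniteDimensional ℝ F]

lemma hyper_null {n : ℕ} (i : Fin n) : ∀ᵐ x : EuclideanSpace ℝ (Fin n), x i ≠ 0 := by
  have h := Measure.addHaar_submodule (volume : Measure (EuclideanSpace ℝ (Fin n)))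
    (LinearMap.ker (EuclideanSpace.proj i : EuclideanSpace ℝ (Fin n) →L[ℝ] ℝ).toLinearMap) (by
      intro htop
      have h1 : EuclideanSpace.single i (1:ℝ) ∈
          (LinearMap.ker (EuclideanSpace.proj i : EuclideanSpace ℝ (Fin n) →L[ℝ] ℝ).toLinearMap) := by
        rw [htop]; trivial
      rw [LinearMap.mem_ker] at h1
      simp at h1)
  rw [ae_iff]
  refine measure_mono_null ?_ h
  intro x hx
  simp only [ne_eq, not_not] at hx
  have hx' : x i = 0 := hx
  show x ∈ LinearMap.ker _
  rw [LinearMap.mem_ker]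
  simpa using hx'

section core

variable {n : ℕ} {Ω' : Set (EuclideanSpace ℝ (Fin n))} (hcomp : IsCompact (closure Ω'))
  (hsub : closure Ω' ⊆ cube n) {w : EuclideanSpace ℝ (Fin n) → F}
  {D : EuclideanSpace ℝ (Fin n) → EuclideanSpace ℝ (Fin n) →L[ℝ] F}
  (hw : MemLp w 2 (volume.restrict (cube n))) (hD : MemLp D 2 (volume.restrict (cube n)))
  (hweak : ∀ φ : EuclideanSpace ℝ (Fin n) → ℝ, ContDiff ℝ ∞ φ → HasCompactSupport φ →
    tsupport φ ⊆ cube n → ∀ e : EuclideanSpace ℝ (Fin n),
      ∫ x in cube n, fderiv ℝ φ x e • w x = - ∫ x in cube n, φ x • D x e)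
  (hz : ∀ᵐ x ∂(volume.restrict (cube n)), x ∉ Ω' → w x = 0)

include hcomp hsub hD hweak hz hw

lemma ibp (i0 i1 : Fin n) (hne : i0 ≠ i1) {a b : F} (ha : ‖a‖ = 1) (hb : ‖b‖ = 1)
    (hab : ⟪a, b⟫ = 0) :
    ∫ x in cube n, (⟪ch (x i1) • TN a b (x i0), D x (EuclideanSpace.single i0 1)⟫
        + ⟪sh (x i1) • TT a b (x i0), D x (EuclideanSpace.single i1 1)⟫
        - (if x i1 ≤ 0 then ⟪TT a b (x i0), w x⟫ else 0)) = 0 := by
  have hfinm : IsFiniteMeasure (volume.restrict (cube n)) :=
    ⟨by rw [Measure.restrict_apply_univ]; exact cube_fin n⟩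
  set e0 : EuclideanSpace ℝ (Fin n) := EuclideanSpace.single i0 1 with he0
  set e1 : EuclideanSpace ℝ (Fin n) := EuclideanSpace.single i1 1 with he1
  have hwi : Integrable w (volume.restrict (cube n)) := hw.integrable (by norm_num)
  have hDi : ∀ e, Integrable (fun x => D x e) (volume.restrict (cube n)) := fun e =>
    (((ContinuousLinearMap.apply ℝ F e).comp_memLp' hD).integrable (by norm_num))
  have p00 : (EuclideanSpace.proj i0 : EuclideanSpace ℝ (Fin n) →L[ℝ] ℝ) e0 = 1 := by simp [he0]
  have p10 : (EuclideanSpace.proj i1 : EuclideanSpace ℝ (Fin n) →L[ℝ] ℝ) e0 = 0 := by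
    simp [he0, hne.symm]
  have p01 : (EuclideanSpace.proj i0 : EuclideanSpace ℝ (Fin n) →L[ℝ] ℝ) e1 = 0 := by
    simp [he1, hne]
  have p11 : (EuclideanSpace.proj i1 : EuclideanSpace ℝ (Fin n) →L[ℝ] ℝ) e1 = 1 := by simp [he1]
  have hx0 : ContDiff ℝ ∞ (fun x : EuclideanSpace ℝ (Fin n) => x i0) :=
    (EuclideanSpace.proj i0 : EuclideanSpace ℝ (Fin n) →L[ℝ] ℝ).contDiff
  have hx1 : ContDiff ℝ ∞ (fun x : EuclideanSpace ℝ (Fin n) => x i1) :=
    (EuclideanSpace.proj i1 : EuclideanSpace ℝ (Fin n) →L[ℝ] ℝ).contDiff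
  -- smooth approximations
  have hP0 : ∀ k, ContDiff ℝ ∞ (fun x : EuclideanSpace ℝ (Fin n) =>
      Real.cosh (sE k (x i1)) • TN a b (x i0)) := fun k =>
    (Real.contDiff_cosh.comp ((sE_contDiff k).comp hx1)).smul ((TN_contDiff a b).comp hx0)
  have hP1 : ∀ k, ContDiff ℝ ∞ (fun x : EuclideanSpace ℝ (Fin n) =>
      Real.sinh (sE k (x i1)) • TT a b (x i0)) := fun k =>
    (Real.contDiff_sinh.comp ((sE_contDiff k).comp hx1)).smul ((TT_contDiff a b).comp hx0)
  have hd0 : ∀ k x, fderiv ℝ (fun x : EuclideanSpace ℝ (Fin n) =>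
      Real.cosh (sE k (x i1)) • TN a b (x i0)) x e0 = -(Real.cosh (sE k (x i1)) • TT a b (x i0)) := by
    intro k x
    have h1 : HasDerivAt (fun y => Real.cosh (sE k y)) (Real.sinh (sE k (x i1)) * sE' k (x i1)) (x i1) :=
      (Real.hasDerivAt_cosh _).comp (x i1) (sE_hasDerivAt k (x i1))
    have h2 := prod_hasFDerivAt i0 i1 x h1 (TN_hasDerivAt a b (x i0))
    rw [h2.fderiv]
    rw [ContinuousLinearMap.add_apply, ContinuousLinearMap.smulRight_apply,
      ContinuousLinearMap.smulRight_apply, p00, p10, one_smul, zero_smul, add_zero, smul_neg]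
  have hd1 : ∀ k x, fderiv ℝ (fun x : EuclideanSpace ℝ (Fin n) =>
      Real.sinh (sE k (x i1)) • TT a b (x i0)) x e1
        = (Real.cosh (sE k (x i1)) * sE' k (x i1)) • TT a b (x i0) := by
    intro k x
    have h1 : HasDerivAt (fun y => Real.sinh (sE k y)) (Real.cosh (sE k (x i1)) * sE' k (x i1)) (x i1) :=
      (Real.hasDerivAt_sinh _).comp (x i1) (sE_hasDerivAt k (x i1))
    have h2 := prod_hasFDerivAt i0 i1 x h1 (TT_hasDerivAt a b (x i0))
    rw [h2.fderiv]
    rw [ContinuousLinearMap.add_apply, ContinuousLinearMap.smulRight_apply,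
      ContinuousLinearMap.smulRight_apply, p01, p11, one_smul, zero_smul, zero_add]
  -- bounded multipliers
  have hcK : IsCompact (closure (cube n)) := (cube_bounded n).isCompact_closure
  have hmul : ∀ (Q : EuclideanSpace ℝ (Fin n) → F) (_ : Continuous Q)
      (G : EuclideanSpace ℝ (Fin n) → F), Integrable G (volume.restrict (cube n)) →
      Integrable (fun x => ⟪Q x, G x⟫) (volume.restrict (cube n)) := by
    intro Q hQ G hG
    obtain ⟨C, hC⟩ := hcK.exists_bound_of_continuousOn hQ.continuousOn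
    refine Integrable.mono' (hG.norm.const_mul C) ?_ ?_
    · exact hQ.aestronglyMeasurable.inner hG.aestronglyMeasurable
    · rw [ae_restrict_iff' (cube_open n).measurableSet]
      refine Filter.Eventually.of_forall fun x hx => ?_
      calc ‖⟪Q x, G x⟫‖ ≤ ‖Q x‖ * ‖G x‖ := norm_inner_le_norm _ _
        _ ≤ C * ‖G x‖ := by gcongr; exact hC x (subset_closure hx)
  have hk : ∀ k : ℕ, ∫ x in cube n, (⟪Real.cosh (sE k (x i1)) • TN a b (x i0), D x e0⟫
        + ⟪Real.sinh (sE k (x i1)) • TT a b (x i0), D x e1⟫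
        - ((1 - sE' k (x i1)) * Real.cosh (sE k (x i1))) * ⟪TT a b (x i0), w x⟫) = 0 := by
    intro k
    have w0 := weak_vec hcomp hsub hw hD hweak hz (hP0 k) e0
    have w1 := weak_vec hcomp hsub hw hD hweak hz (hP1 k) e1
    simp only [hd0] at w0
    simp only [hd1] at w1
    have i1' := hmul _ (hP0 k).continuous _ (hDi e0)
    have i2' := hmul _ (hP1 k).continuous _ (hDi e1)
    have c3 : Continuous (fun x : EuclideanSpace ℝ (Fin n) => Real.cosh (sE k (x i1)) • TT a b (x i0)) :=
      ((Real.contDiff_cosh (n := ∞)).comp ((sE_contDiff k).comp hx1)).continuous.smul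
        ((TT_contDiff a b).comp hx0).continuous
    have i3' := hmul _ c3 _ hwi
    have c4 : Continuous (fun x : EuclideanSpace ℝ (Fin n) =>
        (Real.cosh (sE k (x i1)) * sE' k (x i1)) • TT a b (x i0)) := by
      have : (fun x : EuclideanSpace ℝ (Fin n) =>
        (Real.cosh (sE k (x i1)) * sE' k (x i1)) • TT a b (x i0)) = fun x => fderiv ℝ
          (fun x : EuclideanSpace ℝ (Fin n) => Real.sinh (sE k (x i1)) • TT a b (x i0)) x e1 := by
        funext x; exact (hd1 k x).symm
      rw [this]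
      exact ((hP1 k).continuous_fderiv (by norm_num)).clm_apply continuous_const
    have i4' := hmul _ c4 _ hwi
    have e : (fun x : EuclideanSpace ℝ (Fin n) => (⟪Real.cosh (sE k (x i1)) • TN a b (x i0), D x e0⟫
        + ⟪Real.sinh (sE k (x i1)) • TT a b (x i0), D x e1⟫
        - ((1 - sE' k (x i1)) * Real.cosh (sE k (x i1))) * ⟪TT a b (x i0), w x⟫))
        = fun x => (⟪Real.cosh (sE k (x i1)) • TN a b (x i0), D x e0⟫
        + ⟪Real.sinh (sE k (x i1)) • TT a b (x i0), D x e1⟫)
        - (⟪Real.cosh (sE k (x i1)) • TT a b (x i0), w x⟫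
          - ⟪(Real.cosh (sE k (x i1)) * sE' k (x i1)) • TT a b (x i0), w x⟫) := by
      funext x
      simp only [inner_smul_left, conj_trivial]
      ring
    have s1 : Integrable (fun x : EuclideanSpace ℝ (Fin n) =>
        ⟪Real.cosh (sE k (x i1)) • TN a b (x i0), D x e0⟫
        + ⟪Real.sinh (sE k (x i1)) • TT a b (x i0), D x e1⟫) (volume.restrict (cube n)) :=
      i1'.add i2'
    have s2 : Integrable (fun x : EuclideanSpace ℝ (Fin n) =>
        ⟪Real.cosh (sE k (x i1)) • TT a b (x i0), w x⟫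
          - ⟪(Real.cosh (sE k (x i1)) * sE' k (x i1)) • TT a b (x i0), w x⟫)
        (volume.restrict (cube n)) := i3'.sub i4'
    rw [e, integral_sub s1 s2, integral_add i1' i2', integral_sub i3' i4']
    simp only [inner_neg_left] at w0
    rw [integral_neg] at w0
    linarith
  have hlim : Tendsto (fun k : ℕ => ∫ x in cube n, (⟪Real.cosh (sE k (x i1)) • TN a b (x i0), D x e0⟫
        + ⟪Real.sinh (sE k (x i1)) • TT a b (x i0), D x e1⟫
        - ((1 - sE' k (x i1)) * Real.cosh (sE k (x i1))) * ⟪TT a b (x i0), w x⟫)) atTop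
      (𝓝 (∫ x in cube n, (⟪ch (x i1) • TN a b (x i0), D x e0⟫
        + ⟪sh (x i1) • TT a b (x i0), D x e1⟫
        - (if x i1 ≤ 0 then ⟪TT a b (x i0), w x⟫ else 0)))) := by
    apply tendsto_integral_of_dominated_convergence
      (fun x => Real.cosh 2 * ‖D x e0‖ + Real.cosh 2 * ‖D x e1‖ + 2 * Real.cosh 2 * ‖w x‖)
    · intro k
      have i1' := hmul _ (hP0 k).continuous _ (hDi e0)
      have i2' := hmul _ (hP1 k).continuous _ (hDi e1)
      have c5 : Continuous (fun x : EuclideanSpace ℝ (Fin n) => TT a b (x i0)) :=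
        ((TT_contDiff a b).comp hx0).continuous
      have i5' := hmul _ c5 _ hwi
      have c6 : Continuous (fun x : EuclideanSpace ℝ (Fin n) =>
          (1 - sE' k (x i1)) * Real.cosh (sE k (x i1))) := by
        have c7 : Continuous (sE' k) := by
          have : sE' k = deriv (sE k) := by funext y; exact (sE_hasDerivAt k y).deriv.symm
          rw [this]
          exact (sE_contDiff k).continuous_deriv (by norm_num)
        exact (continuous_const.sub (c7.comp hx1.continuous)).mul
          (Real.continuous_cosh.comp ((sE_contDiff k).continuous.comp hx1.continuous))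
      exact (i1'.aestronglyMeasurable.add i2'.aestronglyMeasurable).sub
        (c6.aestronglyMeasurable.mul i5'.aestronglyMeasurable)
    · exact (((hDi e0).norm.const_mul _).add ((hDi e1).norm.const_mul _)).add
        (hwi.norm.const_mul _)
    · intro k
      rw [ae_restrict_iff' (cube_open n).measurableSet]
      refine Filter.Eventually.of_forall fun x hx => ?_
      have hx1' : |x i1| ≤ 1 := by have := hx i1; linarith
      have hs := sE_abs_le k hx1'
      have hc : |Real.cosh (sE k (x i1))| ≤ Real.cosh 2 := by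
        rw [abs_of_pos (Real.cosh_pos _)]
        apply Real.cosh_le_cosh.mpr
        rwa [abs_of_pos (by norm_num : (0:ℝ) < 2)]
      have hsn : |Real.sinh (sE k (x i1))| ≤ Real.cosh 2 := by
        have h1 : |Real.sinh (sE k (x i1))| ≤ |Real.cosh (sE k (x i1))| := by
          apply sq_le_sq.mp
          have := Real.cosh_sq (sE k (x i1))
          linarith
        exact h1.trans hc
      have hs' := sE'_abs k (x i1)
      have nT := TT_norm ha hb hab (x i0)
      have nN := TN_norm ha hb hab (x i0)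
      have t1 : |⟪Real.cosh (sE k (x i1)) • TN a b (x i0), D x e0⟫| ≤ Real.cosh 2 * ‖D x e0‖ := by
        calc _ ≤ ‖Real.cosh (sE k (x i1)) • TN a b (x i0)‖ * ‖D x e0‖ := abs_real_inner_le_norm _ _
          _ ≤ Real.cosh 2 * ‖D x e0‖ := by
            rw [norm_smul, nN, mul_one, Real.norm_eq_abs]; gcongr
      have t2 : |⟪Real.sinh (sE k (x i1)) • TT a b (x i0), D x e1⟫| ≤ Real.cosh 2 * ‖D x e1‖ := by
        calc _ ≤ ‖Real.sinh (sE k (x i1)) • TT a b (x i0)‖ * ‖D x e1‖ := abs_real_inner_le_norm _ _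
          _ ≤ Real.cosh 2 * ‖D x e1‖ := by
            rw [norm_smul, nT, mul_one, Real.norm_eq_abs]; gcongr
      have t3 : |((1 - sE' k (x i1)) * Real.cosh (sE k (x i1))) * ⟪TT a b (x i0), w x⟫|
          ≤ 2 * Real.cosh 2 * ‖w x‖ := by
        rw [abs_mul, abs_mul]
        have h1 : |1 - sE' k (x i1)| ≤ 2 := by
          rw [abs_le] at hs' ⊢; constructor <;> linarith [hs'.1, hs'.2]
        have h2 : |⟪TT a b (x i0), w x⟫| ≤ ‖w x‖ := by
          have := abs_real_inner_le_norm (TT a b (x i0)) (w x)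
          rwa [nT, one_mul] at this
        have h3 : 0 ≤ Real.cosh 2 := (Real.cosh_pos 2).le
        gcongr
      rw [Real.norm_eq_abs]
      calc _ ≤ |⟪Real.cosh (sE k (x i1)) • TN a b (x i0), D x e0⟫
            + ⟪Real.sinh (sE k (x i1)) • TT a b (x i0), D x e1⟫|
            + |((1 - sE' k (x i1)) * Real.cosh (sE k (x i1))) * ⟪TT a b (x i0), w x⟫| :=
            abs_sub _ _
        _ ≤ _ := by
          have := abs_add_le (⟪Real.cosh (sE k (x i1)) • TN a b (x i0), D x e0⟫)
            (⟪Real.sinh (sE k (x i1)) • TT a b (x i0), D x e1⟫)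
          linarith
    · apply ae_restrict_of_ae
      filter_upwards [hyper_null i1] with x hx
      have l1 : Tendsto (fun k => Real.cosh (sE k (x i1))) atTop (𝓝 (ch (x i1))) :=
        (Real.continuous_cosh.tendsto _).comp (sE_tendsto (x i1))
      have l2 : Tendsto (fun k => Real.sinh (sE k (x i1))) atTop (𝓝 (sh (x i1))) :=
        (Real.continuous_sinh.tendsto _).comp (sE_tendsto (x i1))
      have l3 : Tendsto (fun k => ⟪Real.cosh (sE k (x i1)) • TN a b (x i0), D x e0⟫) atTop
          (𝓝 ⟪ch (x i1) • TN a b (x i0), D x e0⟫) :=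
        (l1.smul tendsto_const_nhds).inner tendsto_const_nhds
      have l4 : Tendsto (fun k => ⟪Real.sinh (sE k (x i1)) • TT a b (x i0), D x e1⟫) atTop
          (𝓝 ⟪sh (x i1) • TT a b (x i0), D x e1⟫) :=
        (l2.smul tendsto_const_nhds).inner tendsto_const_nhds
      refine (l3.add l4).sub ?_
      rcases lt_or_gt_of_ne hx with hneg | hpos
      · rw [if_pos hneg.le]
        have h5 := ((sE'_tendsto_neg hneg).const_sub 1).mul l1
        have h6 : ch (x i1) = 1 := by unfold ch; rw [max_eq_right hneg.le]; simp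
        rw [h6, sub_zero, one_mul] at h5
        have h7 := h5.mul_const (⟪TT a b (x i0), w x⟫)
        rwa [one_mul] at h7
      · rw [if_neg (not_le.mpr hpos)]
        have h5 := ((sE'_tendsto_pos hpos).const_sub 1).mul l1
        rw [sub_self, zero_mul] at h5
        have h7 := h5.mul_const (⟪TT a b (x i0), w x⟫)
        rwa [zero_mul] at h7
  simp only [hk] at hlim
  exact (tendsto_nhds_unique hlim tendsto_const_nhds)

end core

end Pool.Agent.H507R3.CM
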