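import Pool.Agent.H507R3.CMWeak

/-!
# Weak derivatives vanish on level sets; extension by zero
-/

set_option autoImplicit false
open MeasureTheory Set Filter Topology
open scoped ContDiff

namespace Pool.Agent.H507R3.CM

variable {E : Type*} [NormedAddCommGroup E] [InnerProductSpace ℝ E] [FiniteDimensional ℝ E]
  [MeasurableSpace E] [BorelSpace E]
variable {F : Type*} [NormedAddCommGroup F] [InnerProductSpace ℝ F] [FiniteDimensional ℝ F]

lemma line_prod_integrable {e : E} {g : E → F} (hgm : StronglyMeasurable g)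
    (hg : Integrable g) (ν : Measure ℝ) [IsFiniteMeasure ν] :
    Integrable (fun p : E × ℝ => g (p.1 + p.2 • e)) ((volume : Measure E).prod ν) := by
  have hm : StronglyMeasurable (fun p : E × ℝ => g (p.1 + p.2 • e)) :=
    hgm.comp_measurable (by fun_prop)
  rw [integrable_prod_iff' hm.aestronglyMeasurable]
  refine ⟨Filter.Eventually.of_forall fun s => hg.comp_add_right (s • e), ?_⟩
  have : (fun s : ℝ => ∫ x : E, ‖g (x + s • e)‖) = fun _ => ∫ x : E, ‖g x‖ := by
    funext s
    exact integral_add_right_eq_self (fun x => ‖g x‖) (s • e)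
  simp only [this]
  exact integrable_const _

lemma zero_on_level {g : E → F} {e : E} {Ω : Set E}
    (hgm : StronglyMeasurable g) (hg : Integrable g)
    (hsupp : ∀ x, x ∉ Ω → g x = 0) (hdis : ∀ x ∈ Ω, x - e ∉ Ω)
    {Z : Set E} (hZm : MeasurableSet Z) (hZ : Z ⊆ Ω) (hA : ∀ x ∈ Z, Av e g x = 0) :
    ∀ᵐ x : E, x ∈ Z → g x = 0 := by
  set B : Set E := Z ∩ {x | ‖g x‖ ≠ 0} with hB
  have hBm : MeasurableSet B := by
    apply hZm.inter
    have : Measurable (fun x => ‖g x‖) := hgm.norm.measurable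
    exact (this (measurableSet_singleton (0:ℝ))).compl
  -- lines
  have hline : ∀ᵐ q : E, ∀ᵐ t : ℝ, t ∈ Ioo (0:ℝ) 1 → q + t • e ∉ B := by
    filter_upwards [(line_prod_integrable (e := e) hgm hg
      (volume.restrict (Ioc (-1:ℝ) 1))).prod_right_ae] with q hq
    set G : ℝ → F := fun σ => g (q + σ • e) with hG
    have hGi : IntervalIntegrable G volume (-1) 1 := by
      rw [intervalIntegrable_iff_integrableOn_Ioc_of_le (by norm_num)]
      exact hq
    have hder := hGi.ae_hasDerivAt_integral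
    have hder' : ∀ᵐ t : ℝ, (t - 1) ∈ uIcc (-1:ℝ) 1 → ∀ c ∈ uIcc (-1:ℝ) 1,
        HasDerivAt (fun x => ∫ s in c..x, G s) (G (t-1)) (t-1) :=
      (measurePreserving_sub_right volume (1:ℝ)).quasiMeasurePreserving.ae hder
    set s : Set ℝ := Ioo (0:ℝ) 1 ∩ {t | q + t • e ∈ Z} with hs
    have hz0 : ∀ t ∈ s, (∫ σ in (t-1)..t, G σ) = 0 := by
      intro t ht
      have h1 := hA _ ht.2
      unfold Av at h1
      rw [← intervalIntegral.integral_of_le zero_le_one] at h1
      have h2 : ∫ σ in (0:ℝ)..1, g (q + t • e - σ • e) = ∫ σ in (0:ℝ)..1, G (t - σ) := by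
        apply intervalIntegral.integral_congr
        intro σ _
        simp only [hG]; congr 1; rw [sub_smul]; abel
      rw [h2, intervalIntegral.integral_comp_sub_left (fun σ => G σ) t, sub_zero] at h1
      exact h1
    have hD := deriv_zero_ae (f := fun t => ∫ σ in (t-1)..t, G σ) (k := G) hz0
    filter_upwards [hD, hder, hder'] with t h1 h2 h3 ht hBt
    have hts : t ∈ s := ⟨ht, hBt.1⟩
    have m1 : t ∈ uIcc (-1:ℝ) 1 := by
      rw [uIcc_of_le (by norm_num)]; exact ⟨by linarith [ht.1], ht.2.le⟩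
    have m2 : t - 1 ∈ uIcc (-1:ℝ) 1 := by
      rw [uIcc_of_le (by norm_num)]; exact ⟨by linarith [ht.1], by linarith [ht.2]⟩
    have m3 : (-1:ℝ) ∈ uIcc (-1:ℝ) 1 := left_mem_uIcc
    have d1 := h2 m1 (-1) m3
    have d2 := h3 m2 (-1) m3
    have hGt1 : G (t-1) = 0 := by
      simp only [hG]
      have : q + (t-1) • e = (q + t • e) - e := by rw [sub_smul, one_smul]; abel
      rw [this]
      exact hsupp _ (hdis _ (hZ hBt.1))
    have d2' : HasDerivAt (fun x => ∫ s in (-1:ℝ)..(x-1), G s) (G (t-1)) t :=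
      HasDerivAt.comp_sub_const t 1 d2
    have d3 := d1.sub d2'
    rw [hGt1, sub_zero] at d3
    have hev : (fun t => ∫ σ in (t-1)..t, G σ)
        =ᶠ[𝓝 t] ((fun x => ∫ s in (-1:ℝ)..x, G s) - fun x => ∫ s in (-1:ℝ)..(x-1), G s) := by
      filter_upwards [Ioo_mem_nhds ht.1 ht.2] with x hx
      simp only [Pi.sub_apply]
      have i1 : IntervalIntegrable G volume (-1) x := hGi.mono_set (by
        rw [uIcc_of_le (by norm_num : (-1:ℝ) ≤ 1), uIcc_of_le (by linarith [hx.1])]
        exact Icc_subset_Icc_right hx.2.le)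
      have i2 : IntervalIntegrable G volume (-1) (x-1) := hGi.mono_set (by
        rw [uIcc_of_le (by norm_num : (-1:ℝ) ≤ 1), uIcc_of_le (by linarith [hx.1])]
        exact Icc_subset_Icc_right (by linarith [hx.2]))
      rw [intervalIntegral.integral_interval_sub_left i1 i2]
    have d4 := d3.congr_of_eventuallyEq hev
    have hG0 := h1 hts d4
    exact hBt.2 (by show ‖g (q + t • e)‖ = 0; rw [show g (q + t • e) = G t from rfl, hG0, norm_zero])
  have hSm : MeasurableSet {p : E × ℝ | p.1 + p.2 • e ∈ B} := by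
    have : Measurable fun p : E × ℝ => p.1 + p.2 • e := by fun_prop
    exact this hBm
  have h0 : ((volume : Measure E).prod (volume.restrict (Ioo (0:ℝ) 1)))
      {p : E × ℝ | p.1 + p.2 • e ∈ B} = 0 := by
    rw [Measure.measure_prod_null hSm]
    filter_upwards [hline] with q hq
    rw [Pi.zero_apply, Measure.restrict_apply' measurableSet_Ioo]
    have : ∀ᵐ t : ℝ, t ∉ (Prod.mk q ⁻¹' {p : E × ℝ | p.1 + p.2 • e ∈ B} ∩ Ioo (0:ℝ) 1) := by
      filter_upwards [hq] with t ht hmem
      exact ht hmem.2 hmem.1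
    rw [ae_iff] at this
    simp only [not_not] at this
    exact this
  rw [Measure.prod_apply_symm hSm] at h0
  have h1 : ∀ t : ℝ, volume ((fun x : E => (x, t)) ⁻¹' {p : E × ℝ | p.1 + p.2 • e ∈ B})
      = volume B := by
    intro t
    have : ((fun x : E => (x, t)) ⁻¹' {p : E × ℝ | p.1 + p.2 • e ∈ B})
        = (fun x => x + t • e) ⁻¹' B := rfl
    rw [this, measure_preimage_add_right]
  simp only [h1] at h0
  rw [lintegral_const] at h0
  have h2 : volume B = 0 := by simpa using h0
  have h3 : ∀ᵐ x : E, x ∉ B := by rw [ae_iff]; simpa using h2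
  filter_upwards [h3] with x hx hxZ
  by_contra hne
  exact hx ⟨hxZ, by show ‖g x‖ ≠ 0; rwa [norm_ne_zero_iff]⟩

/-- Extension by zero of a Sobolev function vanishing off a compact subset. -/
lemma extend_weak {Ω K : Set E} (hΩ : IsOpen Ω) (hfin : volume Ω < ⊤)
    (hK : IsCompact K) (hKΩ : K ⊆ Ω) {w : E → F}
    {D : E → E →L[ℝ] F} (hD : MemLp D 2 (volume.restrict Ω))
    (hweak : ∀ φ : E → ℝ, ContDiff ℝ ∞ φ → HasCompactSupport φ → tsupport φ ⊆ Ω → ∀ e : E,
      ∫ x in Ω, fderiv ℝ φ x e • w x = - ∫ x in Ω, φ x • D x e)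
    (hz : ∀ᵐ x ∂(volume.restrict Ω), x ∉ K → w x = 0) :
    (∀ᵐ x ∂(volume.restrict Ω), x ∉ K → D x = 0) ∧
    ∀ φ : E → ℝ, ContDiff ℝ ∞ φ → ∀ e : E,
      ∫ x, fderiv ℝ φ x e • K.indicator w x = - ∫ x, φ x • K.indicator (fun x => D x e) x := by
  have hfinm : IsFiniteMeasure (volume.restrict Ω) :=
    ⟨by rw [Measure.restrict_apply_univ]; exact hfin⟩
  have hDi : Integrable D (volume.restrict Ω) := hD.integrable (by norm_num)
  have hDei : ∀ e : E, IntegrableOn (fun x => D x e) Ω := fun e =>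
    (ContinuousLinearMap.apply ℝ F e).integrable_comp hDi
  have hzero : ∀ e : E, ∀ᵐ x : E, x ∈ Ω ∩ Kᶜ → D x e = 0 := by
    intro e
    apply (hΩ.inter hK.isClosed.isOpen_compl).ae_eq_zero_of_integral_contDiff_smul_eq_zero
    · exact ((hDei e).mono_set inter_subset_left).locallyIntegrableOn
    · intro g hg hgs hsub
      have h1 : ∫ x, g x • D x e = ∫ x in Ω, g x • D x e := by
        rw [setIntegral_eq_integral_of_forall_compl_eq_zero]
        intro x hx
        have : g x = 0 := by
          by_contra hne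
          exact hx (hsub (subset_tsupport g hne)).1
        rw [this, zero_smul]
      have h2 := hweak g hg hgs (hsub.trans inter_subset_left) e
      have h3 : ∫ x in Ω, fderiv ℝ g x e • w x = 0 := by
        rw [← integral_zero E F (μ := volume.restrict Ω)]
        apply integral_congr_ae
        filter_upwards [hz] with x hx
        by_cases hxK : x ∈ K
        · have : x ∉ tsupport g := fun h => (hsub h).2 hxK
          have h4 : fderiv ℝ g x = 0 := by
            by_contra hne
            exact this (support_fderiv_subset ℝ hne)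
          rw [h4]; simp
        · rw [hx hxK, smul_zero]
      rw [h1]
      rw [h3] at h2
      exact neg_eq_zero.mp h2.symm
  have hDK : ∀ᵐ x ∂(volume.restrict Ω), x ∉ K → D x = 0 := by
    let b := stdOrthonormalBasis ℝ E
    have h1 : ∀ᵐ x : E, ∀ i, x ∈ Ω ∩ Kᶜ → D x (b i) = 0 := by
      rw [ae_all_iff]; intro i; exact hzero (b i)
    rw [ae_restrict_iff' hΩ.measurableSet]
    filter_upwards [h1] with x hx hxΩ hxK
    apply ContinuousLinearMap.coe_injective
    apply b.toBasis.ext
    intro i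
    simpa using hx i ⟨hxΩ, hxK⟩
  refine ⟨hDK, ?_⟩
  intro φ hφ e
  obtain ⟨L, hLc, hKL, hLΩ⟩ := exists_compact_between hK hΩ hKΩ
  obtain ⟨χ, hχ1, hχ0, _⟩ := exists_contMDiffMap_one_nhds_of_subset_interior
    (n := (⊤ : ℕ∞)) (modelWithCornersSelf ℝ E) hK.isClosed hKL
  have hχs : ContDiff ℝ ∞ (χ : E → ℝ) := χ.contMDiff.contDiff
  have hprod : ContDiff ℝ ∞ (fun x => χ x * φ x) := hχs.mul hφ
  have hsupp : tsupport (fun x => χ x * φ x) ⊆ L := by
    apply closure_minimal _ hLc.isClosed
    intro x hx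
    by_contra hxL
    apply hx
    show χ x * φ x = 0
    rw [hχ0 x hxL, zero_mul]
  have hcs : HasCompactSupport (fun x => χ x * φ x) :=
    hLc.of_isClosed_subset (isClosed_tsupport _) hsupp
  have h1 := hweak _ hprod hcs (hsupp.trans hLΩ) e
  have hχK : ∀ x ∈ K, χ x = 1 ∧ fderiv ℝ (fun y => χ y * φ y) x = fderiv ℝ φ x := by
    intro x hx
    have hev : ∀ᶠ y in 𝓝 x, χ y = 1 := (eventually_nhdsSet_iff_forall.mp hχ1) x hx
    refine ⟨hev.self_of_nhds, ?_⟩
    apply Filter.EventuallyEq.fderiv_eq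
    filter_upwards [hev] with y hy
    rw [hy, one_mul]
  have e1 : ∫ x in Ω, fderiv ℝ (fun y => χ y * φ y) x e • w x
      = ∫ x, fderiv ℝ φ x e • K.indicator w x := by
    have : ∫ x, fderiv ℝ φ x e • K.indicator w x
        = ∫ x in Ω, fderiv ℝ φ x e • K.indicator w x := by
      rw [setIntegral_eq_integral_of_forall_compl_eq_zero]
      intro x hx
      rw [indicator_of_notMem (fun h => hx (hKΩ h)), smul_zero]
    rw [this]
    apply integral_congr_ae
    filter_upwards [hz] with x hx
    by_cases hxK : x ∈ K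
    · rw [(hχK x hxK).2, indicator_of_mem hxK]
    · rw [hx hxK, indicator_of_notMem hxK, smul_zero, smul_zero]
  have e2 : ∫ x in Ω, (χ x * φ x) • D x e = ∫ x, φ x • K.indicator (fun x => D x e) x := by
    have : ∫ x, φ x • K.indicator (fun x => D x e) x
        = ∫ x in Ω, φ x • K.indicator (fun x => D x e) x := by
      rw [setIntegral_eq_integral_of_forall_compl_eq_zero]
      intro x hx
      rw [indicator_of_notMem (fun h => hx (hKΩ h)), smul_zero]
    rw [this]
    apply integral_congr_ae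
    filter_upwards [hDK] with x hx
    by_cases hxK : x ∈ K
    · rw [(hχK x hxK).1, one_mul, indicator_of_mem hxK]
    · rw [hx hxK, indicator_of_notMem hxK, smul_zero]; simp
  rw [← e1, ← e2]
  exact h1

end Pool.Agent.H507R3.CM
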