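import Pool.Agent.H507R3.CMCore

/-!
# The map `cosh(y⁺) (cos x a + sin x b)`
-/

set_option autoImplicit false
open MeasureTheory Set Filter Topology
open scoped ContDiff RealInnerProductSpace

namespace Pool.Agent.H507R3.CM

variable {F : Type*} [NormedAddCommGroup F] [InnerProductSpace ℝ F] [FiniteDimensional ℝ F]

noncomputable def ch (y : ℝ) : ℝ := Real.cosh (max y 0)
noncomputable def sh (y : ℝ) : ℝ := Real.sinh (max y 0)

lemma ch_continuous : Continuous ch := Real.continuous_cosh.comp (continuous_id.max continuous_const)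
lemma sh_continuous : Continuous sh := Real.continuous_sinh.comp (continuous_id.max continuous_const)

lemma ch_hasDerivAt (y : ℝ) : HasDerivAt ch (sh y) y := by
  rcases lt_trichotomy y 0 with hy | hy | hy
  · have hev : ch =ᶠ[𝓝 y] fun _ => 1 := by
      filter_upwards [eventually_lt_nhds hy] with z hz
      unfold ch; rw [max_eq_right hz.le]; simp
    have : sh y = 0 := by unfold sh; rw [max_eq_right hy.le]; simp
    rw [this]
    exact (hasDerivAt_const y (1:ℝ)).congr_of_eventuallyEq hev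
  · subst hy
    have hs : sh 0 = 0 := by unfold sh; simp
    rw [hs]
    have h1 : HasDerivWithinAt ch 0 (Iic 0) 0 := by
      refine (hasDerivWithinAt_const (0:ℝ) (Iic 0) (1:ℝ)).congr ?_ ?_
      · intro z hz; unfold ch; rw [max_eq_right hz]; simp
      · unfold ch; simp
    have h2 : HasDerivWithinAt ch 0 (Ici 0) 0 := by
      have h3 : HasDerivWithinAt Real.cosh 0 (Ici 0) 0 := by
        simpa using (Real.hasDerivAt_cosh 0).hasDerivWithinAt (s := Ici 0)
      refine h3.congr ?_ ?_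
      · intro z hz; unfold ch; rw [max_eq_left hz]
      · unfold ch; simp
    have h4 := h1.union h2
    rw [Iic_union_Ici, hasDerivWithinAt_univ] at h4
    exact h4
  · have hev : ch =ᶠ[𝓝 y] Real.cosh := by
      filter_upwards [eventually_gt_nhds hy] with z hz
      unfold ch; rw [max_eq_left hz.le]
    have : sh y = Real.sinh y := by unfold sh; rw [max_eq_left hy.le]
    rw [this]
    exact (Real.hasDerivAt_cosh y).congr_of_eventuallyEq hev

/-- unit vector field -/
noncomputable def TT (a b : F) (θ : ℝ) : F := Real.cos θ • a + Real.sin θ • b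
/-- its derivative -/
noncomputable def TN (a b : F) (θ : ℝ) : F := (-Real.sin θ) • a + Real.cos θ • b

lemma TT_hasDerivAt (a b : F) (θ : ℝ) : HasDerivAt (TT a b) (TN a b θ) θ :=
  ((Real.hasDerivAt_cos θ).smul_const a).add ((Real.hasDerivAt_sin θ).smul_const b)

lemma TN_hasDerivAt (a b : F) (θ : ℝ) : HasDerivAt (TN a b) (-TT a b θ) θ := by
  have h := ((Real.hasDerivAt_sin θ).neg.smul_const a).add ((Real.hasDerivAt_cos θ).smul_const b)
  refine h.congr_deriv ?_
  unfold TT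
  simp only [neg_smul, neg_add]

lemma TT_contDiff (a b : F) : ContDiff ℝ ∞ (TT a b) := by
  unfold TT
  exact (Real.contDiff_cos.smul contDiff_const).add (Real.contDiff_sin.smul contDiff_const)

lemma TN_contDiff (a b : F) : ContDiff ℝ ∞ (TN a b) := by
  unfold TN
  exact (Real.contDiff_sin.neg.smul contDiff_const).add (Real.contDiff_cos.smul contDiff_const)

section orth

variable {a b : F} (ha : ‖a‖ = 1) (hb : ‖b‖ = 1) (hab : ⟪a, b⟫ = 0)
include ha hb hab

lemma TT_inner_self (θ : ℝ) : ⟪TT a b θ, TT a b θ⟫ = 1 := by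
  unfold TT
  have h1 : ⟪a, a⟫ = 1 := by rw [real_inner_self_eq_norm_sq, ha]; norm_num
  have h2 : ⟪b, b⟫ = 1 := by rw [real_inner_self_eq_norm_sq, hb]; norm_num
  have h3 : ⟪b, a⟫ = 0 := by rw [real_inner_comm]; exact hab
  simp only [inner_add_left, inner_add_right, inner_smul_left, inner_smul_right, h1, h2, h3, hab]
  simp only [conj_trivial]
  nlinarith [Real.sin_sq_add_cos_sq θ]

lemma TN_inner_self (θ : ℝ) : ⟪TN a b θ, TN a b θ⟫ = 1 := by
  unfold TN
  have h1 : ⟪a, a⟫ = 1 := by rw [real_inner_self_eq_norm_sq, ha]; norm_num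
  have h2 : ⟪b, b⟫ = 1 := by rw [real_inner_self_eq_norm_sq, hb]; norm_num
  have h3 : ⟪b, a⟫ = 0 := by rw [real_inner_comm]; exact hab
  simp only [inner_add_left, inner_add_right, inner_smul_left, inner_smul_right, h1, h2, h3, hab]
  simp only [conj_trivial]
  nlinarith [Real.sin_sq_add_cos_sq θ]

lemma TT_TN (θ : ℝ) : ⟪TT a b θ, TN a b θ⟫ = 0 := by
  unfold TT TN
  have h1 : ⟪a, a⟫ = 1 := by rw [real_inner_self_eq_norm_sq, ha]; norm_num
  have h2 : ⟪b, b⟫ = 1 := by rw [real_inner_self_eq_norm_sq, hb]; norm_num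
  have h3 : ⟪b, a⟫ = 0 := by rw [real_inner_comm]; exact hab
  simp only [inner_add_left, inner_add_right, inner_smul_left, inner_smul_right, h1, h2, h3, hab]
  simp only [conj_trivial]
  ring

lemma TT_norm (θ : ℝ) : ‖TT a b θ‖ = 1 := by
  have h := TT_inner_self ha hb hab θ
  rw [real_inner_self_eq_norm_sq] at h
  nlinarith [norm_nonneg (TT a b θ)]

lemma TN_norm (θ : ℝ) : ‖TN a b θ‖ = 1 := by
  have h := TN_inner_self ha hb hab θ
  rw [real_inner_self_eq_norm_sq] at h
  nlinarith [norm_nonneg (TN a b θ)]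

end orth

variable {n : ℕ}

/-- The map. -/
noncomputable def uM (a b : F) (i0 i1 : Fin n) (x : EuclideanSpace ℝ (Fin n)) : F :=
  ch (x i1) • TT a b (x i0)

/-- Its derivative. -/
noncomputable def DuM (a b : F) (i0 i1 : Fin n) (x : EuclideanSpace ℝ (Fin n)) :
    EuclideanSpace ℝ (Fin n) →L[ℝ] F :=
  (EuclideanSpace.proj i0 : EuclideanSpace ℝ (Fin n) →L[ℝ] ℝ).smulRight
      (ch (x i1) • TN a b (x i0))
  + (EuclideanSpace.proj i1 : EuclideanSpace ℝ (Fin n) →L[ℝ] ℝ).smulRight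
      (sh (x i1) • TT a b (x i0))

/-- General product rule for such maps. -/
lemma prod_hasFDerivAt {c : ℝ → ℝ} {S : ℝ → F} {c' : ℝ} {S' : F} (i0 i1 : Fin n)
    (x : EuclideanSpace ℝ (Fin n)) (hc : HasDerivAt c c' (x i1)) (hS : HasDerivAt S S' (x i0)) :
    HasFDerivAt (fun x : EuclideanSpace ℝ (Fin n) => c (x i1) • S (x i0))
      ((EuclideanSpace.proj i0 : EuclideanSpace ℝ (Fin n) →L[ℝ] ℝ).smulRight (c (x i1) • S')
      + (EuclideanSpace.proj i1 : EuclideanSpace ℝ (Fin n) →L[ℝ] ℝ).smulRight (c' • S (x i0))) x := by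
  have h0 : HasFDerivAt (fun x : EuclideanSpace ℝ (Fin n) => x i0)
      (EuclideanSpace.proj i0 : EuclideanSpace ℝ (Fin n) →L[ℝ] ℝ) x :=
    (EuclideanSpace.proj i0 : EuclideanSpace ℝ (Fin n) →L[ℝ] ℝ).hasFDerivAt
  have h1 : HasFDerivAt (fun x : EuclideanSpace ℝ (Fin n) => x i1)
      (EuclideanSpace.proj i1 : EuclideanSpace ℝ (Fin n) →L[ℝ] ℝ) x :=
    (EuclideanSpace.proj i1 : EuclideanSpace ℝ (Fin n) →L[ℝ] ℝ).hasFDerivAt
  have hc2 := hc.comp_hasFDerivAt x h1
  have hS2 := hS.hasFDerivAt.comp x h0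
  have h := hc2.smul hS2
  refine h.congr_fderiv ?_
  ext y
  simp only [Function.comp_apply, ContinuousLinearMap.add_apply, ContinuousLinearMap.smul_apply,
    ContinuousLinearMap.smulRight_apply, ContinuousLinearMap.comp_apply, smul_eq_mul,
    ContinuousLinearMap.toSpanSingleton_apply]
  simp only [smul_smul]
  congr 2
  · ring
  · ring

lemma uM_hasFDerivAt (a b : F) (i0 i1 : Fin n) (x : EuclideanSpace ℝ (Fin n)) :
    HasFDerivAt (uM a b i0 i1) (DuM a b i0 i1 x) x :=
  prod_hasFDerivAt i0 i1 x (ch_hasDerivAt (x i1)) (TT_hasDerivAt a b (x i0))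

lemma uM_continuous (a b : F) (i0 i1 : Fin n) : Continuous (uM a b i0 i1) :=
  continuous_iff_continuousAt.mpr fun x => (uM_hasFDerivAt a b i0 i1 x).continuousAt

lemma DuM_continuous (a b : F) (i0 i1 : Fin n) : Continuous (DuM a b i0 i1) := by
  unfold DuM
  have c0 : Continuous fun x : EuclideanSpace ℝ (Fin n) => x i0 := by fun_prop
  have c1 : Continuous fun x : EuclideanSpace ℝ (Fin n) => x i1 := by fun_prop
  have k1 : Continuous fun x : EuclideanSpace ℝ (Fin n) => ch (x i1) • TN a b (x i0) :=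
    (ch_continuous.comp c1).smul ((TN_contDiff a b).continuous.comp c0)
  have k2 : Continuous fun x : EuclideanSpace ℝ (Fin n) => sh (x i1) • TT a b (x i0) :=
    (sh_continuous.comp c1).smul ((TT_contDiff a b).continuous.comp c0)
  exact ((ContinuousLinearMap.smulRightL ℝ (EuclideanSpace ℝ (Fin n)) F
      (EuclideanSpace.proj i0)).continuous.comp k1).add
    ((ContinuousLinearMap.smulRightL ℝ (EuclideanSpace ℝ (Fin n)) F
      (EuclideanSpace.proj i1)).continuous.comp k2)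

/-- smoothing of the positive part -/
noncomputable def sE (k : ℕ) (y : ℝ) : ℝ := (y + Real.sqrt (y^2 + (1/((k:ℝ)+1))^2))/2

lemma sE_pos_arg (k : ℕ) (y : ℝ) : 0 < y^2 + (1/((k:ℝ)+1))^2 := by positivity

lemma sE_contDiff (k : ℕ) : ContDiff ℝ ∞ (sE k) := by
  unfold sE
  apply ContDiff.div_const
  apply contDiff_id.add
  apply ContDiff.sqrt
  · fun_prop
  · intro y; exact (sE_pos_arg k y).ne'

/-- derivative of the smoothing -/
noncomputable def sE' (k : ℕ) (y : ℝ) : ℝ := (1 + y/Real.sqrt (y^2 + (1/((k:ℝ)+1))^2))/2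

lemma sE_hasDerivAt (k : ℕ) (y : ℝ) : HasDerivAt (sE k) (sE' k y) y := by
  unfold sE sE'
  have h1 : HasDerivAt (fun y : ℝ => y^2 + (1/((k:ℝ)+1))^2) (2*y) y := by
    simpa using (hasDerivAt_pow 2 y).add_const ((1/((k:ℝ)+1))^2)
  have h2 := h1.sqrt (sE_pos_arg k y).ne'
  have h3 := ((hasDerivAt_id' y).add h2).div_const 2
  refine h3.congr_deriv ?_
  have := Real.sqrt_pos.mpr (sE_pos_arg k y)
  field_simp

lemma sE'_abs (k : ℕ) (y : ℝ) : |sE' k y| ≤ 1 := by
  unfold sE'
  have hp := Real.sqrt_pos.mpr (sE_pos_arg k y)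
  have h1 : |y| ≤ Real.sqrt (y^2 + (1/((k:ℝ)+1))^2) := by
    apply Real.abs_le_sqrt; nlinarith [sq_nonneg (1/((k:ℝ)+1))]
  have h2 : |y/Real.sqrt (y^2 + (1/((k:ℝ)+1))^2)| ≤ 1 := by
    rw [abs_div, abs_of_pos hp, div_le_one hp]; exact h1
  rw [abs_le] at h2 ⊢
  constructor <;> linarith [h2.1, h2.2]

lemma sqrt_tendsto (y : ℝ) :
    Tendsto (fun k : ℕ => Real.sqrt (y^2 + (1/((k:ℝ)+1))^2)) atTop (𝓝 |y|) := by
  have h1 : Tendsto (fun k : ℕ => (1/((k:ℝ)+1))) atTop (𝓝 0) :=
    tendsto_one_div_add_atTop_nhds_zero_nat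
  have h2 : Tendsto (fun k : ℕ => y^2 + (1/((k:ℝ)+1))^2) atTop (𝓝 (y^2 + 0^2)) :=
    tendsto_const_nhds.add (h1.pow 2)
  have h3 := h2.sqrt
  simpa [Real.sqrt_sq_eq_abs] using h3

lemma sE_tendsto (y : ℝ) : Tendsto (fun k => sE k y) atTop (𝓝 (max y 0)) := by
  unfold sE
  have h := ((tendsto_const_nhds (x := y)).add (sqrt_tendsto y)).div_const 2
  have e : (y + |y|)/2 = max y 0 := by
    rcases le_total y 0 with hy | hy
    · rw [abs_of_nonpos hy, max_eq_right hy]; ring
    · rw [abs_of_nonneg hy, max_eq_left hy]; ring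
  rwa [e] at h

lemma sE'_tendsto_pos {y : ℝ} (hy : 0 < y) : Tendsto (fun k => sE' k y) atTop (𝓝 1) := by
  unfold sE'
  have h := (((tendsto_const_nhds (x := y)).div (sqrt_tendsto y) (abs_pos.mpr hy.ne').ne').const_add
    1).div_const 2
  have e : (1 + y/|y|)/2 = 1 := by rw [abs_of_pos hy, div_self hy.ne']; norm_num
  rwa [e] at h

lemma sE'_tendsto_neg {y : ℝ} (hy : y < 0) : Tendsto (fun k => sE' k y) atTop (𝓝 0) := by
  unfold sE'
  have h := (((tendsto_const_nhds (x := y)).div (sqrt_tendsto y) (abs_pos.mpr hy.ne).ne').const_add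
    1).div_const 2
  have e : (1 + y/|y|)/2 = 0 := by
    rw [abs_of_neg hy, div_neg, div_self hy.ne]; norm_num
  rwa [e] at h

lemma sE_abs_le (k : ℕ) {y : ℝ} (hy : |y| ≤ 1) : |sE k y| ≤ 2 := by
  unfold sE
  have h1 : Real.sqrt (y^2 + (1/((k:ℝ)+1))^2) ≤ 2 := by
    rw [Real.sqrt_le_left (by norm_num)]
    have h2 : (1/((k:ℝ)+1)) ≤ 1 := by
      rw [div_le_one (by positivity)]; linarith [Nat.cast_nonneg (α := ℝ) k]
    have h3 : 0 ≤ (1/((k:ℝ)+1)) := by positivity
    have h4 : y^2 ≤ 1 := by rw [← sq_abs]; nlinarith [abs_nonneg y]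
    nlinarith
  have h0 := Real.sqrt_nonneg (y^2 + (1/((k:ℝ)+1))^2)
  rw [abs_le] at *
  constructor <;> linarith [hy.1, hy.2]

end Pool.Agent.H507R3.CM
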