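import Mathlib

/-!
# Weak derivatives: shift formula, a Poincaré inequality and vanishing on level sets
-/

set_option autoImplicit false
open MeasureTheory Set Filter Topology
open scoped ContDiff

namespace Pool.Agent.H507R3.CM

variable {E : Type*} [NormedAddCommGroup E] [InnerProductSpace ℝ E] [FiniteDimensional ℝ E]
  [MeasurableSpace E] [BorelSpace E]
variable {F : Type*} [NormedAddCommGroup F] [InnerProductSpace ℝ F] [FiniteDimensional ℝ F]

/-- At almost every point of a set on which `f` vanishes the derivative of `f` vanishes. -/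
lemma deriv_zero_ae {f k : ℝ → F} {s : Set ℝ} (hf : ∀ x ∈ s, f x = 0) :
    ∀ᵐ x : ℝ, x ∈ s → HasDerivAt f (k x) x → k x = 0 := by
  filter_upwards [(countable_setOfPred_isolated_right_within (s := s)).ae_notMem volume]
    with x hx hxs hd
  have hne : (𝓝[s ∩ Ioi x] x).NeBot := by
    rw [neBot_iff]
    intro h
    exact hx ⟨hxs, h⟩
  have h1 : HasDerivWithinAt f (k x) (s ∩ Ioi x) x := hd.hasDerivWithinAt
  rw [hasDerivWithinAt_iff_tendsto_slope] at h1
  have hsd : (s ∩ Ioi x) \ {x} = s ∩ Ioi x := by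
    ext y; constructor
    · intro h; exact h.1
    · intro h; exact ⟨h, fun hy => lt_irrefl x (by have := h.2; rw [mem_singleton_iff.mp hy] at this; exact this)⟩
  rw [hsd] at h1
  have h2 : Tendsto (slope f x) (𝓝[s ∩ Ioi x] x) (𝓝 0) := by
    apply tendsto_const_nhds.congr'
    filter_upwards [self_mem_nhdsWithin] with y hy
    rw [slope, hf y hy.1, hf x hxs]; simp
  exact tendsto_nhds_unique h1 h2

/-- The shift formula for weak derivatives. -/
lemma shift_formula {w g : E → F} {e : E} (hw : Integrable w) (hg : Integrable g)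
    (hweak : ∀ φ : E → ℝ, ContDiff ℝ ∞ φ → HasCompactSupport φ →
      ∫ x, fderiv ℝ φ x e • w x = - ∫ x, φ x • g x)
    {ψ : E → ℝ} (hψ : ContDiff ℝ ∞ ψ) (hs : HasCompactSupport ψ) :
    ∫ x, ψ x • w x = (∫ x, ψ (x + e) • w x) + ∫ s in (0:ℝ)..1, ∫ x, ψ (x + s • e) • g x := by
  have hfc : Continuous (fun x => fderiv ℝ ψ x e) :=
    (hψ.continuous_fderiv (by norm_num)).clm_apply continuous_const
  have hfcs : HasCompactSupport (fun x => fderiv ℝ ψ x e) := hs.fderiv_apply ℝ e
  obtain ⟨C, hC⟩ := hfc.bounded_above_of_compact_support hfcs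
  have htest : ∀ s : ℝ, ∫ x, fderiv ℝ ψ (x + s • e) e • w x = - ∫ x, ψ (x + s • e) • g x := by
    intro s
    have h1 : ContDiff ℝ ∞ (fun x => ψ (x + s • e)) := hψ.comp (contDiff_id.add contDiff_const)
    have h2 : HasCompactSupport (fun x => ψ (x + s • e)) :=
      hs.comp_homeomorph (Homeomorph.addRight (s • e))
    have h3 := hweak _ h1 h2
    simpa only [fderiv_comp_add_right] using h3
  have hftc : ∀ x, ψ x = ψ (x + e) - ∫ s in (0:ℝ)..1, fderiv ℝ ψ (x + s • e) e := by
    intro x
    have h1 : ∀ s ∈ uIcc (0:ℝ) 1, HasDerivAt (fun s : ℝ => ψ (x + s • e))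
        (fderiv ℝ ψ (x + s • e) e) s := by
      intro s _
      have h2 : HasDerivAt (fun s : ℝ => x + s • e) e s := by
        simpa using ((hasDerivAt_id s).smul_const e).const_add x
      exact ((hψ.differentiable (by norm_num)).differentiableAt.hasFDerivAt).comp_hasDerivAt s h2
    have h3 : IntervalIntegrable (fun s : ℝ => fderiv ℝ ψ (x + s • e) e) volume 0 1 := by
      apply Continuous.intervalIntegrable
      exact hfc.comp (by fun_prop)
    have h4 := intervalIntegral.integral_eq_sub_of_hasDerivAt h1 h3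
    rw [h4]; simp
  have hi1 : Integrable (fun x => ψ (x + e) • w x) := by
    obtain ⟨C2, hC2⟩ := hψ.continuous.bounded_above_of_compact_support hs
    refine hw.bdd_smul C2 ?_ ?_
    · exact (hψ.continuous.comp (continuous_id.add continuous_const)).aestronglyMeasurable
    · exact Filter.Eventually.of_forall fun x => hC2 _
  have hprod : Integrable (fun p : E × ℝ => fderiv ℝ ψ (p.1 + p.2 • e) e • w p.1)
      ((volume : Measure E).prod (volume.restrict (Ioc (0:ℝ) 1))) := by
    have h1 : Integrable (fun p : E × ℝ => w p.1)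
        ((volume : Measure E).prod (volume.restrict (Ioc (0:ℝ) 1))) := hw.comp_fst _
    refine h1.bdd_smul C ?_ ?_
    · exact (hfc.comp (by fun_prop : Continuous fun p : E × ℝ => p.1 + p.2 • e)).aestronglyMeasurable
    · exact Filter.Eventually.of_forall fun p => hC _
  have hI : ∫ x, (∫ s in (0:ℝ)..1, fderiv ℝ ψ (x + s • e) e) • w x
      = ∫ s in (0:ℝ)..1, ∫ x, fderiv ℝ ψ (x + s • e) e • w x := by
    rw [intervalIntegral.integral_of_le zero_le_one]
    rw [← integral_integral_swap hprod]
    congr 1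
    ext x
    rw [integral_smul_const, intervalIntegral.integral_of_le zero_le_one]
  have hi2 : Integrable (fun x => (∫ s in (0:ℝ)..1, fderiv ℝ ψ (x + s • e) e) • w x) := by
    have := hprod.integral_prod_left
    refine this.congr (Filter.Eventually.of_forall fun x => ?_)
    simp only
    rw [integral_smul_const, intervalIntegral.integral_of_le zero_le_one]
  calc ∫ x, ψ x • w x
      = ∫ x, (ψ (x + e) • w x - (∫ s in (0:ℝ)..1, fderiv ℝ ψ (x + s • e) e) • w x) := by
        congr 1; ext x; rw [← sub_smul, ← hftc x]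
    _ = (∫ x, ψ (x + e) • w x) - ∫ s in (0:ℝ)..1, ∫ x, fderiv ℝ ψ (x + s • e) e • w x := by
        rw [integral_sub hi1 hi2, hI]
    _ = (∫ x, ψ (x + e) • w x) + ∫ s in (0:ℝ)..1, ∫ x, ψ (x + s • e) • g x := by
        simp only [htest]
        rw [intervalIntegral.integral_neg, sub_neg_eq_add]

/-- The translation average. -/
noncomputable def Av (e : E) (g : E → F) (q : E) : F := ∫ s in Ioc (0:ℝ) 1, g (q - s • e)

lemma shift_prod_integrable {G : Type*} [NormedAddCommGroup G] [NormedSpace ℝ G]
    {e : E} {g : E → G} (hgm : StronglyMeasurable g)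
    (hg : Integrable g) : Integrable (fun p : E × ℝ => g (p.1 - p.2 • e))
      ((volume : Measure E).prod (volume.restrict (Ioc (0:ℝ) 1))) := by
  have hm : StronglyMeasurable (fun p : E × ℝ => g (p.1 - p.2 • e)) :=
    hgm.comp_measurable (by fun_prop)
  rw [integrable_prod_iff' hm.aestronglyMeasurable]
  refine ⟨Filter.Eventually.of_forall fun s => hg.comp_sub_right (s • e), ?_⟩
  have : (fun s : ℝ => ∫ x : E, ‖g (x - s • e)‖) = fun _ => ∫ x : E, ‖g x‖ := by
    funext s
    exact integral_sub_right_eq_self (fun x => ‖g x‖) (s • e)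
  simp only [this]
  exact integrable_const _

lemma Av_stronglyMeasurable {e : E} {g : E → F} (hgm : StronglyMeasurable g) :
    StronglyMeasurable (Av e g) := by
  have hm : StronglyMeasurable (fun p : E × ℝ => g (p.1 - p.2 • e)) :=
    hgm.comp_measurable (by fun_prop)
  exact hm.integral_prod_right

lemma Av_integrable {e : E} {g : E → F} (hgm : StronglyMeasurable g) (hg : Integrable g) :
    Integrable (Av e g) := (shift_prod_integrable hgm hg).integral_prod_left

/-- If `w` and `g` live in `Ω` and `Ω + e` misses `Ω`, then `w` is the translation average of its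
weak derivative. -/
lemma eq_Av {w g : E → F} {e : E} {Ω : Set E} (hΩ : IsOpen Ω) (hw : Integrable w)
    (hgm : StronglyMeasurable g) (hg : Integrable g)
    (hweak : ∀ φ : E → ℝ, ContDiff ℝ ∞ φ → HasCompactSupport φ →
      ∫ x, fderiv ℝ φ x e • w x = - ∫ x, φ x • g x)
    (hdis : ∀ x, x + e ∈ Ω → w x = 0) :
    ∀ᵐ x : E, x ∈ Ω → w x = Av e g x := by
  have hAi := Av_integrable (e := e) hgm hg
  have h := hΩ.ae_eq_zero_of_integral_contDiff_smul_eq_zero (μ := (volume : Measure E))
    (f := fun x => w x - Av e g x)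
    ((hw.sub hAi).locallyIntegrable.locallyIntegrableOn Ω) ?_
  · filter_upwards [h] with x hx hxΩ
    exact sub_eq_zero.mp (hx hxΩ)
  intro ψ hψ hs hsub
  obtain ⟨C2, hC2⟩ := hψ.continuous.bounded_above_of_compact_support hs
  have h1 := shift_formula hw hg hweak hψ hs
  have h2 : ∫ x, ψ (x + e) • w x = 0 := by
    rw [← integral_zero E F]
    congr 1; ext x
    by_cases hx : x + e ∈ Ω
    · rw [hdis x hx, smul_zero]
    · have : ψ (x + e) = 0 := by
        by_contra hne
        exact hx (hsub (subset_tsupport ψ hne))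
      rw [this, zero_smul]
  have h3 : ∫ s in (0:ℝ)..1, ∫ x, ψ (x + s • e) • g x = ∫ x, ψ x • Av e g x := by
    have e1 : ∀ s : ℝ, ∫ x, ψ (x + s • e) • g x = ∫ x, ψ x • g (x - s • e) := by
      intro s
      have := integral_sub_right_eq_self (μ := (volume : Measure E))
        (fun x => ψ (x + s • e) • g x) (s • e)
      rw [← this]
      congr 1; ext x; simp
    simp only [e1]
    rw [intervalIntegral.integral_of_le zero_le_one]
    have hp : Integrable (fun p : E × ℝ => ψ p.1 • g (p.1 - p.2 • e))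
        ((volume : Measure E).prod (volume.restrict (Ioc (0:ℝ) 1))) := by
      refine (shift_prod_integrable hgm hg).bdd_smul C2 ?_ ?_
      · exact (hψ.continuous.comp continuous_fst).aestronglyMeasurable
      · exact Filter.Eventually.of_forall fun p => hC2 _
    rw [← integral_integral_swap hp]
    congr 1; ext x
    rw [integral_smul]; rfl
  have hi1 : Integrable (fun x => ψ x • w x) :=
    hw.bdd_smul C2 hψ.continuous.aestronglyMeasurable
      (Filter.Eventually.of_forall fun x => hC2 _)
  have hi2 : Integrable (fun x => ψ x • Av e g x) :=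
    hAi.bdd_smul C2 hψ.continuous.aestronglyMeasurable
      (Filter.Eventually.of_forall fun x => hC2 _)
  simp only [smul_sub]
  rw [integral_sub hi1 hi2, h1, h2, h3]; simp

/-- Poincaré inequality. -/
lemma poincare {w g : E → F} {e : E} {Ω : Set E} (hΩ : IsOpen Ω)
    (hgm : StronglyMeasurable g) (hg2 : Integrable (fun x => ‖g x‖^2)) (hg : Integrable g)
    (heq : ∀ᵐ x : E, x ∈ Ω → w x = Av e g x) :
    ∫ x in Ω, ‖w x‖^2 ≤ ∫ x, ‖g x‖^2 := by
  have hm2 : StronglyMeasurable (fun x => ‖g x‖^2) := hgm.norm.pow 2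
  have hp1 := shift_prod_integrable (e := e) hgm hg
  have hp2 := shift_prod_integrable (e := e) hm2 hg2
  have hJ : ∀ᵐ q : E, ‖Av e g q‖^2 ≤ ∫ s in Ioc (0:ℝ) 1, ‖g (q - s • e)‖^2 := by
    filter_upwards [hp1.prod_right_ae, hp2.prod_right_ae] with q h1 h2
    have hvol : (volume.restrict (Ioc (0:ℝ) 1)).real univ = 1 := by simp
    set c := ∫ s in Ioc (0:ℝ) 1, ‖g (q - s • e)‖ with hc
    have h0 : 0 ≤ ∫ s in Ioc (0:ℝ) 1, (‖g (q - s • e)‖ - c)^2 :=
      integral_nonneg fun s => sq_nonneg _
    have h3 : ∫ s in Ioc (0:ℝ) 1, (‖g (q - s • e)‖ - c)^2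
        = (∫ s in Ioc (0:ℝ) 1, ‖g (q - s • e)‖^2) - c^2 := by
      have : (fun s : ℝ => (‖g (q - s • e)‖ - c)^2)
          = fun s => ‖g (q - s • e)‖^2 - 2*c*‖g (q - s • e)‖ + c^2 := by
        funext s; ring
      have i1 : Integrable (fun s : ℝ => 2*c*‖g (q - s • e)‖) (volume.restrict (Ioc (0:ℝ) 1)) :=
        h1.norm.const_mul (2*c)
      have i2 : Integrable (fun s : ℝ => ‖g (q - s • e)‖^2 - 2*c*‖g (q - s • e)‖)
        (volume.restrict (Ioc (0:ℝ) 1)) := h2.sub i1
      have i3 : Integrable (fun _ : ℝ => c^2) (volume.restrict (Ioc (0:ℝ) 1)) := integrable_const _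
      rw [this, integral_add i2 i3, integral_sub h2 i1, integral_const_mul, integral_const, hvol,
        ← hc]
      simp; ring
    have h4 : ‖Av e g q‖ ≤ c := norm_integral_le_integral_norm _
    have h5 : ‖Av e g q‖^2 ≤ c^2 := by
      apply pow_le_pow_left₀ (norm_nonneg _) h4
    linarith
  have hi2 : Integrable (fun q : E => ∫ s in Ioc (0:ℝ) 1, ‖g (q - s • e)‖^2) :=
    hp2.integral_prod_left
  calc ∫ x in Ω, ‖w x‖^2 ≤ ∫ q in Ω, ∫ s in Ioc (0:ℝ) 1, ‖g (q - s • e)‖^2 := by
        apply integral_mono_of_nonneg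
        · exact Filter.Eventually.of_forall fun x => sq_nonneg _
        · exact hi2.integrableOn
        · rw [Filter.EventuallyLE, ae_restrict_iff' hΩ.measurableSet]
          filter_upwards [hJ, heq] with q h1 h2 hq
          rw [h2 hq]; exact h1
    _ ≤ ∫ q : E, ∫ s in Ioc (0:ℝ) 1, ‖g (q - s • e)‖^2 := by
        apply setIntegral_le_integral hi2
        exact Filter.Eventually.of_forall fun q => integral_nonneg fun s => sq_nonneg _
    _ = ∫ s in Ioc (0:ℝ) 1, ∫ q : E, ‖g (q - s • e)‖^2 := integral_integral_swap hp2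
    _ = ∫ x, ‖g x‖^2 := by
        have : ∀ s : ℝ, ∫ q : E, ‖g (q - s • e)‖^2 = ∫ x, ‖g x‖^2 := fun s =>
          integral_sub_right_eq_self (fun x => ‖g x‖^2) (s • e)
        simp only [this]
        simp

end Pool.Agent.H507R3.CM
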