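import Mathlib

/-!
The Laplacian of `t (a |y|² + b |y|⁴) + e(t)` in the variables `(t, y)`, and an elementary inequality.
-/

set_option autoImplicit false

namespace Pool.Agent.H507R3.Hopf

open Set

/-- The space `ℝ^m` of the variable `y`. -/
abbrev Y (m : ℕ) : Type := EuclideanSpace ℝ (Fin m)

/-- The derivative in the variable `t`. -/
noncomputable def dt {m : ℕ} (w : ℝ × Y m → ℝ) (p : ℝ × Y m) : ℝ :=
  deriv (fun s : ℝ => w (s, p.2)) p.1

/-- The derivative in the variable `y_j`. -/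
noncomputable def dy {m : ℕ} (j : Fin m) (w : ℝ × Y m → ℝ) (p : ℝ × Y m) : ℝ :=
  deriv (fun s : ℝ => w (p.1, p.2 + s • EuclideanSpace.single j (1 : ℝ))) 0

/-- The Laplacian in all variables `(t, y)`. -/
noncomputable def lap {m : ℕ} (w : ℝ × Y m → ℝ) (p : ℝ × Y m) : ℝ :=
  dt (dt w) p + ∑ j, dy j (dy j w) p

/-- The model function. -/
noncomputable def mf {m : ℕ} (a b : ℝ) (e : ℝ → ℝ) (p : ℝ × Y m) : ℝ :=
  p.1 * (a * ‖p.2‖ ^ 2 + b * ‖p.2‖ ^ 4) + e p.1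

variable {m : ℕ}

lemma mf_contDiff (a b : ℝ) {e : ℝ → ℝ} (he : ContDiff ℝ (⊤ : ℕ∞) e) :
    ContDiff ℝ (⊤ : ℕ∞) (mf (m := m) a b e) := by
  have h2 : ContDiff ℝ (⊤ : ℕ∞) (fun p : ℝ × Y m => ‖p.2‖ ^ 2) := contDiff_snd.norm_sq ℝ
  have h4 : ContDiff ℝ (⊤ : ℕ∞) (fun p : ℝ × Y m => ‖p.2‖ ^ 4) := by
    have : (fun p : ℝ × Y m => ‖p.2‖ ^ 4) = fun p => (‖p.2‖ ^ 2) ^ 2 := by
      funext p; ring
    rw [this]
    exact h2.pow 2
  exact (contDiff_fst.mul ((contDiff_const.mul h2).add (contDiff_const.mul h4))).add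
    (he.comp contDiff_fst)

lemma dt_mf (a b : ℝ) {e e' : ℝ → ℝ} (he : ∀ t, HasDerivAt e (e' t) t) :
    dt (mf (m := m) a b e) = fun p => a * ‖p.2‖ ^ 2 + b * ‖p.2‖ ^ 4 + e' p.1 := by
  funext p
  have h : HasDerivAt (fun s : ℝ => s * (a * ‖p.2‖ ^ 2 + b * ‖p.2‖ ^ 4) + e s)
      (1 * (a * ‖p.2‖ ^ 2 + b * ‖p.2‖ ^ 4) + e' p.1) p.1 :=
    ((hasDerivAt_id' p.1).mul_const (a * ‖p.2‖ ^ 2 + b * ‖p.2‖ ^ 4)).add (he p.1)
  have h' : deriv (fun s : ℝ => mf a b e (s, p.2)) p.1 = _ := h.deriv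
  rw [dt, h', one_mul]

lemma dt_dt_mf (a b : ℝ) {e e' e'' : ℝ → ℝ} (he : ∀ t, HasDerivAt e (e' t) t)
    (he' : ∀ t, HasDerivAt e' (e'' t) t) (p : ℝ × Y m) :
    dt (dt (mf (m := m) a b e)) p = e'' p.1 := by
  rw [dt_mf a b he]
  have h : HasDerivAt (fun s : ℝ => a * ‖p.2‖ ^ 2 + b * ‖p.2‖ ^ 4 + e' s) (e'' p.1) p.1 :=
    (he' p.1).const_add _
  exact h.deriv

lemma norm_line (y : Y m) (j : Fin m) (s : ℝ) :
    ‖y + s • EuclideanSpace.single j (1 : ℝ)‖ ^ 2 = ‖y‖ ^ 2 + 2 * y j * s + s ^ 2 := by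
  rw [norm_add_sq_real, inner_smul_right, EuclideanSpace.inner_single_right, norm_smul]
  simp
  ring

lemma hasDerivAt_sq_line (y : Y m) (j : Fin m) (s : ℝ) :
    HasDerivAt (fun s : ℝ => ‖y + s • EuclideanSpace.single j (1 : ℝ)‖ ^ 2) (2 * y j + 2 * s) s := by
  simp_rw [norm_line]
  have h := (((hasDerivAt_id s).const_mul (2 * y j)).const_add (‖y‖ ^ 2)).add
    ((hasDerivAt_id s).pow 2)
  refine h.congr_deriv ?_
  simp

lemma dy_mf (a b : ℝ) (e : ℝ → ℝ) (j : Fin m) :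
    dy j (mf (m := m) a b e) = fun p => p.1 * (2 * a * p.2 j + 4 * b * (‖p.2‖ ^ 2 * p.2 j)) := by
  funext p
  have h1 := hasDerivAt_sq_line p.2 j 0
  have h2 : HasDerivAt (fun s : ℝ => ‖p.2 + s • EuclideanSpace.single j (1 : ℝ)‖ ^ 4)
      (2 * ‖p.2‖ ^ 2 * (2 * p.2 j)) 0 := by
    have e4 : (fun s : ℝ => ‖p.2 + s • EuclideanSpace.single j (1 : ℝ)‖ ^ 4) =
        fun s : ℝ => (‖p.2 + s • EuclideanSpace.single j (1 : ℝ)‖ ^ 2) ^ 2 := by
      funext s; ring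
    rw [e4]
    refine (h1.pow 2).congr_deriv ?_
    simp
  have h3 := (((h1.const_mul a).add (h2.const_mul b)).const_mul p.1).add_const (e p.1)
  have h4 : HasDerivAt (fun s : ℝ => mf a b e (p.1, p.2 + s • EuclideanSpace.single j (1 : ℝ)))
      (p.1 * (a * (2 * p.2 j + 2 * 0) + b * (2 * ‖p.2‖ ^ 2 * (2 * p.2 j)))) 0 := h3
  rw [dy, h4.deriv]
  ring

lemma dy_dy_mf (a b : ℝ) (e : ℝ → ℝ) (j : Fin m) (p : ℝ × Y m) :
    dy j (dy j (mf (m := m) a b e)) p =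
      p.1 * (2 * a + 4 * b * ‖p.2‖ ^ 2 + 8 * b * (p.2 j) ^ 2) := by
  rw [dy_mf a b e j]
  have h1 := hasDerivAt_sq_line p.2 j 0
  have h2 : HasDerivAt (fun s : ℝ => (p.2 + s • EuclideanSpace.single j (1 : ℝ)) j) 1 0 := by
    have : (fun s : ℝ => (p.2 + s • EuclideanSpace.single j (1 : ℝ)) j) = fun s => p.2 j + s := by
      funext s; simp
    rw [this]
    exact (hasDerivAt_id 0).const_add _
  have h3 := (((h2.const_mul (2 * a)).add ((h1.mul h2).const_mul (4 * b))).const_mul p.1)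
  rw [dy]
  refine HasDerivAt.deriv (h3.congr_deriv ?_)
  simp only [zero_smul, add_zero, mul_zero, mul_one]
  ring

lemma lap_mf (a b : ℝ) {e e' e'' : ℝ → ℝ} (he : ∀ t, HasDerivAt e (e' t) t)
    (he' : ∀ t, HasDerivAt e' (e'' t) t) (p : ℝ × Y m) :
    lap (mf (m := m) a b e) p =
      p.1 * (2 * m * a + 4 * (m + 2) * b * ‖p.2‖ ^ 2) + e'' p.1 := by
  rw [lap, dt_dt_mf a b he he']
  simp_rw [dy_dy_mf a b e]
  rw [← Finset.mul_sum, Finset.sum_add_distrib, ← Finset.mul_sum, Finset.sum_const,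
    Finset.card_univ, Fintype.card_fin]
  have : ∑ i, (p.2 i) ^ 2 = ‖p.2‖ ^ 2 := by
    rw [EuclideanSpace.norm_sq_eq]
    simp
  rw [this, nsmul_eq_mul]
  ring

/-- The elementary inequality behind the comparison condition. -/
lemma key_ineq {e e'' : ℝ → ℝ} {M t s q : ℝ} (hM : 1 ≤ M) (ht : 0 < t) (hts : t ≤ s) (hs : s < 1)
    (hq : 0 ≤ q)
    (hmono : ∀ a b, 0 < a → a < 1 → 0 < b → b < 1 → a < b → e a < e b)
    (he0 : 0 < e t)
    (hhalf : 9 / 20 * s ≤ t → e (s / 3) ≤ e t / 2)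
    (h1 : e'' t ^ 2 ≤ 20 * t * e t) (h2 : e'' t ≤ t / 10)
    (heq : t * q + e t = 1 / 2 * (s * (q + q ^ 2)) + e (s / 3)) :
    2 * M * t + e'' t ≤ s * (M + 2 * (M + 2) * q) := by
  have hs0 : 0 < s := lt_of_lt_of_le ht hts
  -- `t ≤ s (1 + q) / 2`
  have hE : 0 ≤ s * (1 + q) / 2 - t := by
    by_contra hcon
    push Not at hcon
    have h3 : s / 3 < t := by nlinarith
    have h4 : e (s / 3) < e t := hmono _ _ (by positivity) (by linarith) ht (by linarith) h3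
    have h5 : (s * (1 + q) / 2 - t) * q ≤ 0 := by nlinarith
    nlinarith
  set F := s * (1 + q) / 2 - t with hF
  have hFq : F * q = e t - e (s / 3) := by rw [hF]; linarith
  -- it suffices to treat `M = 1`
  have hred : 2 * F + 5 * (s * q) ≤ s * (M + 2 * (M + 2) * q) - 2 * M * t := by
    have : s * (M + 2 * (M + 2) * q) - 2 * M * t = 2 * M * F + (M + 4) * (s * q) := by
      rw [hF]; ring
    rw [this]
    have h6 : 0 ≤ s * q := by positivity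
    nlinarith
  have hmain : e'' t ≤ 2 * F + 5 * (s * q) := by
    by_cases hc : t ≤ 9 / 20 * s
    · have : s / 20 ≤ F := by rw [hF]; nlinarith
      have h6 : 0 ≤ s * q := by positivity
      nlinarith
    · push Not at hc
      have h3 := hhalf hc.le
      have h4 : e t / 2 ≤ F * q := by rw [hFq]; linarith
      have h6 : 0 ≤ s * q := by positivity
      have h5 : e'' t ^ 2 ≤ (2 * F + 5 * (s * q)) ^ 2 := by
        calc e'' t ^ 2 ≤ 20 * t * e t := h1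
          _ ≤ 20 * s * e t := by nlinarith
          _ ≤ 40 * s * (F * q) := by nlinarith
          _ = 4 * (2 * F) * (5 * (s * q)) := by ring
          _ ≤ (2 * F + 5 * (s * q)) ^ 2 := by nlinarith [sq_nonneg (2 * F - 5 * (s * q))]
      exact le_of_sq_le_sq_of_nonneg' h5 (by positivity)
  linarith
where
  le_of_sq_le_sq_of_nonneg' {a b : ℝ} (h : a ^ 2 ≤ b ^ 2) (hb : 0 ≤ b) : a ≤ b :=
    abs_le_of_sq_le_sq' h hb |>.2

end Pool.Agent.H507R3.Hopf
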