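import Mathlib

/-!
# A Cantor staircase and the associated periodic data

`Cf` is the Cantor function on the whole line, `aF` its 1-periodic up-and-down version and `wF` a
1-Lipschitz, 1-periodic width function, positive off a null set, such that `aF` is constant on
`(x - wF x, x + wF x)`.
-/

set_option autoImplicit false
open MeasureTheory Set Filter Topology

namespace Pool.Agent.H507R3.Lens

/-- Approximants of the Cantor function. -/
noncomputable def Cn : ℕ → ℝ → ℝ
  | 0 => fun x => max 0 (min x 1)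
  | (n+1) => fun x => (Cn n (3*x) + Cn n (3*x-2))/2

lemma Cn_zero (x : ℝ) : Cn 0 x = max 0 (min x 1) := rfl
lemma Cn_succ (n : ℕ) (x : ℝ) : Cn (n+1) x = (Cn n (3*x) + Cn n (3*x-2))/2 := rfl

lemma Cn_nonpos (n : ℕ) : ∀ x : ℝ, x ≤ 0 → Cn n x = 0 := by
  induction n with
  | zero => intro x hx; rw [Cn_zero]; apply max_eq_left; exact (min_le_left _ _).trans hx
  | succ n ih =>
    intro x hx
    rw [Cn_succ, ih _ (by linarith), ih _ (by linarith)]; norm_num

lemma Cn_one_le (n : ℕ) : ∀ x : ℝ, 1 ≤ x → Cn n x = 1 := by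
  induction n with
  | zero => intro x hx; rw [Cn_zero, min_eq_right hx]; norm_num
  | succ n ih =>
    intro x hx
    rw [Cn_succ, ih _ (by linarith), ih _ (by linarith)]; norm_num

lemma Cn_mem (n : ℕ) : ∀ x : ℝ, 0 ≤ Cn n x ∧ Cn n x ≤ 1 := by
  induction n with
  | zero =>
    intro x; rw [Cn_zero]
    exact ⟨le_max_left _ _, max_le zero_le_one (min_le_right _ _)⟩
  | succ n ih =>
    intro x
    rw [Cn_succ]
    have h1 := ih (3*x)
    have h2 := ih (3*x-2)
    constructor <;> linarith [h1.1, h1.2, h2.1, h2.2]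

lemma Cn_lip (n : ℕ) : ∀ x y : ℝ, |Cn n x - Cn n y| ≤ 3^n*|x-y| := by
  induction n with
  | zero =>
    intro x y; rw [Cn_zero, Cn_zero, pow_zero, one_mul]
    have h1 := abs_max_sub_max_le_max (0:ℝ) (min x 1) 0 (min y 1)
    have h2 := abs_min_sub_min_le_max x 1 y 1
    have e1 : |(0:ℝ) - 0| = 0 := by simp
    have e2 : |(1:ℝ) - 1| = 0 := by simp
    rw [e1] at h1
    rw [e2] at h2
    have h3 : max (0:ℝ) |min x 1 - min y 1| = |min x 1 - min y 1| := max_eq_right (abs_nonneg _)
    have h4 : max |x - y| 0 = |x - y| := max_eq_left (abs_nonneg _)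
    rw [h3] at h1
    rw [h4] at h2
    exact h1.trans h2
  | succ n ih =>
    intro x y
    rw [Cn_succ, Cn_succ]
    have h1 := ih (3*x) (3*y)
    have h2 := ih (3*x-2) (3*y-2)
    have e1 : |3*x - 3*y| = 3*|x-y| := by
      rw [← mul_sub, abs_mul, abs_of_pos (by norm_num : (0:ℝ) < 3)]
    have e2 : |3*x - 2 - (3*y - 2)| = 3*|x-y| := by
      rw [← e1]; congr 1; ring
    rw [e1] at h1
    rw [e2] at h2
    have : (Cn n (3*x) + Cn n (3*x-2))/2 - (Cn n (3*y) + Cn n (3*y-2))/2
        = ((Cn n (3*x) - Cn n (3*y)) + (Cn n (3*x-2) - Cn n (3*y-2)))/2 := by ring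
    rw [this, abs_div, abs_of_pos (by norm_num : (0:ℝ) < 2)]
    have h3 := abs_add_le (Cn n (3*x) - Cn n (3*y)) (Cn n (3*x-2) - Cn n (3*y-2))
    rw [pow_succ]
    linarith

lemma Cn_succ_sub (n : ℕ) : ∀ x : ℝ, |Cn (n+1) x - Cn n x| ≤ 1 * (1/2)^n := by
  induction n with
  | zero =>
    intro x
    have h1 := Cn_mem 1 x
    have h2 := Cn_mem 0 x
    rw [pow_zero, mul_one, abs_le]
    constructor <;> simp only [zero_add] <;> linarith [h1.1, h1.2, h2.1, h2.2]
  | succ n ih =>
    intro x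
    rw [Cn_succ (n+1) x, Cn_succ n x]
    have key : (Cn (n+1) (3*x) + Cn (n+1) (3*x-2))/2 - (Cn n (3*x) + Cn n (3*x-2))/2
        = ((Cn (n+1) (3*x) - Cn n (3*x)) + (Cn (n+1) (3*x-2) - Cn n (3*x-2)))/2 := by ring
    rw [key, abs_div, abs_of_pos (by norm_num : (0:ℝ) < 2)]
    rcases le_total (3*x) 1 with hx | hx
    · have h0 : 3*x-2 ≤ 0 := by linarith
      rw [Cn_nonpos _ _ h0, Cn_nonpos _ _ h0, sub_zero, add_zero]
      have := ih (3*x)
      rw [pow_succ]; linarith
    · rw [Cn_one_le _ _ hx, Cn_one_le _ _ hx, sub_self, zero_add]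
      have := ih (3*x-2)
      rw [pow_succ]; linarith

lemma Cn_cauchy (x : ℝ) : CauchySeq (fun n => Cn n x) := by
  apply cauchySeq_of_le_geometric (1/2) 1 (by norm_num)
  intro n
  rw [Real.dist_eq, abs_sub_comm]
  exact Cn_succ_sub n x

/-- The Cantor function on the whole line. -/
noncomputable def Cf (x : ℝ) : ℝ := Classical.choose (cauchySeq_tendsto_of_complete (Cn_cauchy x))

lemma Cf_tendsto (x : ℝ) : Tendsto (fun n => Cn n x) atTop (𝓝 (Cf x)) :=
  Classical.choose_spec (cauchySeq_tendsto_of_complete (Cn_cauchy x))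

lemma Cf_approx (n : ℕ) (x : ℝ) : |Cn n x - Cf x| ≤ 2*(1/2)^n := by
  have := dist_le_of_le_geometric_of_tendsto (1/2) 1 (by norm_num)
    (fun n => by
      rw [Real.dist_eq, abs_sub_comm]
      exact Cn_succ_sub n x) (Cf_tendsto x) n
  rw [Real.dist_eq] at this
  calc |Cn n x - Cf x| ≤ 1 * (1/2)^n / (1 - 1/2) := this
    _ = 2*(1/2)^n := by ring

lemma Cf_nonpos (x : ℝ) (hx : x ≤ 0) : Cf x = 0 := by
  refine tendsto_nhds_unique (Cf_tendsto x) ?_
  simp only [Cn_nonpos _ x hx]
  exact tendsto_const_nhds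

lemma Cf_one_le (x : ℝ) (hx : 1 ≤ x) : Cf x = 1 := by
  refine tendsto_nhds_unique (Cf_tendsto x) ?_
  simp only [Cn_one_le _ x hx]
  exact tendsto_const_nhds

lemma Cf_mem (x : ℝ) : 0 ≤ Cf x ∧ Cf x ≤ 1 :=
  ⟨ge_of_tendsto' (Cf_tendsto x) fun n => (Cn_mem n x).1,
   le_of_tendsto' (Cf_tendsto x) fun n => (Cn_mem n x).2⟩

lemma Cf_eq (x : ℝ) : Cf x = (Cf (3*x) + Cf (3*x-2))/2 := by
  have h1 : Tendsto (fun n => Cn (n+1) x) atTop (𝓝 (Cf x)) :=
    (Cf_tendsto x).comp (tendsto_add_atTop_nat 1)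
  have h2 : Tendsto (fun n => (Cn n (3*x) + Cn n (3*x-2))/2) atTop
      (𝓝 ((Cf (3*x) + Cf (3*x-2))/2)) :=
    ((Cf_tendsto _).add (Cf_tendsto _)).div_const 2
  exact tendsto_nhds_unique h1 h2

lemma Cf_sub_le (n : ℕ) (x y : ℝ) : |Cf x - Cf y| ≤ 4*(1/2)^n + 3^n*|x-y| := by
  have h1 := Cf_approx n x
  have h2 := Cf_approx n y
  have h3 := Cn_lip n x y
  rw [abs_le] at *
  constructor <;> linarith [h1.1, h1.2, h2.1, h2.2, h3.1, h3.2]

/-- Hölder continuity. -/
lemma Cf_holder (x y : ℝ) : |Cf x - Cf y| ≤ 10*|x-y|^((1:ℝ)/4) := by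
  rcases eq_or_ne x y with rfl | hne
  · simp
  have hpos : 0 < |x - y| := abs_pos.mpr (sub_ne_zero.mpr hne)
  rcases le_or_gt |x-y| 1 with h1 | h1
  · obtain ⟨n, hn1, hn2⟩ := exists_nat_pow_near_of_lt_one hpos h1
      (by norm_num : (0:ℝ) < 1/6) (by norm_num)
    have hb := Cf_sub_le n x y
    have h3 : (3:ℝ)^n*|x-y| ≤ (1/2)^n := by
      calc (3:ℝ)^n*|x-y| ≤ 3^n*(1/6)^n := by gcongr
        _ = (1/2)^n := by rw [← mul_pow]; norm_num
    set r : ℝ := |x-y|^((1:ℝ)/4) with hr
    have hr0 : 0 ≤ r := Real.rpow_nonneg hpos.le _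
    have hr4 : r^4 = |x-y| := by
      rw [hr, ← Real.rpow_natCast, ← Real.rpow_mul hpos.le]; norm_num
    have h5 : ((1/2:ℝ)^(n+1))^4 < r^4 := by
      rw [hr4]
      calc ((1/2:ℝ)^(n+1))^4 = (1/16)^(n+1) := by
            rw [← pow_mul, mul_comm, pow_mul]; norm_num
        _ ≤ (1/6)^(n+1) := by gcongr; norm_num
        _ < |x-y| := hn1
    have h6 : (1/2:ℝ)^(n+1) < r := lt_of_pow_lt_pow_left₀ 4 hr0 h5
    rw [pow_succ] at h6
    linarith
  · have h2 := Cf_mem x
    have h3 := Cf_mem y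
    have h4 : (1:ℝ) ≤ |x-y|^((1:ℝ)/4) := Real.one_le_rpow h1.le (by norm_num)
    have h5 : |Cf x - Cf y| ≤ 1 := by
      rw [abs_le]; constructor <;> linarith [h2.1, h2.2, h3.1, h3.2]
    linarith

lemma Cf_continuous : Continuous Cf := by
  rw [continuous_iff_continuousAt]
  intro x
  rw [ContinuousAt, tendsto_iff_dist_tendsto_zero]
  have h : Tendsto (fun y : ℝ => 10*|y-x|^((1:ℝ)/4)) (𝓝 x) (𝓝 0) := by
    have : Continuous (fun y : ℝ => 10*|y-x|^((1:ℝ)/4)) := by
      apply Continuous.mul continuous_const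
      apply Continuous.rpow_const (by fun_prop)
      intro y; right; norm_num
    have h2 := this.tendsto x
    simpa using h2
  refine squeeze_zero (fun y => dist_nonneg) (fun y => ?_) h
  rw [Real.dist_eq]
  exact Cf_holder y x

/-- `Cf` is locally constant off `preCantorSet n`. -/
lemma Cf_locconst (n : ℕ) : ∀ x : ℝ, x ∉ preCantorSet n → ∀ᶠ y in 𝓝 x, Cf y = Cf x := by
  induction n with
  | zero =>
    intro x hx
    rw [preCantorSet_zero, mem_Icc, not_and_or, not_le, not_le] at hx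
    rcases hx with hx | hx
    · filter_upwards [eventually_lt_nhds hx] with y hy
      rw [Cf_nonpos _ hy.le, Cf_nonpos _ hx.le]
    · filter_upwards [eventually_gt_nhds hx] with y hy
      rw [Cf_one_le _ hy.le, Cf_one_le _ hx.le]
  | succ n ih =>
    intro x hx
    rw [preCantorSet_succ, mem_union, not_or] at hx
    have h1 : 3*x ∉ preCantorSet n := fun h => hx.1 ⟨3*x, h, by simp⟩
    have h2 : 3*x-2 ∉ preCantorSet n := fun h => hx.2 ⟨3*x-2, h, by simp⟩
    have c1 : Tendsto (fun y : ℝ => 3*y) (𝓝 x) (𝓝 (3*x)) :=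
      (continuous_const.mul continuous_id).tendsto x
    have c2 : Tendsto (fun y : ℝ => 3*y-2) (𝓝 x) (𝓝 (3*x-2)) :=
      ((continuous_const.mul continuous_id).sub continuous_const).tendsto x
    filter_upwards [c1.eventually (ih _ h1), c2.eventually (ih _ h2)] with y hy1 hy2
    rw [Cf_eq y, Cf_eq x, hy1, hy2]

lemma Cf_locconst' (x : ℝ) (hx : x ∉ cantorSet) : ∀ᶠ y in 𝓝 x, Cf y = Cf x := by
  rw [cantorSet, mem_iInter, not_forall] at hx
  obtain ⟨n, hn⟩ := hx
  exact Cf_locconst n x hn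

lemma Cf_const_ball (x y : ℝ) (h : |y - x| < Metric.infDist x cantorSet) : Cf y = Cf x := by
  have hball : ∀ z ∈ Metric.ball x (Metric.infDist x cantorSet), z ∉ cantorSet := by
    intro z hz hzc
    have := Metric.infDist_le_dist_of_mem (x := x) hzc
    rw [Metric.mem_ball, dist_comm] at hz
    linarith
  have hd : ∀ z ∈ Metric.ball x (Metric.infDist x cantorSet), HasDerivAt Cf 0 z := by
    intro z hz
    have := Cf_locconst' z (hball z hz)
    exact (hasDerivAt_const z (Cf z)).congr_of_eventuallyEq this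
  have hy : y ∈ Metric.ball x (Metric.infDist x cantorSet) := by
    rw [Metric.mem_ball, Real.dist_eq]; exact h
  have hx : x ∈ Metric.ball x (Metric.infDist x cantorSet) := by
    apply Metric.mem_ball_self
    exact lt_of_le_of_lt (abs_nonneg _) h
  exact Metric.isOpen_ball.is_const_of_deriv_eq_zero (convex_ball _ _).isPreconnected
    (fun z hz => (hd z hz).differentiableAt.differentiableWithinAt)
    (fun z hz => (hd z hz).deriv) hy hx

lemma volume_preCantorSet (n : ℕ) : volume (preCantorSet n) ≤ (ENNReal.ofReal (2/3))^n := by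
  induction n with
  | zero => simp
  | succ n ih =>
    rw [preCantorSet_succ]
    have e1 : (fun x : ℝ => x/3) '' preCantorSet n = (fun x : ℝ => (1/3:ℝ) • x) '' preCantorSet n := by
      apply image_congr'; intro x; simp only [smul_eq_mul]; ring
    have e2 : (fun x : ℝ => (2+x)/3) '' preCantorSet n
        = (fun x : ℝ => (2/3:ℝ) + x) '' ((fun x : ℝ => (1/3:ℝ) • x) '' preCantorSet n) := by
      rw [image_image]
      apply image_congr'; intro x; simp only [smul_eq_mul]; ring
    have v1 : volume ((fun x : ℝ => (1/3:ℝ) • x) '' preCantorSet n)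
        = ENNReal.ofReal (1/3) * volume (preCantorSet n) := by
      rw [image_smul, Measure.addHaar_smul]
      simp [abs_of_pos]
    calc volume ((fun x : ℝ => x/3) '' preCantorSet n ∪ (fun x : ℝ => (2+x)/3) '' preCantorSet n)
        ≤ volume ((fun x : ℝ => x/3) '' preCantorSet n)
          + volume ((fun x : ℝ => (2+x)/3) '' preCantorSet n) := measure_union_le _ _
      _ = ENNReal.ofReal (1/3) * volume (preCantorSet n)
          + ENNReal.ofReal (1/3) * volume (preCantorSet n) := by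
          rw [e1, e2, image_add_left, measure_preimage_add, v1]
      _ = ENNReal.ofReal (2/3) * volume (preCantorSet n) := by
          rw [← add_mul, ← ENNReal.ofReal_add (by norm_num) (by norm_num)]; norm_num
      _ ≤ ENNReal.ofReal (2/3) * (ENNReal.ofReal (2/3))^n := by gcongr
      _ = (ENNReal.ofReal (2/3))^(n+1) := by rw [pow_succ, mul_comm]

lemma volume_cantorSet : volume cantorSet = 0 := by
  have h : ∀ n, volume cantorSet ≤ (ENNReal.ofReal (2/3))^n := fun n =>
    (measure_mono (iInter_subset _ n)).trans (volume_preCantorSet n)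
  have h2 : Tendsto (fun n : ℕ => (ENNReal.ofReal (2/3))^n) atTop (𝓝 0) := by
    apply ENNReal.tendsto_pow_atTop_nhds_zero_of_lt_one
    rw [ENNReal.ofReal_lt_one]; norm_num
  exact le_antisymm (ge_of_tendsto' h2 h) bot_le

/-- `z x = 2 dist(x, ℤ)`. -/
noncomputable def zF (x : ℝ) : ℝ := 2*|x - round x|

lemma zF_eq_norm (x : ℝ) : zF x = 2*‖(x : UnitAddCircle)‖ := by
  rw [zF, UnitAddCircle.norm_eq]

lemma zF_add_one (x : ℝ) : zF (x+1) = zF x := by
  rw [zF, zF, round_add_one]; congr 2; push_cast; ring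

lemma zF_lip (x y : ℝ) : |zF x - zF y| ≤ 2*|x-y| := by
  rw [zF_eq_norm, zF_eq_norm, ← mul_sub, abs_mul, abs_of_pos (by norm_num : (0:ℝ) < 2)]
  have h1 := abs_norm_sub_norm_le (x : UnitAddCircle) (y : UnitAddCircle)
  have h2 : ‖(x : UnitAddCircle) - (y : UnitAddCircle)‖ ≤ |x-y| := by
    rw [← AddCircle.coe_sub]
    rw [UnitAddCircle.norm_eq]
    have h3 := round_le (x-y) 0
    simpa using h3
  linarith

lemma zF_mem (x : ℝ) : 0 ≤ zF x ∧ zF x ≤ 1 := by
  have := abs_sub_round x
  constructor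
  · unfold zF; positivity
  · unfold zF; linarith

/-- The periodic staircase. -/
noncomputable def aF (x : ℝ) : ℝ := Cf (zF x)

/-- The width function. -/
noncomputable def wF (x : ℝ) : ℝ := Metric.infDist (zF x) cantorSet / 2

lemma aF_add_one (x : ℝ) : aF (x+1) = aF x := by rw [aF, aF, zF_add_one]
lemma wF_add_one (x : ℝ) : wF (x+1) = wF x := by rw [wF, wF, zF_add_one]

lemma aF_holder (x y : ℝ) : |aF x - aF y| ≤ 20*|x-y|^((1:ℝ)/4) := by
  have h1 := Cf_holder (zF x) (zF y)
  have h2 : |zF x - zF y|^((1:ℝ)/4) ≤ (2*|x-y|)^((1:ℝ)/4) := by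
    apply Real.rpow_le_rpow (abs_nonneg _) (zF_lip x y) (by norm_num)
  have h3 : (2*|x-y|)^((1:ℝ)/4) = 2^((1:ℝ)/4) * |x-y|^((1:ℝ)/4) :=
    Real.mul_rpow (by norm_num) (abs_nonneg _)
  have h4 : (2:ℝ)^((1:ℝ)/4) ≤ 2 := by
    calc (2:ℝ)^((1:ℝ)/4) ≤ 2^(1:ℝ) := by
          apply Real.rpow_le_rpow_of_exponent_le (by norm_num) (by norm_num)
      _ = 2 := by simp
  have h5 : 0 ≤ |x-y|^((1:ℝ)/4) := Real.rpow_nonneg (abs_nonneg _) _
  unfold aF
  nlinarith [mul_le_mul_of_nonneg_right h4 h5]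

lemma zF_continuous : Continuous zF := by
  have : LipschitzWith 2 zF := LipschitzWith.of_dist_le_mul fun x y => by
    rw [Real.dist_eq, Real.dist_eq]; exact zF_lip x y
  exact this.continuous

lemma aF_continuous : Continuous aF := Cf_continuous.comp zF_continuous

lemma wF_continuous : Continuous wF :=
  ((Metric.continuous_infDist_pt _).comp zF_continuous).div_const 2

lemma wF_lip : LipschitzWith 1 wF := LipschitzWith.of_dist_le_mul fun x y => by
  rw [Real.dist_eq, Real.dist_eq, wF, wF]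
  have h1 : |Metric.infDist (zF x) cantorSet - Metric.infDist (zF y) cantorSet| ≤ |zF x - zF y| := by
    have := (Metric.lipschitz_infDist_pt cantorSet).dist_le_mul (zF x) (zF y)
    simpa [Real.dist_eq] using this
  have h2 := zF_lip x y
  rw [← sub_div, abs_div, abs_of_pos (by norm_num : (0:ℝ) < 2)]
  simp only [NNReal.coe_one, one_mul]
  linarith

lemma wF_nonneg (x : ℝ) : 0 ≤ wF x := by
  unfold wF; have := @Metric.infDist_nonneg _ _ (s := cantorSet) (x := zF x); linarith

lemma one_mem_cantorSet : (1:ℝ) ∈ cantorSet := by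
  rw [cantorSet, mem_iInter]
  intro n
  induction n with
  | zero => simp
  | succ n ih => rw [preCantorSet_succ]; right; exact ⟨1, ih, by norm_num⟩

lemma wF_le (x : ℝ) : wF x ≤ 1/4 := by
  have hz := zF_mem x
  have h0 := Metric.infDist_le_dist_of_mem (x := zF x) zero_mem_cantorSet
  have h1 := Metric.infDist_le_dist_of_mem (x := zF x) one_mem_cantorSet
  rw [Real.dist_eq] at h0 h1
  rw [sub_zero, abs_of_nonneg hz.1] at h0
  rw [abs_sub_comm, abs_of_nonneg (by linarith [hz.2])] at h1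
  unfold wF
  linarith

lemma aF_const (x y : ℝ) (h : |y - x| < wF x) : aF y = aF x := by
  unfold aF
  apply Cf_const_ball
  have := zF_lip y x
  unfold wF at h
  linarith

lemma wF_pos_ae : ∀ᵐ x : ℝ, 0 < wF x := by
  have hnull : volume {x : ℝ | ¬ 0 < wF x} = 0 := by
    have hsub : {x : ℝ | ¬ 0 < wF x} ⊆ ⋃ k : ℤ,
        ((fun x : ℝ => 2*(x - k)) ⁻¹' cantorSet ∪ (fun x : ℝ => -2*(x-k)) ⁻¹' cantorSet) := by
      intro x hx
      rw [Set.mem_ofPred_eq, not_lt] at hx
      have h0 : Metric.infDist (zF x) cantorSet = 0 := by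
        have := wF_nonneg x
        unfold wF at hx this
        linarith
      have hmem : zF x ∈ cantorSet :=
        (isClosed_cantorSet.mem_iff_infDist_zero ⟨0, zero_mem_cantorSet⟩).mpr h0
      rw [mem_iUnion]
      refine ⟨round x, ?_⟩
      unfold zF at hmem
      rcases abs_cases (x - round x) with ⟨he, _⟩ | ⟨he, _⟩
      · left; rw [he] at hmem; exact hmem
      · right; rw [he] at hmem
        show -2*(x - round x) ∈ cantorSet
        convert hmem using 1; ring
    apply measure_mono_null hsub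
    rw [measure_iUnion_null_iff]
    intro k
    apply measure_union_null
    · have : (fun x : ℝ => 2*(x-k)) ⁻¹' cantorSet
          = (fun x : ℝ => x + (-(k:ℝ))) ⁻¹' ((fun x : ℝ => 2*x) ⁻¹' cantorSet) := by
        ext x; simp [sub_eq_add_neg]
      rw [this, measure_preimage_add_right, Real.volume_preimage_mul_left (by norm_num),
        volume_cantorSet, mul_zero]
    · have : (fun x : ℝ => -2*(x-k)) ⁻¹' cantorSet
          = (fun x : ℝ => x + (-(k:ℝ))) ⁻¹' ((fun x : ℝ => -2*x) ⁻¹' cantorSet) := by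
        ext x; simp [sub_eq_add_neg]
      rw [this, measure_preimage_add_right, Real.volume_preimage_mul_left (by norm_num),
        volume_cantorSet, mul_zero]
  exact hnull

lemma aF_zero : aF 0 = 0 := by
  unfold aF zF; simp [Cf_nonpos]

lemma aF_half : aF (1/2) = 1 := by
  unfold aF zF
  apply Cf_one_le
  have : round (1/2:ℝ) = 1 := by
    rw [round_eq]; norm_num
  rw [this]; norm_num [abs_of_neg]

end Pool.Agent.H507R3.Lens
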