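import Pool.Agent.H507R3.LensCantor

/-!
# The averaging extension of the periodic staircase and its weak derivatives
-/

set_option autoImplicit false
open MeasureTheory Set Filter Topology

namespace Pool.Agent.H507R3.Lens

/-- Primitive of `aF`. -/
noncomputable def AF (x : ℝ) : ℝ := ∫ u in (0:ℝ)..x, aF u

lemma AF_hasDerivAt (x : ℝ) : HasDerivAt AF (aF x) x :=
  intervalIntegral.integral_hasDerivAt_right (aF_continuous.intervalIntegrable _ _)
    (aF_continuous.stronglyMeasurableAtFilter _ _) aF_continuous.continuousAt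

/-- The averaged extension. -/
noncomputable def FF (x y : ℝ) : ℝ := (1/2) * ∫ s in (-1:ℝ)..1, aF (x + y*s)
/-- Its `x`-derivative off `y = 0`. -/
noncomputable def Fx (x y : ℝ) : ℝ := (aF (x+y) - aF (x-y))/(2*y)
/-- Its `y`-derivative off `y = 0`. -/
noncomputable def Fy (x y : ℝ) : ℝ := ((aF (x+y)+aF (x-y))/2 - FF x y)/y

lemma FF_of_ne {x y : ℝ} (hy : y ≠ 0) : FF x y = (AF (x+y) - AF (x-y))/(2*y) := by
  unfold FF
  rw [intervalIntegral.integral_comp_add_mul (fun u => aF u) hy x]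
  have : ∫ u in (x + y*(-1))..(x+y*1), aF u = AF (x+y) - AF (x-y) := by
    unfold AF
    rw [intervalIntegral.integral_interval_sub_left (aF_continuous.intervalIntegrable _ _)
      (aF_continuous.intervalIntegrable _ _)]
    congr 1 <;> ring
  rw [this, smul_eq_mul]
  field_simp

lemma FF_zero (x : ℝ) : FF x 0 = aF x := by
  unfold FF; simp; ring

lemma FF_neg (x y : ℝ) : FF x (-y) = FF x y := by
  rcases eq_or_ne y 0 with rfl | hy
  · simp
  rw [FF_of_ne hy, FF_of_ne (neg_ne_zero.mpr hy)]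
  have e1 : x + -y = x - y := by ring
  have e2 : x - -y = x + y := by ring
  rw [e1, e2]
  field_simp
  ring

lemma FF_continuous : Continuous (Function.uncurry FF) := by
  unfold FF Function.uncurry
  apply Continuous.mul continuous_const
  apply intervalIntegral.continuous_parametric_intervalIntegral_of_continuous'
  have : Continuous (fun q : (ℝ × ℝ) × ℝ => q.1.1 + q.1.2 * q.2) := by fun_prop
  exact aF_continuous.comp this

lemma FF_hasDerivAt_x {x y : ℝ} (hy : y ≠ 0) : HasDerivAt (fun x => FF x y) (Fx x y) x := by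
  have h : (fun x => FF x y) = fun x => (AF (x+y) - AF (x-y))/(2*y) := by
    funext x; exact FF_of_ne hy
  rw [h]
  unfold Fx
  have h1 : HasDerivAt (fun x => AF (x+y)) (aF (x+y)) x := (AF_hasDerivAt (x+y)).comp_add_const x y
  have h2 : HasDerivAt (fun x => AF (x-y)) (aF (x-y)) x := (AF_hasDerivAt (x-y)).comp_sub_const x y
  exact (h1.sub h2).div_const _

lemma FF_hasDerivAt_y {x y : ℝ} (hy : y ≠ 0) : HasDerivAt (fun y => FF x y) (Fy x y) y := by
  have h : (fun y => FF x y) =ᶠ[𝓝 y] fun y => (AF (x+y) - AF (x-y))/(2*y) := by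
    filter_upwards [isOpen_ne.mem_nhds hy] with z hz
    exact FF_of_ne hz
  apply HasDerivAt.congr_of_eventuallyEq _ h
  have h1 : HasDerivAt (fun y => AF (x+y)) (aF (x+y)) y := (AF_hasDerivAt (x+y)).comp_const_add x y
  have h2 : HasDerivAt (fun y => AF (x-y)) (-aF (x-y)) y := (AF_hasDerivAt (x-y)).comp_const_sub x y
  have h3 : HasDerivAt (fun y : ℝ => 2*y) 2 y := by
    simpa using (hasDerivAt_id y).const_mul (2:ℝ)
  have h4 : HasDerivAt (fun y => (AF (x+y) - AF (x-y))/(2*y)) _ y :=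
    (h1.sub h2).div h3 (by positivity)
  refine h4.congr_deriv ?_
  unfold Fy
  rw [FF_of_ne hy]
  simp only [Pi.sub_apply]
  field_simp
  ring

lemma FF_add_one (x y : ℝ) : FF (x+1) y = FF x y := by
  unfold FF
  congr 1
  apply intervalIntegral.integral_congr
  intro s _
  show aF (x+1+y*s) = aF (x+y*s)
  rw [← aF_add_one (x+y*s)]; congr 1; ring

lemma Fx_add_one (x y : ℝ) : Fx (x+1) y = Fx x y := by
  unfold Fx
  have e1 : x + 1 + y = x + y + 1 := by ring
  have e2 : x + 1 - y = x - y + 1 := by ring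
  rw [e1, e2, aF_add_one, aF_add_one]

lemma Fy_add_one (x y : ℝ) : Fy (x+1) y = Fy x y := by
  unfold Fy
  have e1 : x + 1 + y = x + y + 1 := by ring
  have e2 : x + 1 - y = x - y + 1 := by ring
  rw [e1, e2, aF_add_one, aF_add_one, FF_add_one]

lemma aF_abs_le (x y : ℝ) : |aF (x+y) - aF x| ≤ 20*|y|^((1:ℝ)/4) := by
  have := aF_holder (x+y) x
  simpa using this

lemma FF_sub_le (x y : ℝ) : |FF x y - aF x| ≤ 20*|y|^((1:ℝ)/4) := by
  have h1 : FF x y - aF x = (1/2) * ∫ s in (-1:ℝ)..1, (aF (x+y*s) - aF x) := by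
    unfold FF
    rw [intervalIntegral.integral_sub]
    · simp; ring
    · apply Continuous.intervalIntegrable
      exact aF_continuous.comp (by fun_prop)
    · exact intervalIntegrable_const
  have h2 : ‖∫ s in (-1:ℝ)..1, (aF (x+y*s) - aF x)‖ ≤ 20*|y|^((1:ℝ)/4) * |1-(-1)| := by
    apply intervalIntegral.norm_integral_le_of_norm_le_const
    intro s hs
    rw [uIoc_of_le (by norm_num)] at hs
    rw [Real.norm_eq_abs]
    have h3 := aF_abs_le x (y*s)
    have h4 : |y*s|^((1:ℝ)/4) ≤ |y|^((1:ℝ)/4) := by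
      apply Real.rpow_le_rpow (abs_nonneg _) _ (by norm_num)
      rw [abs_mul]
      have : |s| ≤ 1 := abs_le.mpr ⟨hs.1.le, hs.2⟩
      nlinarith [abs_nonneg y]
    linarith
  rw [h1, abs_mul, abs_of_pos (by norm_num : (0:ℝ) < 1/2)]
  rw [Real.norm_eq_abs] at h2
  have : |(1:ℝ)-(-1)| = 2 := by norm_num
  rw [this] at h2
  linarith

lemma rpow_div_self {y : ℝ} (hy : y ≠ 0) : |y|^((1:ℝ)/4)/|y| = |y|^(-(3:ℝ)/4) := by
  have hp : 0 < |y| := abs_pos.mpr hy
  rw [show (-(3:ℝ)/4) = 1/4 - 1 by norm_num, Real.rpow_sub hp, Real.rpow_one]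

lemma Fx_bound (x y : ℝ) : |Fx x y| ≤ 20*|y|^(-(3:ℝ)/4) := by
  rcases eq_or_ne y 0 with rfl | hy
  · unfold Fx; simp
  have hp : 0 < |y| := abs_pos.mpr hy
  have h1 := aF_abs_le x y
  have h2 := aF_abs_le x (-y)
  rw [abs_neg, ← sub_eq_add_neg] at h2
  have h3 : |aF (x+y) - aF (x-y)| ≤ 40*|y|^((1:ℝ)/4) := by
    rw [abs_le] at *
    constructor <;> linarith [h1.1, h1.2, h2.1, h2.2]
  unfold Fx
  rw [abs_div, abs_mul, abs_of_pos (by norm_num : (0:ℝ) < 2), ← rpow_div_self hy]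
  rw [div_le_iff₀ (by positivity)]
  calc |aF (x+y) - aF (x-y)| ≤ 40*|y|^((1:ℝ)/4) := h3
    _ = 20*(|y|^((1:ℝ)/4)/|y|)*(2*|y|) := by field_simp; norm_num

lemma Fy_bound (x y : ℝ) : |Fy x y| ≤ 40*|y|^(-(3:ℝ)/4) := by
  rcases eq_or_ne y 0 with rfl | hy
  · unfold Fy; simp
  have hp : 0 < |y| := abs_pos.mpr hy
  have h1 := aF_abs_le x y
  have h2 := aF_abs_le x (-y)
  rw [abs_neg, ← sub_eq_add_neg] at h2
  have h4 := FF_sub_le x y
  have h3 : |(aF (x+y) + aF (x-y))/2 - FF x y| ≤ 40*|y|^((1:ℝ)/4) := by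
    rw [abs_le] at *
    constructor <;> linarith [h1.1, h1.2, h2.1, h2.2, h4.1, h4.2]
  unfold Fy
  rw [abs_div, ← rpow_div_self hy]
  rw [div_le_iff₀ (by positivity)]
  calc |(aF (x+y) + aF (x-y))/2 - FF x y| ≤ 40*|y|^((1:ℝ)/4) := h3
    _ = 40*(|y|^((1:ℝ)/4)/|y|)*(|y|) := by field_simp

lemma FF_const {x y : ℝ} (h : |y| < wF x) : FF x y = aF x := by
  unfold FF
  have : ∫ s in (-1:ℝ)..1, aF (x+y*s) = ∫ s in (-1:ℝ)..1, aF x := by
    apply intervalIntegral.integral_congr
    intro s hs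
    rw [uIcc_of_le (by norm_num)] at hs
    apply aF_const
    have : |s| ≤ 1 := abs_le.mpr ⟨hs.1, hs.2⟩
    have e : x + y*s - x = y*s := by ring
    rw [e, abs_mul]
    nlinarith [abs_nonneg y]
  rw [this]; simp; ring

lemma Fx_const {x y : ℝ} (h : |y| < wF x) : Fx x y = 0 := by
  unfold Fx
  rw [aF_const x (x+y) (by simpa using h), aF_const x (x-y) (by simpa using h)]
  simp

lemma Fy_const {x y : ℝ} (h : |y| < wF x) : Fy x y = 0 := by
  unfold Fy
  rw [aF_const x (x+y) (by simpa using h), aF_const x (x-y) (by simpa using h), FF_const h]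
  simp

/-- one-dimensional vanishing of the integral of a derivative -/
lemma line_zero {G G' : ℝ → ℝ} {S : Set ℝ} (hS : S.Countable) (hc : Continuous G)
    (hd : ∀ x ∉ S, HasDerivAt G (G' x) x) (hint : Integrable G') {R : ℝ}
    (hR : ∀ x, R < |x| → G x = 0) : ∫ x, G' x = 0 := by
  have h1 : Tendsto (fun r : ℝ => ∫ x in (-r)..r, G' x) atTop (𝓝 (∫ x, G' x)) :=
    intervalIntegral_tendsto_integral hint tendsto_neg_atTop_atBot tendsto_id
  have h2 : (fun r : ℝ => ∫ x in (-r)..r, G' x) =ᶠ[atTop] fun _ => 0 := by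
    filter_upwards [eventually_gt_atTop (max R 0)] with r hr
    have hr0 : 0 < r := lt_of_le_of_lt (le_max_right _ _) hr
    have hrR : R < r := lt_of_le_of_lt (le_max_left _ _) hr
    rw [integral_eq_of_hasDerivAt_off_countable G G' hS hc.continuousOn
      (fun x hx => hd x hx.2) hint.intervalIntegrable]
    rw [hR r (by rwa [abs_of_pos hr0]), hR (-r) (by rwa [abs_neg, abs_of_pos hr0]), sub_zero]
  exact tendsto_nhds_unique (h1.congr' h2) tendsto_const_nhds

/-- space-time points -/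
abbrev P3 := ℝ × (Fin 2 → ℝ)

lemma weak_time {φ : P3 → ℝ} (hφ : ContDiff ℝ 1 φ) (hs : HasCompactSupport φ)
    {f : (Fin 2 → ℝ) → ℝ} (hf : Continuous f) :
    ∫ p : P3, fderiv ℝ φ p ((1:ℝ), (0 : Fin 2 → ℝ)) * f p.2 = 0 := by
  have hdc : Continuous (fun p : P3 => fderiv ℝ φ p ((1:ℝ), (0 : Fin 2 → ℝ))) :=
    (hφ.continuous_fderiv (by norm_num)).clm_apply continuous_const
  have hdcs : HasCompactSupport (fun p : P3 => fderiv ℝ φ p ((1:ℝ), (0 : Fin 2 → ℝ))) :=
    hs.fderiv_apply ℝ _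
  have hint : Integrable (fun p : P3 => fderiv ℝ φ p ((1:ℝ), (0 : Fin 2 → ℝ)) * f p.2) :=
    (hdc.mul (hf.comp continuous_snd)).integrable_of_hasCompactSupport hdcs.mul_right
  obtain ⟨R, hR⟩ := hs.isCompact.isBounded.subset_closedBall 0
  have hR' : ∀ p : P3, R < ‖p‖ → φ p = 0 := by
    intro p hp
    by_contra hne
    have := hR (subset_tsupport φ hne)
    rw [mem_closedBall_zero_iff] at this
    linarith
  rw [Measure.volume_eq_prod, integral_prod_symm _ (by rwa [← Measure.volume_eq_prod])]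
  rw [Measure.volume_eq_prod] at hint
  have key : ∀ᵐ x : Fin 2 → ℝ, ∫ t : ℝ, fderiv ℝ φ (t, x) ((1:ℝ), (0 : Fin 2 → ℝ)) * f x = 0 := by
    filter_upwards [hint.prod_left_ae] with x hx
    refine line_zero (G := fun t => φ (t,x) * f x) (S := ∅) countable_empty ?_ ?_ hx (R := R) ?_
    · exact (hφ.continuous.comp (by fun_prop)).mul continuous_const
    · intro t _
      apply HasDerivAt.mul_const
      have h1 : HasDerivAt (fun t : ℝ => ((t, x) : P3)) ((1:ℝ), (0 : Fin 2 → ℝ)) t :=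
        (hasDerivAt_id t).prodMk (hasDerivAt_const t x)
      exact ((hφ.differentiable (by norm_num)).differentiableAt.hasFDerivAt (x := ((t,x):P3))).comp_hasDerivAt t h1
    · intro t ht
      have : φ (t, x) = 0 := hR' _ (lt_of_lt_of_le ht (norm_fst_le ((t,x) : P3)))
      rw [this, zero_mul]
  rw [integral_congr_ae key, integral_zero]

lemma plane0 {I : (Fin 2 → ℝ) → ℝ} (hI : Integrable I) :
    (∀ᵐ v : ℝ, Integrable (fun u : ℝ => I ![u,v])) ∧
    ((∀ᵐ v : ℝ, ∫ u : ℝ, I ![u,v] = 0) → ∫ x, I x = 0) := by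
  have hmp := (volume_preserving_finTwoArrow ℝ).symm
  have h2 : Integrable (fun q : ℝ × ℝ => I ![q.1,q.2]) :=
    (hmp.integrable_comp_emb (MeasurableEquiv.measurableEmbedding _)).mpr hI
  rw [Measure.volume_eq_prod] at h2
  refine ⟨h2.prod_left_ae, fun h => ?_⟩
  have h3 : ∫ q : ℝ × ℝ, I ![q.1,q.2] = ∫ x, I x :=
    hmp.integral_comp (MeasurableEquiv.measurableEmbedding _) I
  rw [← h3, Measure.volume_eq_prod, integral_prod_symm _ h2]
  rw [integral_congr_ae h, integral_zero]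

lemma plane1 {I : (Fin 2 → ℝ) → ℝ} (hI : Integrable I) :
    (∀ᵐ u : ℝ, Integrable (fun v : ℝ => I ![u,v])) ∧
    ((∀ᵐ u : ℝ, ∫ v : ℝ, I ![u,v] = 0) → ∫ x, I x = 0) := by
  have hmp := (volume_preserving_finTwoArrow ℝ).symm
  have h2 : Integrable (fun q : ℝ × ℝ => I ![q.1,q.2]) :=
    (hmp.integrable_comp_emb (MeasurableEquiv.measurableEmbedding _)).mpr hI
  rw [Measure.volume_eq_prod] at h2
  refine ⟨h2.prod_right_ae, fun h => ?_⟩
  have h3 : ∫ q : ℝ × ℝ, I ![q.1,q.2] = ∫ x, I x :=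
    hmp.integral_comp (MeasurableEquiv.measurableEmbedding _) I
  rw [← h3, Measure.volume_eq_prod, integral_prod _ h2]
  rw [integral_congr_ae h, integral_zero]

lemma weak_space0 {φ : P3 → ℝ} (hφ : ContDiff ℝ 1 φ) (hs : HasCompactSupport φ)
    {f D : (Fin 2 → ℝ) → ℝ} (hf : Continuous f)
    (hD : LocallyIntegrable (fun p : P3 => D p.2))
    (hd : ∀ᵐ v : ℝ, ∃ S : Set ℝ, S.Countable ∧
      ∀ u ∉ S, HasDerivAt (fun u => f ![u,v]) (D ![u,v]) u) :
    ∫ p : P3, fderiv ℝ φ p ((0:ℝ), (Pi.single 0 (1:ℝ) : Fin 2 → ℝ)) * f p.2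
      = - ∫ p : P3, φ p * D p.2 := by
  have hdc : Continuous (fun p : P3 => fderiv ℝ φ p ((0:ℝ), (Pi.single 0 (1:ℝ) : Fin 2 → ℝ))) :=
    (hφ.continuous_fderiv (by norm_num)).clm_apply continuous_const
  have hdcs : HasCompactSupport
      (fun p : P3 => fderiv ℝ φ p ((0:ℝ), (Pi.single 0 (1:ℝ) : Fin 2 → ℝ))) :=
    hs.fderiv_apply ℝ _
  have hint1 : Integrable
      (fun p : P3 => fderiv ℝ φ p ((0:ℝ), (Pi.single 0 (1:ℝ) : Fin 2 → ℝ)) * f p.2) :=
    (hdc.mul (hf.comp continuous_snd)).integrable_of_hasCompactSupport hdcs.mul_right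
  have hint2 : Integrable (fun p : P3 => φ p * D p.2) :=
    hD.integrable_smul_left_of_hasCompactSupport hφ.continuous hs
  obtain ⟨R, hR⟩ := hs.isCompact.isBounded.subset_closedBall 0
  have hR' : ∀ p : P3, R < ‖p‖ → φ p = 0 := by
    intro p hp
    by_contra hne
    have := hR (subset_tsupport φ hne)
    rw [mem_closedBall_zero_iff] at this
    linarith
  rw [eq_neg_iff_add_eq_zero, ← integral_add hint1 hint2]
  have hint : Integrable (fun p : P3 => fderiv ℝ φ p ((0:ℝ), (Pi.single 0 (1:ℝ) : Fin 2 → ℝ)) * f p.2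
      + φ p * D p.2) := hint1.add hint2
  rw [Measure.volume_eq_prod] at hint ⊢
  rw [integral_prod _ hint]
  have key : ∀ᵐ t : ℝ, ∫ x : Fin 2 → ℝ,
      (fderiv ℝ φ (t, x) ((0:ℝ), (Pi.single 0 (1:ℝ) : Fin 2 → ℝ)) * f x + φ (t,x) * D x) = 0 := by
    filter_upwards [hint.prod_right_ae] with t ht
    obtain ⟨hl, hz⟩ := plane0 ht
    apply hz
    filter_upwards [hl, hd] with v hv hdv
    obtain ⟨S, hS, hdS⟩ := hdv
    have hcv : Continuous (fun u : ℝ => (![u,v] : Fin 2 → ℝ)) := by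
      apply continuous_pi; intro i; fin_cases i <;> simp <;> fun_prop
    refine line_zero (G := fun u => φ (t,![u,v]) * f ![u,v]) (S := S) hS ?_ ?_ hv (R := R) ?_
    · exact (hφ.continuous.comp (continuous_const.prodMk hcv)).mul (hf.comp hcv)
    · intro u hu
      have h0 : HasDerivAt (fun u : ℝ => (![u,v] : Fin 2 → ℝ)) (Pi.single 0 (1:ℝ)) u := by
        rw [hasDerivAt_pi]
        intro i
        fin_cases i
        · simpa using hasDerivAt_id' u
        · simpa using hasDerivAt_const u v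
      have h1 : HasDerivAt (fun u : ℝ => ((t, ![u,v]) : P3))
          ((0:ℝ), (Pi.single 0 (1:ℝ) : Fin 2 → ℝ)) u :=
        (hasDerivAt_const u t).prodMk h0
      have h2 := ((hφ.differentiable (by norm_num)).differentiableAt.hasFDerivAt
        (x := ((t,![u,v]):P3))).comp_hasDerivAt u h1
      exact h2.mul (hdS u hu)
    · intro u hu
      have h3 : ‖u‖ ≤ ‖(![u,v] : Fin 2 → ℝ)‖ := norm_le_pi_norm (![u,v] : Fin 2 → ℝ) 0
      have : φ (t, ![u,v]) = 0 := hR' _ (lt_of_lt_of_le hu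
        (h3.trans (norm_snd_le ((t,![u,v]) : P3))))
      rw [this, zero_mul]
  rw [integral_congr_ae key, integral_zero]

lemma weak_space1 {φ : P3 → ℝ} (hφ : ContDiff ℝ 1 φ) (hs : HasCompactSupport φ)
    {f D : (Fin 2 → ℝ) → ℝ} (hf : Continuous f)
    (hD : LocallyIntegrable (fun p : P3 => D p.2))
    (hd : ∀ᵐ u : ℝ, ∃ S : Set ℝ, S.Countable ∧
      ∀ v ∉ S, HasDerivAt (fun v => f ![u,v]) (D ![u,v]) v) :
    ∫ p : P3, fderiv ℝ φ p ((0:ℝ), (Pi.single 1 (1:ℝ) : Fin 2 → ℝ)) * f p.2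
      = - ∫ p : P3, φ p * D p.2 := by
  have hdc : Continuous (fun p : P3 => fderiv ℝ φ p ((0:ℝ), (Pi.single 1 (1:ℝ) : Fin 2 → ℝ))) :=
    (hφ.continuous_fderiv (by norm_num)).clm_apply continuous_const
  have hdcs : HasCompactSupport
      (fun p : P3 => fderiv ℝ φ p ((0:ℝ), (Pi.single 1 (1:ℝ) : Fin 2 → ℝ))) :=
    hs.fderiv_apply ℝ _
  have hint1 : Integrable
      (fun p : P3 => fderiv ℝ φ p ((0:ℝ), (Pi.single 1 (1:ℝ) : Fin 2 → ℝ)) * f p.2) :=
    (hdc.mul (hf.comp continuous_snd)).integrable_of_hasCompactSupport hdcs.mul_right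
  have hint2 : Integrable (fun p : P3 => φ p * D p.2) :=
    hD.integrable_smul_left_of_hasCompactSupport hφ.continuous hs
  obtain ⟨R, hR⟩ := hs.isCompact.isBounded.subset_closedBall 0
  have hR' : ∀ p : P3, R < ‖p‖ → φ p = 0 := by
    intro p hp
    by_contra hne
    have := hR (subset_tsupport φ hne)
    rw [mem_closedBall_zero_iff] at this
    linarith
  rw [eq_neg_iff_add_eq_zero, ← integral_add hint1 hint2]
  have hint : Integrable (fun p : P3 => fderiv ℝ φ p ((0:ℝ), (Pi.single 1 (1:ℝ) : Fin 2 → ℝ)) * f p.2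
      + φ p * D p.2) := hint1.add hint2
  rw [Measure.volume_eq_prod] at hint ⊢
  rw [integral_prod _ hint]
  have key : ∀ᵐ t : ℝ, ∫ x : Fin 2 → ℝ,
      (fderiv ℝ φ (t, x) ((0:ℝ), (Pi.single 1 (1:ℝ) : Fin 2 → ℝ)) * f x + φ (t,x) * D x) = 0 := by
    filter_upwards [hint.prod_right_ae] with t ht
    obtain ⟨hl, hz⟩ := plane1 ht
    apply hz
    filter_upwards [hl, hd] with u hv hdv
    obtain ⟨S, hS, hdS⟩ := hdv
    have hcv : Continuous (fun v : ℝ => (![u,v] : Fin 2 → ℝ)) := by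
      apply continuous_pi; intro i; fin_cases i <;> simp <;> fun_prop
    refine line_zero (G := fun v => φ (t,![u,v]) * f ![u,v]) (S := S) hS ?_ ?_ hv (R := R) ?_
    · exact (hφ.continuous.comp (continuous_const.prodMk hcv)).mul (hf.comp hcv)
    · intro v hu
      have h0 : HasDerivAt (fun v : ℝ => (![u,v] : Fin 2 → ℝ)) (Pi.single 1 (1:ℝ)) v := by
        rw [hasDerivAt_pi]
        intro i
        fin_cases i
        · simpa using hasDerivAt_const v u
        · simpa using hasDerivAt_id' v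
      have h1 : HasDerivAt (fun v : ℝ => ((t, ![u,v]) : P3))
          ((0:ℝ), (Pi.single 1 (1:ℝ) : Fin 2 → ℝ)) v :=
        (hasDerivAt_const v t).prodMk h0
      have h2 := ((hφ.differentiable (by norm_num)).differentiableAt.hasFDerivAt
        (x := ((t,![u,v]):P3))).comp_hasDerivAt v h1
      exact h2.mul (hdS v hu)
    · intro v hu
      have h3 : ‖v‖ ≤ ‖(![u,v] : Fin 2 → ℝ)‖ := norm_le_pi_norm (![u,v] : Fin 2 → ℝ) 1
      have : φ (t, ![u,v]) = 0 := hR' _ (lt_of_lt_of_le hu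
        (h3.trans (norm_snd_le ((t,![u,v]) : P3))))
      rw [this, zero_mul]
  rw [integral_congr_ae key, integral_zero]

/-- The singular weight. -/
noncomputable def bet (v : ℝ) : ℝ := |Int.fract v - 1/2|^(-(3:ℝ)/4)

lemma abs_rpow_intervalIntegrable : IntervalIntegrable (fun y : ℝ => |y|^(-(3:ℝ)/4)) volume (-(1/2)) (1/2) := by
  have h1 : IntervalIntegrable (fun y : ℝ => |y|^(-(3:ℝ)/4)) volume 0 (1/2) := by
    have h := intervalIntegral.intervalIntegrable_rpow' (a := 0) (b := 1/2) (r := -(3:ℝ)/4) (by norm_num)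
    refine h.congr ?_
    intro y hy
    rw [uIoc_of_le (by norm_num)] at hy
    simp only
    rw [abs_of_pos hy.1]
  have h2 : IntervalIntegrable (fun y : ℝ => |y|^(-(3:ℝ)/4)) volume (-(1/2)) 0 := by
    have h := (IntervalIntegrable.iff_comp_neg (by norm_num)).mp h1
    simp only [abs_neg, neg_zero] at h
    exact h.symm
  exact h2.trans h1

lemma bet_intervalIntegrable (a b : ℝ) : IntervalIntegrable bet volume a b := by
  have hp : Function.Periodic bet 1 := by
    intro x; unfold bet; rw [Int.fract_add_one]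
  apply hp.intervalIntegrable₀ one_ne_zero
  have h1 : IntervalIntegrable (fun y : ℝ => |y - 1/2|^(-(3:ℝ)/4)) volume 0 1 := by
    have := abs_rpow_intervalIntegrable.comp_sub_right (1/2)
    norm_num at this
    norm_num
    exact this
  rw [intervalIntegrable_iff_integrableOn_Ico_of_le zero_le_one] at h1 ⊢
  refine h1.congr_fun ?_ measurableSet_Ico
  intro y hy
  simp only [bet]
  rw [Int.fract_eq_self.mpr hy]

lemma bet_meas : Measurable bet := by
  unfold bet
  fun_prop

lemma locInt_of_bound {D : (Fin 2 → ℝ) → ℝ} (hm : Measurable D) (C : ℝ)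
    (hb : ∀ x, |D x| ≤ C * bet (x 1)) : LocallyIntegrable (fun p : P3 => D p.2) := by
  rw [locallyIntegrable_iff]
  intro k hk
  obtain ⟨R, hR⟩ := hk.isBounded.subset_closedBall 0
  have h1 : IntegrableOn (fun p : P3 => C * bet (p.2 1)) (Metric.closedBall 0 R) := by
    have e : (Metric.closedBall (0 : P3) R)
        = Metric.closedBall (0:ℝ) R ×ˢ Metric.closedBall (0:Fin 2 → ℝ) R := by
      rw [closedBall_prod_same]; rfl
    rw [IntegrableOn, e, Measure.volume_eq_prod, ← Measure.prod_restrict]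
    have : IsFiniteMeasure ((volume : Measure ℝ).restrict (Metric.closedBall (0:ℝ) R)) :=
      ⟨by rw [Measure.restrict_apply_univ]; exact measure_closedBall_lt_top⟩
    apply Integrable.comp_snd (f := fun x : Fin 2 → ℝ => C * bet (x 1))
    rcases lt_or_ge R 0 with hR0 | hR0
    · rw [Metric.closedBall_eq_empty.mpr hR0]; simp
    rw [closedBall_pi _ hR0, volume_pi, Measure.restrict_pi_pi]
    have hfin : ∀ i : Fin 2, IsFiniteMeasure
        ((volume : Measure ℝ).restrict (Metric.closedBall ((0 : Fin 2 → ℝ) i) R)) :=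
      fun i => ⟨by rw [Measure.restrict_apply_univ]; exact measure_closedBall_lt_top⟩
    apply Integrable.const_mul
    apply integrable_comp_eval (X := fun _ : Fin 2 => ℝ) (i := (1 : Fin 2)) (f := bet)
    have := (bet_intervalIntegrable (-R) R)
    rw [intervalIntegrable_iff_integrableOn_Icc_of_le (by linarith)] at this
    have e2 : Metric.closedBall ((0 : Fin 2 → ℝ) 1) R = Icc (-R) R := by
      rw [Real.closedBall_eq_Icc]; simp
    rw [e2]
    exact this
  have h2 : IntegrableOn (fun p : P3 => C * bet (p.2 1)) k := h1.mono_set hR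
  refine Integrable.mono' h2 (hm.comp measurable_snd).aestronglyMeasurable ?_
  refine Filter.Eventually.of_forall fun p => ?_
  rw [Real.norm_eq_abs]
  exact hb p.2

end Pool.Agent.H507R3.Lens
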