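import Pool.Agent.H507R3.LensMeas

/-!
# Failure of absolute continuity
-/

set_option autoImplicit false
open MeasureTheory Set Filter Topology

namespace Pool.Agent.H507R3.Lens

lemma aF_add_int (x : ℝ) (k : ℤ) : aF (x + k) = aF x := by
  have hp : Function.Periodic aF 1 := aF_add_one
  have := hp.int_mul k x
  simpa using this

lemma not_ac {x : Fin 2 → ℝ} (hx : |hF (x 1)| < wF (x 0)) {k : ℝ → ℝ}
    (hk : IntervalIntegrable k volume 0 1)
    (hh : ∀ t ∈ Icc (0:ℝ) 1, f0 (XX t x) = f0 (XX 0 x) + ∫ s in (0:ℝ)..t, k s) : False := by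
  set τ0 := WF (x 0) with hτ0
  set G : ℝ → ℝ := fun t => ∫ s in (0:ℝ)..t, k s with hG
  have hGF : ∀ t ∈ Icc (0:ℝ) 1, G t = aF (VF (τ0 + t)) - aF (VF (τ0 + 0)) := by
    intro t ht
    have := hh t ht
    rw [f0_XX hx, f0_XX hx] at this
    simp only [hG]
    linarith
  have hac : AbsolutelyContinuousOnInterval G 0 1 :=
    hk.absolutelyContinuousOnInterval_intervalIntegral (c := 0) (by simp)
  have hpos : ∀ᵐ t : ℝ, 0 < wF (VF (τ0 + t)) :=
    (measurePreserving_add_left volume τ0).quasiMeasurePreserving.ae VF_pos_ae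
  have hne0 : ∀ᵐ t : ℝ, t ≠ 0 := by
    rw [ae_iff]; simp
  have hne1 : ∀ᵐ t : ℝ, t ≠ 1 := by
    rw [ae_iff]; simp
  have hder : ∀ᵐ t : ℝ, t ∈ uIcc (0:ℝ) 1 → HasDerivAt G 0 t := by
    filter_upwards [hpos, hne0, hne1] with t h1 h2 h3 h4
    rw [uIcc_of_le zero_le_one] at h4
    have h5 : t ∈ Ioo (0:ℝ) 1 := ⟨lt_of_le_of_ne h4.1 h2.symm, lt_of_le_of_ne h4.2 h3⟩
    have hc : Continuous fun s => VF (τ0 + s) := VF_continuous.comp (by fun_prop)
    have h6 : ∀ᶠ s in 𝓝 t, |VF (τ0 + s) - VF (τ0 + t)| < wF (VF (τ0 + t)) := by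
      have hc2 : Continuous fun s => |VF (τ0 + s) - VF (τ0 + t)| := by fun_prop
      have := hc2.tendsto t
      simp only [sub_self, abs_zero] at this
      exact this.eventually (gt_mem_nhds h1)
    have hev : G =ᶠ[𝓝 t] fun _ => aF (VF (τ0 + t)) - aF (VF (τ0 + 0)) := by
      filter_upwards [h6, Ioo_mem_nhds h5.1 h5.2] with s hs1 hs2
      rw [hGF s ⟨hs2.1.le, hs2.2.le⟩, aF_const _ _ hs1]
    exact (hasDerivAt_const t _).congr_of_eventuallyEq hev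
  obtain ⟨C, hC⟩ := hac.const_of_ae_hasDerivAt_zero hder
  rw [uIcc_of_le zero_le_one] at hC
  have hG0 : G 0 = 0 := by simp [hG]
  have hC0 : C = 0 := by rw [← hC 0 ⟨le_rfl, zero_le_one⟩, hG0]
  have hconst : ∀ y ∈ Icc (x 0) (x 0 + 1), aF y = aF (VF (τ0 + 0)) := by
    intro y hy
    have h1 : τ0 ≤ WF y := WF_strictMono.monotone hy.1
    have h2 : WF y ≤ τ0 + 1 := by
      rw [hτ0, ← WF_add_one]; exact WF_strictMono.monotone hy.2
    have hmem : WF y - τ0 ∈ Icc (0:ℝ) 1 := ⟨by linarith, by linarith⟩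
    have h3 := hGF _ hmem
    rw [hC _ hmem, hC0] at h3
    have e : τ0 + (WF y - τ0) = WF y := by ring
    rw [e, VF_WF] at h3
    linarith
  have ha0 : aF ((⌈x 0⌉:ℤ):ℝ) = 0 := by
    have := aF_add_int 0 ⌈x 0⌉
    rw [zero_add] at this
    rw [this, aF_zero]
  have ha1 : aF (1/2 + (⌈x 0 - 1/2⌉:ℤ)) = 1 := by
    rw [aF_add_int, aF_half]
  have m0 : ((⌈x 0⌉:ℤ):ℝ) ∈ Icc (x 0) (x 0 + 1) :=
    ⟨Int.le_ceil _, (Int.ceil_lt_add_one _).le⟩
  have m1 : (1/2 + (⌈x 0 - 1/2⌉:ℤ) : ℝ) ∈ Icc (x 0) (x 0 + 1) := by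
    have h1 := Int.le_ceil (x 0 - 1/2)
    have h2 := Int.ceil_lt_add_one (x 0 - 1/2)
    constructor <;> linarith
  have c0 := hconst _ m0
  have c1 := hconst _ m1
  rw [ha0] at c0
  rw [ha1] at c1
  linarith

/-- The lens has positive measure in the unit square. -/
lemma lens_pos {P : (Fin 2 → ℝ) → Prop} (hP : ∀ᵐ x ∂(volume.restrict QQ), P x) :
    ∃ x, P x ∧ |hF (x 1)| < wF (x 0) := by
  set U : Set (Fin 2 → ℝ) := {x | 0 < x 0} ∩ {x | x 0 < 1} ∩ {x | |x 1 - 1/2| < wF (x 0)} with hU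
  have hUo : IsOpen U := by
    apply (IsOpen.inter _ _).inter
    · exact isOpen_lt (by fun_prop) (wF_continuous.comp (continuous_apply 0))
    · exact isOpen_lt continuous_const (continuous_apply 0)
    · exact isOpen_lt (continuous_apply 0) continuous_const
  obtain ⟨u, hu1, hu2⟩ : ∃ u : ℝ, u ∈ Ioo (0:ℝ) 1 ∧ 0 < wF u := by
    by_contra hcon
    push Not at hcon
    have h1 : Ioo (0:ℝ) 1 ⊆ {u : ℝ | ¬ 0 < wF u} := fun u hu => not_lt.mpr (hcon u hu)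
    have h2 : volume (Ioo (0:ℝ) 1) = 0 := measure_mono_null h1 wF_pos_ae
    rw [Real.volume_Ioo] at h2
    norm_num at h2
  have hne : U.Nonempty := ⟨![u, 1/2], ⟨⟨hu1.1, hu1.2⟩, by simpa using hu2⟩⟩
  have hpos : 0 < volume U := hUo.measure_pos volume hne
  have hUQ : U ⊆ QQ := by
    intro x hx
    have h3 := wF_le (x 0)
    have h4 : |x 1 - 1/2| < 1/4 := lt_of_lt_of_le hx.2 h3
    rw [abs_lt] at h4
    intro i _
    fin_cases i
    · exact ⟨le_of_lt hx.1.1, hx.1.2⟩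
    · exact ⟨by show (0:ℝ) ≤ x 1; linarith [h4.1], by show x 1 < 1; linarith [h4.2]⟩
  have hPU : ∀ᵐ x ∂(volume.restrict U), P x := ae_restrict_of_ae_restrict_of_subset hUQ hP
  have hne2 : (ae (volume.restrict U)).NeBot := by
    rw [ae_neBot, Ne, Measure.restrict_eq_zero]; exact hpos.ne'
  obtain ⟨x, hx1, hx2⟩ := (hPU.and (ae_restrict_mem hUo.measurableSet)).exists
  refine ⟨x, hx1, ?_⟩
  have hxQ := hUQ hx2
  have h5 : x 1 ∈ Ico (0:ℝ) 1 := hxQ 1 (mem_univ _)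
  rw [hF_Ico h5]
  exact hx2.2

end Pool.Agent.H507R3.Lens
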