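import Pool.Agent.H507R3.LensExt

/-!
# The lens flow
-/

set_option autoImplicit false
open MeasureTheory Set Filter Topology

namespace Pool.Agent.H507R3.Lens

/-- Mean width. -/
noncomputable def LL : ℝ := ∫ u in (0:ℝ)..1, wF u

/-- Normalised primitive of the width. -/
noncomputable def WF (x : ℝ) : ℝ := (∫ u in (0:ℝ)..x, wF u) / LL

lemma wF_int_pos {a b : ℝ} (hab : a < b) : 0 < ∫ u in a..b, wF u := by
  rw [intervalIntegral.integral_pos_iff_support_of_nonneg_ae
    (Filter.Eventually.of_forall fun x => wF_nonneg x) (wF_continuous.intervalIntegrable _ _)]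
  refine ⟨hab, ?_⟩
  have hae : (Function.support wF ∩ Ioc a b : Set ℝ) =ᵐ[volume] (Ioc a b : Set ℝ) := by
    filter_upwards [wF_pos_ae] with x hx
    have hx' : x ∈ Function.support wF := hx.ne'
    apply propext
    constructor
    · intro h; exact h.2
    · intro h; exact ⟨hx', h⟩
  rw [measure_congr hae, Real.volume_Ioc, ENNReal.ofReal_pos]
  linarith

lemma LL_pos : 0 < LL := wF_int_pos zero_lt_one

lemma WF_hasDerivAt (x : ℝ) : HasDerivAt WF (wF x / LL) x := by
  unfold WF
  apply HasDerivAt.div_const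
  exact intervalIntegral.integral_hasDerivAt_right (wF_continuous.intervalIntegrable _ _)
    (wF_continuous.stronglyMeasurableAtFilter _ _) wF_continuous.continuousAt

lemma WF_continuous : Continuous WF :=
  continuous_iff_continuousAt.mpr fun x => (WF_hasDerivAt x).continuousAt

lemma WF_strictMono : StrictMono WF := by
  intro a b hab
  unfold WF
  have h1 : ∫ u in (0:ℝ)..b, wF u = (∫ u in (0:ℝ)..a, wF u) + ∫ u in a..b, wF u :=
    (intervalIntegral.integral_add_adjacent_intervals (wF_continuous.intervalIntegrable _ _)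
      (wF_continuous.intervalIntegrable _ _)).symm
  rw [h1]
  have := wF_int_pos hab
  apply div_lt_div_of_pos_right _ LL_pos
  linarith

lemma WF_zero : WF 0 = 0 := by unfold WF; simp

lemma WF_add_one (x : ℝ) : WF (x+1) = WF x + 1 := by
  unfold WF
  have h1 : ∫ u in (0:ℝ)..(x+1), wF u = (∫ u in (0:ℝ)..x, wF u) + ∫ u in x..(x+1), wF u :=
    (intervalIntegral.integral_add_adjacent_intervals (wF_continuous.intervalIntegrable _ _)
      (wF_continuous.intervalIntegrable _ _)).symm
  have hp : Function.Periodic wF 1 := wF_add_one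
  have h2 : ∫ u in x..(x+1), wF u = LL := by
    rw [hp.intervalIntegral_add_eq x 0, zero_add]; rfl
  rw [h1, h2, add_div, div_self LL_pos.ne']

lemma WF_int (n : ℤ) : WF n = n := by
  have hp : Function.Periodic (fun x => WF x - x) 1 := by
    intro x
    show WF (x+1) - (x+1) = WF x - x
    rw [WF_add_one]; ring
  have := hp.int_mul_eq n
  simp only [mul_one, WF_zero, sub_zero] at this
  linarith

lemma WF_surj : Function.Surjective WF := by
  apply WF_continuous.surjective
  · apply tendsto_atTop_mono (f := fun x : ℝ => x - 1)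
    · intro x
      have h1 : WF (⌊x⌋ : ℤ) ≤ WF x := WF_strictMono.monotone (Int.floor_le x)
      rw [WF_int] at h1
      have := Int.sub_one_lt_floor x
      linarith
    · exact tendsto_atTop_add_const_right _ (-1) tendsto_id
  · apply tendsto_atBot_mono (f := fun x : ℝ => x + 1)
    · intro x
      have h1 : WF x ≤ WF (⌈x⌉ : ℤ) := WF_strictMono.monotone (Int.le_ceil x)
      rw [WF_int] at h1
      have := Int.ceil_lt_add_one x
      linarith
    · exact tendsto_atBot_add_const_right _ 1 tendsto_id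

/-- `WF` as an order isomorphism. -/
noncomputable def eW : ℝ ≃o ℝ := WF_strictMono.orderIsoOfSurjective WF WF_surj

lemma eW_apply (x : ℝ) : eW x = WF x := rfl

/-- The inverse of `WF`. -/
noncomputable def VF (τ : ℝ) : ℝ := eW.symm τ

lemma VF_WF (x : ℝ) : VF (WF x) = x := eW.symm_apply_apply x
lemma WF_VF (τ : ℝ) : WF (VF τ) = τ := eW.apply_symm_apply τ
lemma VF_continuous : Continuous VF := eW.symm.continuous
lemma VF_strictMono : StrictMono VF := eW.symm.strictMono
lemma VF_add_one (τ : ℝ) : VF (τ+1) = VF τ + 1 := by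
  apply WF_strictMono.injective
  rw [WF_VF, WF_add_one, WF_VF]
lemma VF_add_int (τ : ℝ) (n : ℤ) : VF (τ+n) = VF τ + n := by
  have hp : Function.Periodic (fun x => VF x - x) 1 := by
    intro x
    show VF (x+1) - (x+1) = VF x - x
    rw [VF_add_one]; ring
  have := (hp.int_mul n) τ
  simp only [mul_one] at this
  linarith

lemma image_WF_Ioc (p q : ℝ) : WF '' Ioc p q = Ioc (WF p) (WF q) := eW.image_Ioc p q
lemma image_WF_Ico (p q : ℝ) : WF '' Ico p q = Ico (WF p) (WF q) := eW.image_Ico p q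

/-- Change of variables along the flow. -/
lemma flowgen {g G : ℝ → ℝ} (hG : ∀ a b, IntervalIntegrable G volume a b)
    (h : ∀ᵐ u : ℝ, wF u / LL * g u = G u) (τ0 : ℝ) {t : ℝ} (ht : 0 ≤ t) :
    IntervalIntegrable (fun σ => g (VF (τ0+σ))) volume 0 t ∧
    ∫ σ in (0:ℝ)..t, g (VF (τ0+σ)) = ∫ u in VF τ0..VF (τ0+t), G u := by
  set p := VF τ0 with hp
  set q := VF (τ0+t) with hq
  have hpq : p ≤ q := VF_strictMono.monotone (by linarith)
  have hWp : WF p = τ0 := WF_VF _
  have hWq : WF q = τ0 + t := WF_VF _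
  have hder : ∀ x ∈ Ioc p q, HasDerivWithinAt WF (wF x / LL) (Ioc p q) x :=
    fun x _ => (WF_hasDerivAt x).hasDerivWithinAt
  have hinj : InjOn WF (Ioc p q) := WF_strictMono.injective.injOn
  have habs : ∀ u, |wF u / LL| = wF u / LL := fun u =>
    abs_of_nonneg (div_nonneg (wF_nonneg u) LL_pos.le)
  have hIm : Ioc τ0 (τ0+t) = WF '' Ioc p q := by rw [image_WF_Ioc, hWp, hWq]
  have h1 : IntegrableOn (fun τ => g (VF τ)) (Ioc τ0 (τ0+t)) := by
    rw [hIm]
    rw [integrableOn_image_iff_integrableOn_abs_deriv_smul measurableSet_Ioc hder hinj]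
    have h2 : IntegrableOn G (Ioc p q) :=
      (intervalIntegrable_iff_integrableOn_Ioc_of_le hpq).mp (hG p q)
    refine h2.congr ?_
    filter_upwards [ae_restrict_of_ae h] with u hu
    simp only [VF_WF, habs, smul_eq_mul]
    exact hu.symm
  have h3 : ∫ τ in Ioc τ0 (τ0+t), g (VF τ) = ∫ u in Ioc p q, G u := by
    rw [hIm]
    rw [integral_image_eq_integral_abs_deriv_smul measurableSet_Ioc hder hinj]
    apply integral_congr_ae
    filter_upwards [ae_restrict_of_ae h] with u hu
    simp only [VF_WF, habs, smul_eq_mul]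
    exact hu
  have h1' : IntervalIntegrable (fun τ => g (VF τ)) volume τ0 (τ0+t) :=
    (intervalIntegrable_iff_integrableOn_Ioc_of_le (by linarith)).mpr h1
  constructor
  · have := h1'.comp_add_left τ0
    simpa using this
  · rw [intervalIntegral.integral_comp_add_left (fun τ => g (VF τ)) τ0]
    rw [add_zero, intervalIntegral.integral_of_le (by linarith), h3,
      ← intervalIntegral.integral_of_le hpq]

lemma flow0 (τ0 : ℝ) {t : ℝ} (ht : 0 ≤ t) :
    IntervalIntegrable (fun σ => LL / wF (VF (τ0+σ))) volume 0 t ∧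
    ∫ σ in (0:ℝ)..t, LL / wF (VF (τ0+σ)) = VF (τ0+t) - VF τ0 := by
  have h : ∀ᵐ u : ℝ, wF u / LL * (LL / wF u) = 1 := by
    filter_upwards [wF_pos_ae] with u hu
    have := LL_pos
    field_simp
  have := flowgen (g := fun u => LL / wF u) (G := fun _ => 1) (fun a b => intervalIntegrable_const)
    h τ0 ht
  refine ⟨this.1, ?_⟩
  rw [this.2]; simp

lemma flow1 (τ0 : ℝ) {t : ℝ} (ht : 0 ≤ t) :
    IntervalIntegrable (fun σ => LL * deriv wF (VF (τ0+σ)) / wF (VF (τ0+σ))) volume 0 t ∧
    ∫ σ in (0:ℝ)..t, LL * deriv wF (VF (τ0+σ)) / wF (VF (τ0+σ))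
      = wF (VF (τ0+t)) - wF (VF τ0) := by
  have h : ∀ᵐ u : ℝ, wF u / LL * (LL * deriv wF u / wF u) = deriv wF u := by
    filter_upwards [wF_pos_ae] with u hu
    have := LL_pos
    field_simp
  have hac : ∀ a b, AbsolutelyContinuousOnInterval wF a b := fun a b =>
    (wF_lip.lipschitzOnWith (s := uIcc a b)).absolutelyContinuousOnInterval
  have := flowgen (g := fun u => LL * deriv wF u / wF u) (G := deriv wF)
    (fun a b => (hac a b).intervalIntegrable_deriv) h τ0 ht
  refine ⟨this.1, ?_⟩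
  rw [this.2]
  exact (hac _ _).integral_deriv_eq_sub

/-- `lintegral` over a period. -/
lemma lint_shift {R : ℝ → ENNReal} (hR : ∀ x, R (x+1) = R x) (t : ℝ) :
    ∫⁻ τ in Ico (0:ℝ) 1, R (τ + t) = ∫⁻ τ in Ico (0:ℝ) 1, R τ := by
  have e1 : ∫⁻ τ in Ico (0:ℝ) 1, R (τ + t) = ∫⁻ τ in Ico t (t+1), R τ := by
    have hmp : MeasurePreserving (fun x : ℝ => x + t) volume volume :=
      measurePreserving_add_right volume t
    have hemb : MeasurableEmbedding (fun x : ℝ => x + t) := (MeasurableEquiv.addRight t).measurableEmbedding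
    have := hmp.setLIntegral_comp_preimage_emb hemb R (Ico t (t+1))
    rw [← this]
    congr 2
    ext x; simp
  rw [e1, setLIntegral_congr (Ico_ae_eq_Ioc (μ := volume) (a := t) (b := t+1)),
    setLIntegral_congr (Ico_ae_eq_Ioc (μ := volume) (a := (0:ℝ)) (b := 1))]
  have hf1 := isAddFundamentalDomain_Ioc (zero_lt_one' ℝ) t (μ := volume)
  have hf2 := isAddFundamentalDomain_Ioc (zero_lt_one' ℝ) 0 (μ := volume)
  rw [zero_add] at hf2
  apply hf1.setLIntegral_eq hf2
  intro g x
  have hp : Function.Periodic R 1 := hR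
  obtain ⟨g, n, hn⟩ := g
  have hg : g = (n:ℝ) * 1 := by rw [← hn]; simp
  show R (g + x) = R x
  rw [hg, add_comm]
  exact hp.int_mul n x

/-- Measure change in the lens. -/
lemma phi {g : ℝ → ℝ → ENNReal} :
    ∫⁻ τ in Ico (0:ℝ) 1, ENNReal.ofReal LL * ∫⁻ s in Ioo (-1:ℝ) 1, g (VF τ) (1/2 + s * wF (VF τ))
      = ∫⁻ u in Ico (0:ℝ) 1, ∫⁻ v in Ico (0:ℝ) 1, {v : ℝ | |v - 1/2| < wF u}.indicator (g u) v := by
  have himg : WF '' Ico (0:ℝ) 1 = Ico (0:ℝ) 1 := by
    rw [image_WF_Ico, WF_zero]
    have : WF 1 = 1 := by have := WF_add_one 0; rw [zero_add, WF_zero, zero_add] at this; exact this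
    rw [this]
  have hder : ∀ x ∈ Ico (0:ℝ) 1, HasDerivWithinAt WF (wF x / LL) (Ico (0:ℝ) 1) x :=
    fun x _ => (WF_hasDerivAt x).hasDerivWithinAt
  have hinj : InjOn WF (Ico (0:ℝ) 1) := WF_strictMono.injective.injOn
  have h1 := lintegral_image_eq_lintegral_abs_deriv_mul (measurableSet_Ico) hder hinj
    (fun τ => ENNReal.ofReal LL * ∫⁻ s in Ioo (-1:ℝ) 1, g (VF τ) (1/2 + s * wF (VF τ)))
  rw [himg] at h1
  rw [h1]
  apply setLIntegral_congr_fun measurableSet_Ico
  intro u _
  simp only [VF_WF]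
  have habs : |wF u / LL| = wF u / LL := abs_of_nonneg (div_nonneg (wF_nonneg u) LL_pos.le)
  rw [habs, ← mul_assoc, ← ENNReal.ofReal_mul (div_nonneg (wF_nonneg u) LL_pos.le),
    div_mul_cancel₀ _ LL_pos.ne']
  rcases (wF_nonneg u).eq_or_lt with hw | hw
  · rw [← hw]
    have : {v : ℝ | |v - 1/2| < 0} = ∅ := by
      ext v; simp
    rw [this]
    simp
  · have hd2 : ∀ s ∈ Ioo (-1:ℝ) 1, HasDerivWithinAt (fun s : ℝ => 1/2 + s * wF u) (wF u) (Ioo (-1:ℝ) 1) s := by
      intro s _
      have : HasDerivAt (fun s : ℝ => 1/2 + s * wF u) (wF u) s := by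
        simpa using ((hasDerivAt_id' s).mul_const (wF u)).const_add (1/2)
      exact this.hasDerivWithinAt
    have hinj2 : InjOn (fun s : ℝ => 1/2 + s * wF u) (Ioo (-1:ℝ) 1) := by
      intro a _ b _ hab
      simp only [add_right_inj] at hab
      exact mul_right_cancel₀ hw.ne' hab
    have h2 := lintegral_image_eq_lintegral_abs_deriv_mul (measurableSet_Ioo) hd2 hinj2 (g u)
    rw [abs_of_pos hw] at h2
    rw [lintegral_indicator (by
      have : Measurable fun v : ℝ => |v - 1/2| := by fun_prop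
      exact measurableSet_lt this measurable_const)]
    rw [Measure.restrict_restrict (by
      have : Measurable fun v : ℝ => |v - 1/2| := by fun_prop
      exact measurableSet_lt this measurable_const)]
    have himg2 : (fun s : ℝ => 1/2 + s * wF u) '' Ioo (-1:ℝ) 1
        = {v : ℝ | |v - 1/2| < wF u} ∩ Ico 0 1 := by
      have hle := wF_le u
      ext v
      simp only [mem_image, mem_Ioo, mem_inter_iff, Set.mem_ofPred_eq, mem_Ico, abs_lt]
      constructor
      · rintro ⟨s, ⟨hs1, hs2⟩, rfl⟩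
        have a1 : -wF u < s * wF u := by nlinarith
        have a2 : s * wF u < wF u := by nlinarith
        refine ⟨⟨by linarith, by linarith⟩, by linarith, by linarith⟩
      · rintro ⟨⟨h1, h2⟩, h3, h4⟩
        refine ⟨(v - 1/2)/wF u, ⟨?_, ?_⟩, ?_⟩
        · rw [lt_div_iff₀ hw]; linarith
        · rw [div_lt_iff₀ hw]; linarith
        · field_simp; ring
    rw [← himg2, h2]
    rw [lintegral_const_mul' _ _ ENNReal.ofReal_ne_top]

end Pool.Agent.H507R3.Lens
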