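import Pool.Agent.H507R3.LensTorus

/-!
# The lens flow preserves Lebesgue measure on the torus
-/

set_option autoImplicit false
open MeasureTheory Set Filter Topology

namespace Pool.Agent.H507R3.Lens

/-- The unit square. -/
def QQ : Set (Fin 2 → ℝ) := Set.pi Set.univ fun _ : Fin 2 => Set.Ico (0:ℝ) 1

/-- The torus map. -/
noncomputable def YY (t : ℝ) (x : Fin 2 → ℝ) : Fin 2 → ℝ := fun i => Int.fract (XX t x i)

lemma YY_meas (t : ℝ) : Measurable (YY t) := by
  unfold YY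
  rw [measurable_pi_iff]
  intro i
  have h1 : Measurable (XX t) := XX_meas.of_uncurry_left
  exact measurable_fract.comp ((measurable_pi_apply i).comp h1)

lemma pair_meas : Measurable (fun q : ℝ × ℝ => (![q.1, q.2] : Fin 2 → ℝ)) := by
  rw [measurable_pi_iff]
  intro i
  fin_cases i
  · exact measurable_fst
  · exact measurable_snd

lemma QF {h : (Fin 2 → ℝ) → ENNReal} (hh : Measurable h) :
    ∫⁻ x in QQ, h x = ∫⁻ u in Ico (0:ℝ) 1, ∫⁻ v in Ico (0:ℝ) 1, h ![u,v] := by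
  have hmp := (volume_preserving_finTwoArrow ℝ).symm
  have h1 := hmp.setLIntegral_comp_preimage_emb (MeasurableEquiv.measurableEmbedding _) h QQ
  rw [← h1]
  have e1 : (MeasurableEquiv.finTwoArrow (α := ℝ)).symm ⁻¹' QQ = Ico (0:ℝ) 1 ×ˢ Ico (0:ℝ) 1 := by
    ext q
    simp only [QQ, mem_preimage, Set.mem_pi, mem_univ, true_implies, Fin.forall_fin_two, mem_prod]
    rfl
  rw [e1]
  have e2 : ∀ q : ℝ × ℝ, h ((MeasurableEquiv.finTwoArrow (α := ℝ)).symm q) = h ![q.1,q.2] :=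
    fun q => rfl
  simp only [e2]
  rw [Measure.volume_eq_prod, ← Measure.prod_restrict]
  have hm2 : Measurable (fun q : ℝ × ℝ => h ![q.1,q.2]) := hh.comp pair_meas
  rw [lintegral_prod _ hm2.aemeasurable]

lemma S_meas (u : ℝ) : MeasurableSet {v : ℝ | |v - 1/2| < wF u} := by
  have : Measurable fun v : ℝ => |v - 1/2| := by fun_prop
  exact measurableSet_lt this measurable_const

lemma S2_meas : MeasurableSet {q : ℝ × ℝ | |q.2 - 1/2| < wF q.1} := by
  apply measurableSet_lt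
  · fun_prop
  · exact wF_continuous.measurable.comp measurable_fst

/-- splitting -/
lemma split_lint {G K : ℝ → ℝ → ENNReal} (hG : Measurable (Function.uncurry G)) :
    ∫⁻ u in Ico (0:ℝ) 1, ∫⁻ v in Ico (0:ℝ) 1,
      ({v : ℝ | |v - 1/2| < wF u}.indicator (G u) v + K u v)
    = (∫⁻ u in Ico (0:ℝ) 1, ∫⁻ v in Ico (0:ℝ) 1, {v : ℝ | |v - 1/2| < wF u}.indicator (G u) v)
      + ∫⁻ u in Ico (0:ℝ) 1, ∫⁻ v in Ico (0:ℝ) 1, K u v := by
  have hG2 : Measurable (fun q : ℝ × ℝ => {v : ℝ | |v - 1/2| < wF q.1}.indicator (G q.1) q.2) := by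
    have : (fun q : ℝ × ℝ => {v : ℝ | |v - 1/2| < wF q.1}.indicator (G q.1) q.2)
        = {q : ℝ × ℝ | |q.2 - 1/2| < wF q.1}.indicator (Function.uncurry G) := by
      funext q
      by_cases hq : |q.2 - 1/2| < wF q.1
      · rw [indicator_of_mem (by exact hq), indicator_of_mem (by exact hq)]; rfl
      · rw [indicator_of_notMem (by exact hq), indicator_of_notMem (by exact hq)]
    rw [this]
    exact hG.indicator S2_meas
  rw [← lintegral_add_left]
  · apply lintegral_congr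
    intro u
    rw [lintegral_add_left]
    exact (hG.of_uncurry_left (x := u)).indicator (S_meas u)
  · exact hG2.lintegral_prod_right' (ν := volume.restrict (Ico (0:ℝ) 1))

lemma XX_pair_lens {u v : ℝ} (hv : hF v = v - 1/2) (h : |v - 1/2| < wF u) (t : ℝ) :
    XX t ![u,v] = ![VF (WF u + t), 1/2 + ((v - 1/2) / wF u) * wF (VF (WF u + t))] := by
  have hx : |hF ((![u,v] : Fin 2 → ℝ) 1)| < wF ((![u,v] : Fin 2 → ℝ) 0) := by
    simpa [hv] using h
  unfold XX
  rw [if_pos hx]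
  simp only [Matrix.cons_val_zero, Matrix.cons_val_one, Matrix.cons_val_fin_one, hv]
  congr 2
  ring

lemma hF_Ico {v : ℝ} (hv : v ∈ Ico (0:ℝ) 1) : hF v = v - 1/2 := by
  unfold hF; rw [Int.fract_eq_self.mpr hv]

lemma YY_pair_not {u v : ℝ} (hu : u ∈ Ico (0:ℝ) 1) (hv : v ∈ Ico (0:ℝ) 1)
    (h : ¬ |v - 1/2| < wF u) (t : ℝ) : YY t ![u,v] = ![u,v] := by
  have hx : ¬ |hF ((![u,v] : Fin 2 → ℝ) 1)| < wF ((![u,v] : Fin 2 → ℝ) 0) := by
    simpa [hF_Ico hv] using h
  unfold YY XX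
  rw [if_neg hx]
  funext i
  fin_cases i
  · simpa using Int.fract_eq_self.mpr hu
  · simpa using Int.fract_eq_self.mpr hv

/-- The moving part, in flow coordinates. -/
noncomputable def Rfun (h : (Fin 2 → ℝ) → ENNReal) (τ : ℝ) : ENNReal :=
  ENNReal.ofReal LL * ∫⁻ s in Ioo (-1:ℝ) 1, h ![Int.fract (VF τ), 1/2 + s * wF (VF τ)]

lemma Rfun_per (h : (Fin 2 → ℝ) → ENNReal) (τ : ℝ) : Rfun h (τ+1) = Rfun h τ := by
  unfold Rfun
  rw [VF_add_one, wF_add_one, Int.fract_add_one]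

lemma VF_mem {τ : ℝ} (hτ : τ ∈ Ico (0:ℝ) 1) : VF τ ∈ Ico (0:ℝ) 1 := by
  have h0 : VF 0 = 0 := by have := VF_WF 0; rwa [WF_zero] at this
  have h1 : VF 1 = 1 := by have := VF_add_one 0; rwa [zero_add, h0, zero_add] at this
  constructor
  · rw [← h0]; exact VF_strictMono.monotone hτ.1
  · rw [← h1]; exact VF_strictMono hτ.2

lemma sw_small {s w : ℝ} (hs : s ∈ Ioo (-1:ℝ) 1) (hw0 : 0 ≤ w) (hw : w ≤ 1/4) : |s * w| < 1/2 := by
  rw [abs_mul, abs_of_nonneg hw0]
  have : |s| < 1 := abs_lt.mpr hs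
  nlinarith [abs_nonneg s]

lemma moving (h : (Fin 2 → ℝ) → ENNReal) (t : ℝ) :
    ∫⁻ u in Ico (0:ℝ) 1, ∫⁻ v in Ico (0:ℝ) 1,
      {v : ℝ | |v - 1/2| < wF u}.indicator (fun v => h (YY t ![u,v])) v
    = ∫⁻ u in Ico (0:ℝ) 1, ∫⁻ v in Ico (0:ℝ) 1,
      {v : ℝ | |v - 1/2| < wF u}.indicator (fun v => h ![u,v]) v := by
  have h1 := phi (g := fun u v => h (YY t ![u,v]))
  have h2 := phi (g := fun u v => h ![u,v])
  rw [← h1, ← h2]
  have h3 : ∫⁻ τ in Ico (0:ℝ) 1, ENNReal.ofReal LL * ∫⁻ s in Ioo (-1:ℝ) 1,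
      h (YY t ![VF τ, 1/2 + s * wF (VF τ)]) = ∫⁻ τ in Ico (0:ℝ) 1, Rfun h (τ + t) := by
    apply lintegral_congr_ae
    filter_upwards [ae_restrict_of_ae VF_pos_ae] with τ hτ
    unfold Rfun
    congr 1
    apply setLIntegral_congr_fun measurableSet_Ioo
    intro s hs
    simp only
    congr 1
    have hsm := sw_small hs hτ.le (wF_le _)
    have hhf : hF (1/2 + s * wF (VF τ)) = 1/2 + s * wF (VF τ) - 1/2 := by
      unfold hF; rw [fract_half_add hsm]
    have hl : |1/2 + s * wF (VF τ) - 1/2| < wF (VF τ) := by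
      rw [add_sub_cancel_left]; exact sw_lt (abs_lt.mpr hs) hτ
    unfold YY
    rw [XX_pair_lens hhf hl t, WF_VF]
    have e1 : (1/2 + s * wF (VF τ) - 1/2) / wF (VF τ) = s := by
      rw [add_sub_cancel_left, mul_div_cancel_right₀ _ hτ.ne']
    rw [e1]
    funext i
    fin_cases i
    · simp
    · show Int.fract (1/2 + s * wF (VF (τ+t))) = 1/2 + s * wF (VF (τ+t))
      exact fract_half_add (sw_small hs (wF_nonneg _) (wF_le _))
  have h4 : ∫⁻ τ in Ico (0:ℝ) 1, ENNReal.ofReal LL * ∫⁻ s in Ioo (-1:ℝ) 1,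
      h ![VF τ, 1/2 + s * wF (VF τ)] = ∫⁻ τ in Ico (0:ℝ) 1, Rfun h τ := by
    apply setLIntegral_congr_fun measurableSet_Ico
    intro τ hτ
    unfold Rfun
    simp only
    rw [Int.fract_eq_self.mpr (VF_mem hτ)]
  rw [h3, h4]
  exact lint_shift (Rfun_per h) t

lemma YY_map (t : ℝ) : Measure.map (YY t) (volume.restrict QQ) = volume.restrict QQ := by
  ext A hA
  rw [Measure.map_apply (YY_meas t) hA]
  set h : (Fin 2 → ℝ) → ENNReal := A.indicator 1 with hh
  have hm : Measurable h := measurable_one.indicator hA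
  have e1 : (volume.restrict QQ) (YY t ⁻¹' A) = ∫⁻ x in QQ, h (YY t x) := by
    rw [← lintegral_indicator_one (YY_meas t hA)]
    rfl
  have e2 : (volume.restrict QQ) A = ∫⁻ x in QQ, h x := by
    rw [← lintegral_indicator_one hA]
  have hm3 : Measurable (fun x => h (YY t x)) := hm.comp (YY_meas t)
  rw [e1, e2, QF hm3, QF hm]
  have f1 : ∫⁻ u in Ico (0:ℝ) 1, ∫⁻ v in Ico (0:ℝ) 1, h (YY t ![u,v])
      = ∫⁻ u in Ico (0:ℝ) 1, ∫⁻ v in Ico (0:ℝ) 1,
        ({v : ℝ | |v - 1/2| < wF u}.indicator (fun v => h (YY t ![u,v])) v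
          + {v : ℝ | |v - 1/2| < wF u}ᶜ.indicator (fun v => h ![u,v]) v) := by
    apply setLIntegral_congr_fun measurableSet_Ico
    intro u hu
    apply setLIntegral_congr_fun measurableSet_Ico
    intro v hv
    simp only
    by_cases hl : |v - 1/2| < wF u
    · rw [indicator_of_mem (by exact hl), indicator_of_notMem (by simpa using hl), add_zero]
    · rw [indicator_of_notMem (by exact hl), indicator_of_mem (by simpa using hl), zero_add,
        YY_pair_not hu hv hl]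
  have f2 : ∫⁻ u in Ico (0:ℝ) 1, ∫⁻ v in Ico (0:ℝ) 1, h ![u,v]
      = ∫⁻ u in Ico (0:ℝ) 1, ∫⁻ v in Ico (0:ℝ) 1,
        ({v : ℝ | |v - 1/2| < wF u}.indicator (fun v => h ![u,v]) v
          + {v : ℝ | |v - 1/2| < wF u}ᶜ.indicator (fun v => h ![u,v]) v) := by
    apply lintegral_congr
    intro u
    apply lintegral_congr
    intro v
    by_cases hl : |v - 1/2| < wF u
    · rw [indicator_of_mem (by exact hl), indicator_of_notMem (by simpa using hl), add_zero]
    · rw [indicator_of_notMem (by exact hl), indicator_of_mem (by simpa using hl), zero_add]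
  have m1 : Measurable (Function.uncurry fun u v : ℝ => h (YY t ![u,v])) :=
    (hm.comp (YY_meas t)).comp pair_meas
  have m2 : Measurable (Function.uncurry fun u v : ℝ => h ![u,v]) := hm.comp pair_meas
  show ∫⁻ u in Ico (0:ℝ) 1, ∫⁻ v in Ico (0:ℝ) 1, h (YY t ![u,v]) = _
  rw [f1, f2]
  rw [split_lint (G := fun u v => h (YY t ![u,v]))
    (K := fun u v => {v : ℝ | |v - 1/2| < wF u}ᶜ.indicator (fun v => h ![u,v]) v) m1]
  rw [split_lint (G := fun u v => h ![u,v])
    (K := fun u v => {v : ℝ | |v - 1/2| < wF u}ᶜ.indicator (fun v => h ![u,v]) v) m2]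
  rw [moving h t]

end Pool.Agent.H507R3.Lens
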