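import Pool.Agent.H507R3.LensFlow

/-!
# The lens flow on the torus
-/

set_option autoImplicit false
open MeasureTheory Set Filter Topology

namespace Pool.Agent.H507R3.Lens

/-- signed distance to the middle line -/
noncomputable def hF (v : ℝ) : ℝ := Int.fract v - 1/2

/-- The vector field. -/
noncomputable def bX (x : Fin 2 → ℝ) : Fin 2 → ℝ :=
  if |hF (x 1)| < wF (x 0) then
    ![LL / wF (x 0), LL * deriv wF (x 0) / wF (x 0) * (hF (x 1) / wF (x 0))] else 0

/-- The flow. -/
noncomputable def XX (t : ℝ) (x : Fin 2 → ℝ) : Fin 2 → ℝ :=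
  if |hF (x 1)| < wF (x 0) then
    ![VF (WF (x 0) + t), (x 1 - hF (x 1)) + (hF (x 1) / wF (x 0)) * wF (VF (WF (x 0) + t))] else x

/-- The scalar function. -/
noncomputable def f0 (x : Fin 2 → ℝ) : ℝ := FF (x 0) (hF (x 1))
/-- Its weak derivatives. -/
noncomputable def D0 (x : Fin 2 → ℝ) : ℝ := Fx (x 0) (hF (x 1))
/-- Its weak derivatives. -/
noncomputable def D1 (x : Fin 2 → ℝ) : ℝ := Fy (x 0) (hF (x 1))

lemma hF_meas : Measurable hF := by unfold hF; fun_prop

lemma lens_meas : MeasurableSet {x : Fin 2 → ℝ | |hF (x 1)| < wF (x 0)} := by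
  apply measurableSet_lt
  · have h1 : Measurable fun x : Fin 2 → ℝ => hF (x 1) := hF_meas.comp (measurable_pi_apply 1)
    exact continuous_abs.measurable.comp h1
  · exact wF_continuous.measurable.comp (measurable_pi_apply 0)

lemma bX_meas : Measurable bX := by
  unfold bX
  apply Measurable.ite lens_meas _ measurable_const
  have m0 : Measurable fun x : Fin 2 → ℝ => wF (x 0) :=
    wF_continuous.measurable.comp (measurable_pi_apply 0)
  have m1 : Measurable fun x : Fin 2 → ℝ => deriv wF (x 0) :=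
    (measurable_deriv wF).comp (measurable_pi_apply 0)
  have m2 : Measurable fun x : Fin 2 → ℝ => hF (x 1) := hF_meas.comp (measurable_pi_apply 1)
  rw [measurable_pi_iff]
  intro i
  fin_cases i
  · exact measurable_const.div m0
  · exact ((measurable_const.mul m1).div m0).mul (m2.div m0)

lemma XX_meas : Measurable (Function.uncurry XX) := by
  unfold XX Function.uncurry
  have mx : ∀ i : Fin 2, Measurable fun p : ℝ × (Fin 2 → ℝ) => p.2 i := fun i =>
    (measurable_pi_apply i).comp measurable_snd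
  have ml : MeasurableSet {p : ℝ × (Fin 2 → ℝ) | |hF (p.2 1)| < wF (p.2 0)} :=
    measurable_snd lens_meas
  apply Measurable.ite ml _ measurable_snd
  have m0 : Measurable fun p : ℝ × (Fin 2 → ℝ) => wF (p.2 0) :=
    wF_continuous.measurable.comp (mx 0)
  have m2 : Measurable fun p : ℝ × (Fin 2 → ℝ) => hF (p.2 1) := hF_meas.comp (mx 1)
  have m3 : Measurable fun p : ℝ × (Fin 2 → ℝ) => VF (WF (p.2 0) + p.1) :=
    VF_continuous.measurable.comp ((WF_continuous.measurable.comp (mx 0)).add measurable_fst)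
  rw [measurable_pi_iff]
  intro i
  fin_cases i
  · exact m3
  · exact ((mx 1).sub m2).add ((m2.div m0).mul (wF_continuous.measurable.comp m3))

lemma hF_add_int (v : ℝ) (k : ℤ) : hF (v + k) = hF v := by
  unfold hF; rw [Int.fract_add_intCast]

lemma wF_add_int (v : ℝ) (k : ℤ) : wF (v + k) = wF v := by
  have hp : Function.Periodic wF 1 := wF_add_one
  have := hp.int_mul k v
  simpa using this

lemma dwF_add_int (v : ℝ) (k : ℤ) : deriv wF (v + k) = deriv wF v := by
  have h : (fun v => wF (v + k)) = wF := by funext v; exact wF_add_int v k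
  rw [← deriv_comp_add_const wF (k:ℝ) v, h]

lemma bX_per (x : Fin 2 → ℝ) (k : Fin 2 → ℤ) : bX (x + (fun i => (k i : ℝ))) = bX x := by
  unfold bX
  simp only [Pi.add_apply, hF_add_int, wF_add_int, dwF_add_int]

lemma FF_add_int (x y : ℝ) (k : ℤ) : FF (x + k) y = FF x y := by
  have hp : Function.Periodic (fun x => FF x y) 1 := fun x => FF_add_one x y
  have := hp.int_mul k x
  simpa using this

lemma f0_per (x : Fin 2 → ℝ) (k : Fin 2 → ℤ) : f0 (x + (fun i => (k i : ℝ))) = f0 x := by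
  unfold f0
  simp only [Pi.add_apply, hF_add_int, FF_add_int]

lemma FF_cont2 {α : Type*} [TopologicalSpace α] {a b : α → ℝ} (ha : Continuous a)
    (hb : Continuous b) : Continuous (fun x => FF (a x) (b x)) := by
  have h := FF_continuous.comp (ha.prodMk hb)
  rw [Function.comp_def] at h
  simp only [Function.uncurry_apply_pair] at h
  exact h

lemma FF_meas2 {α : Type*} [MeasurableSpace α] {a b : α → ℝ} (ha : Measurable a)
    (hb : Measurable b) : Measurable (fun x => FF (a x) (b x)) := by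
  have h := FF_continuous.measurable.comp (ha.prodMk hb)
  rw [Function.comp_def] at h
  simp only [Function.uncurry_apply_pair] at h
  exact h

/-- auxiliary -/
noncomputable def auxF (x : Fin 2 → ℝ) (v : ℝ) : ℝ := FF (x 0) (v - 1/2)

lemma auxF_cont : Continuous (Function.uncurry auxF) := by
  have h : Continuous (fun p : (Fin 2 → ℝ) × ℝ => FF (p.1 0) (p.2 - 1/2)) :=
    FF_cont2 (by fun_prop) (by fun_prop)
  exact h

lemma auxF_eq (x : Fin 2 → ℝ) : auxF x 0 = auxF x 1 := by
  unfold auxF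
  have e1 : (0:ℝ) - 1/2 = -(1/2) := by norm_num
  have e2 : (1:ℝ) - 1/2 = 1/2 := by norm_num
  rw [e1, e2, FF_neg]

lemma f0_continuous : Continuous f0 :=
  ContinuousOn.comp_fract (f := auxF) (s := fun x : Fin 2 → ℝ => x 1)
    auxF_cont.continuousOn (continuous_apply 1) auxF_eq

lemma D0_meas : Measurable D0 := by
  unfold D0 Fx
  have m0 : Measurable fun x : Fin 2 → ℝ => x 0 := measurable_pi_apply 0
  have m2 : Measurable fun x : Fin 2 → ℝ => hF (x 1) := hF_meas.comp (measurable_pi_apply 1)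
  exact ((aF_continuous.measurable.comp (m0.add m2)).sub
    (aF_continuous.measurable.comp (m0.sub m2))).div (m2.const_mul 2)

lemma D1_meas : Measurable D1 := by
  unfold D1 Fy
  have m0 : Measurable fun x : Fin 2 → ℝ => x 0 := measurable_pi_apply 0
  have m2 : Measurable fun x : Fin 2 → ℝ => hF (x 1) := hF_meas.comp (measurable_pi_apply 1)
  have m3 : Measurable fun x : Fin 2 → ℝ => FF (x 0) (hF (x 1)) := FF_meas2 m0 m2
  exact ((((aF_continuous.measurable.comp (m0.add m2)).add
    (aF_continuous.measurable.comp (m0.sub m2))).div_const 2).sub m3).div m2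

lemma D0_loc : LocallyIntegrable (fun p : P3 => D0 p.2) :=
  locInt_of_bound D0_meas 20 fun x => Fx_bound (x 0) (hF (x 1))

lemma D1_loc : LocallyIntegrable (fun p : P3 => D1 p.2) :=
  locInt_of_bound D1_meas 40 fun x => Fy_bound (x 0) (hF (x 1))

lemma hF_zero_countable : {v : ℝ | hF v = 0}.Countable := by
  apply (countable_range (fun n : ℤ => (n:ℝ) + 1/2)).mono
  intro v hv
  refine ⟨⌊v⌋, ?_⟩
  have h1 : Int.fract v = 1/2 := by
    have : hF v = 0 := hv
    unfold hF at this; linarith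
  simp only
  rw [← h1]; exact Int.floor_add_fract v

lemma fract_zero_countable : {v : ℝ | Int.fract v = 0}.Countable := by
  apply (countable_range (fun n : ℤ => (n:ℝ))).mono
  intro v hv
  refine ⟨⌊v⌋, ?_⟩
  have h1 : Int.fract v = 0 := hv
  have := Int.floor_add_fract v
  simp only
  linarith

lemma hasDerivAt_hF {v : ℝ} (hv : Int.fract v ≠ 0) : HasDerivAt hF 1 v := by
  have hlt : (⌊v⌋:ℝ) < v := by
    rcases (Int.floor_le v).eq_or_lt with h | h
    · exfalso; apply hv
      have := Int.floor_add_fract v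
      linarith
    · exact h
  have hlt2 := Int.lt_floor_add_one v
  have hev : hF =ᶠ[𝓝 v] fun y => y - (⌊v⌋:ℝ) - 1/2 := by
    filter_upwards [Ioo_mem_nhds hlt hlt2] with y hy
    unfold hF
    have : ⌊y⌋ = ⌊v⌋ := by
      rw [Int.floor_eq_iff]; exact ⟨hy.1.le, hy.2⟩
    have h2 := Int.floor_add_fract y
    rw [this] at h2
    linarith
  have h3 : HasDerivAt (fun y : ℝ => y - (⌊v⌋:ℝ) - 1/2) 1 v :=
    ((hasDerivAt_id' v).sub_const _).sub_const _
  exact h3.congr_of_eventuallyEq hev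

lemma d0_line : ∀ᵐ v : ℝ, ∃ S : Set ℝ, S.Countable ∧
    ∀ u ∉ S, HasDerivAt (fun u => f0 ![u,v]) (D0 ![u,v]) u := by
  filter_upwards [hF_zero_countable.ae_notMem volume] with v hv
  refine ⟨∅, countable_empty, fun u _ => ?_⟩
  have hv' : hF v ≠ 0 := hv
  have := FF_hasDerivAt_x (x := u) hv'
  simpa [f0, D0] using this

lemma d1_line : ∀ᵐ u : ℝ, ∃ S : Set ℝ, S.Countable ∧
    ∀ v ∉ S, HasDerivAt (fun v => f0 ![u,v]) (D1 ![u,v]) v := by
  refine Filter.Eventually.of_forall fun u => ?_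
  refine ⟨{v | hF v = 0} ∪ {v | Int.fract v = 0}, hF_zero_countable.union fract_zero_countable, ?_⟩
  intro v hv
  rw [mem_union, not_or] at hv
  have hv' : hF v ≠ 0 := hv.1
  have h1 := FF_hasDerivAt_y (x := u) hv'
  have h2 := hasDerivAt_hF hv.2
  have h3 := h1.comp v h2
  rw [mul_one] at h3
  simpa [f0, D1, Function.comp_def] using h3

lemma sw_lt {s w : ℝ} (hs : |s| < 1) (hw : 0 < w) : |s * w| < w := by
  rw [abs_mul, abs_of_pos hw]; nlinarith

lemma fract_half_add {y : ℝ} (hy : |y| < 1/2) : Int.fract (1/2 + y) = 1/2 + y := by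
  rw [abs_lt] at hy
  exact Int.fract_eq_self.mpr ⟨by linarith [hy.1], by linarith [hy.2]⟩

lemma hF_int_add {m : ℤ} {y : ℝ} (hy : |y| < 1/2) : hF (m + 1/2 + y) = y := by
  unfold hF
  have : (m:ℝ) + 1/2 + y = (1/2 + y) + m := by ring
  rw [this, Int.fract_add_intCast, fract_half_add hy]; ring

lemma sub_hF (v : ℝ) : v - hF v = ⌊v⌋ + 1/2 := by
  unfold hF
  have := Int.floor_add_fract v
  linarith

/-- In the lens: position of the moving particle. -/
lemma XX_lens {x : Fin 2 → ℝ} (hx : |hF (x 1)| < wF (x 0)) (t : ℝ) :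
    (XX t x) 0 = VF (WF (x 0) + t) ∧
    (XX t x) 1 = ⌊x 1⌋ + 1/2 + (hF (x 1) / wF (x 0)) * wF (VF (WF (x 0) + t)) := by
  unfold XX
  rw [if_pos hx]
  constructor
  · simp
  · simp only [Matrix.cons_val_one, Matrix.cons_val_fin_one]
    rw [sub_hF]

lemma s_lt {x : Fin 2 → ℝ} (hx : |hF (x 1)| < wF (x 0)) : |hF (x 1) / wF (x 0)| < 1 := by
  have hw : 0 < wF (x 0) := lt_of_le_of_lt (abs_nonneg _) hx
  rw [abs_div, abs_of_pos hw, div_lt_one hw]; exact hx

lemma hF_XX {x : Fin 2 → ℝ} (hx : |hF (x 1)| < wF (x 0)) (t : ℝ) :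
    hF ((XX t x) 1) = (hF (x 1) / wF (x 0)) * wF (VF (WF (x 0) + t)) := by
  rw [(XX_lens hx t).2]
  apply hF_int_add
  have h1 := s_lt hx
  have h2 := wF_le (VF (WF (x 0) + t))
  have h3 := wF_nonneg (VF (WF (x 0) + t))
  rw [abs_mul, abs_of_nonneg h3]
  nlinarith [abs_nonneg (hF (x 1) / wF (x 0))]

lemma bX_XX {x : Fin 2 → ℝ} (hx : |hF (x 1)| < wF (x 0)) (t : ℝ) :
    bX (XX t x) = ![LL / wF (VF (WF (x 0) + t)),
      (hF (x 1) / wF (x 0)) * (LL * deriv wF (VF (WF (x 0) + t)) / wF (VF (WF (x 0) + t)))] := by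
  unfold bX
  rw [hF_XX hx t, (XX_lens hx t).1]
  rcases (wF_nonneg (VF (WF (x 0) + t))).eq_or_lt with hw | hw
  · rw [← hw]; funext i; fin_cases i <;> simp
  · rw [if_pos (sw_lt (s_lt hx) hw)]
    rw [mul_div_cancel_right₀ _ hw.ne', mul_comm (hF (x 1) / wF (x 0))]

/-- The flow identity. -/
lemma XX_flow {x : Fin 2 → ℝ} (T : ℝ) (hT : 0 ≤ T) :
    XX 0 x = x ∧ IntegrableOn (fun t => bX (XX t x)) (Icc 0 T) ∧
     ∀ t ∈ Icc (0:ℝ) T, XX t x = x + ∫ s in (0:ℝ)..t, bX (XX s x) := by
  by_cases hx : |hF (x 1)| < wF (x 0)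
  · have hw : 0 < wF (x 0) := lt_of_le_of_lt (abs_nonneg _) hx
    have hint : ∀ t, 0 ≤ t → IntervalIntegrable (fun s => bX (XX s x)) volume 0 t := by
      intro t ht
      have h0 := (flow0 (WF (x 0)) ht).1
      have h1 := ((flow1 (WF (x 0)) ht).1).const_mul (hF (x 1) / wF (x 0))
      rw [intervalIntegrable_iff] at h0 h1 ⊢
      rw [IntegrableOn, integrable_pi_iff]
      rw [IntegrableOn] at h0 h1
      intro i
      simp only [bX_XX hx]
      fin_cases i
      · simpa using h0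
      · simpa using h1
    have hcomp : ∀ t, 0 ≤ t → ∀ i, (∫ s in (0:ℝ)..t, bX (XX s x)) i
        = ∫ s in (0:ℝ)..t, bX (XX s x) i := by
      intro t ht i
      exact ((ContinuousLinearMap.proj (R := ℝ) (φ := fun _ : Fin 2 => ℝ) i).intervalIntegral_comp_comm
        (hint t ht)).symm
    refine ⟨?_, ?_, ?_⟩
    · funext i
      fin_cases i
      · show (XX 0 x) 0 = x 0
        rw [(XX_lens hx 0).1, add_zero, VF_WF]
      · show (XX 0 x) 1 = x 1
        rw [(XX_lens hx 0).2, add_zero, VF_WF, div_mul_cancel₀ _ hw.ne', ← sub_hF]; ring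
    · have := hint T hT
      rwa [intervalIntegrable_iff_integrableOn_Icc_of_le hT] at this
    · intro t ht
      funext i
      rw [Pi.add_apply, hcomp t ht.1 i]
      fin_cases i
      · show (XX t x) 0 = x 0 + ∫ s in (0:ℝ)..t, bX (XX s x) 0
        have : ∀ s, bX (XX s x) 0 = LL / wF (VF (WF (x 0) + s)) := by
          intro s; rw [bX_XX hx]; simp
        simp only [this]
        rw [(flow0 (WF (x 0)) ht.1).2, VF_WF, (XX_lens hx t).1]; ring
      · show (XX t x) 1 = x 1 + ∫ s in (0:ℝ)..t, bX (XX s x) 1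
        have : ∀ s, bX (XX s x) 1 = (hF (x 1) / wF (x 0)) *
            (LL * deriv wF (VF (WF (x 0) + s)) / wF (VF (WF (x 0) + s))) := by
          intro s; rw [bX_XX hx]; simp
        simp only [this]
        rw [intervalIntegral.integral_const_mul, (flow1 (WF (x 0)) ht.1).2, VF_WF,
          (XX_lens hx t).2, ← sub_hF]
        field_simp
        ring
  · have h1 : ∀ t, XX t x = x := fun t => by unfold XX; rw [if_neg hx]
    have h2 : bX x = 0 := by unfold bX; rw [if_neg hx]
    refine ⟨h1 0, ?_, ?_⟩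
    · simp only [h1, h2]; exact integrableOn_zero
    · intro t ht
      simp [h1, h2]

/-- Along trajectories. -/
lemma f0_XX {x : Fin 2 → ℝ} (hx : |hF (x 1)| < wF (x 0)) (t : ℝ) :
    f0 (XX t x) = aF (VF (WF (x 0) + t)) := by
  unfold f0
  rw [hF_XX hx t, (XX_lens hx t).1]
  rcases (wF_nonneg (VF (WF (x 0) + t))).eq_or_lt with hw | hw
  · rw [← hw, mul_zero, FF_zero]
  · exact FF_const (sw_lt (s_lt hx) hw)

/-- The material derivative vanishes. -/
lemma mat_zero (x : Fin 2 → ℝ) (t : ℝ) :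
    bX (XX t x) 0 * D0 (XX t x) + bX (XX t x) 1 * D1 (XX t x) = 0 := by
  generalize XX t x = z
  by_cases hz : |hF (z 1)| < wF (z 0)
  · have h0 : D0 z = 0 := Fx_const hz
    have h1 : D1 z = 0 := Fy_const hz
    rw [h0, h1]; ring
  · have : bX z = 0 := by unfold bX; rw [if_neg hz]
    rw [this]; simp

lemma VF_pos_ae : ∀ᵐ τ : ℝ, 0 < wF (VF τ) := by
  have h1 : volume {u : ℝ | ¬ 0 < wF u} = 0 := wF_pos_ae
  have h2 : volume (WF '' {u : ℝ | ¬ 0 < wF u}) = 0 :=
    addHaar_image_eq_zero_of_differentiableOn_of_addHaar_eq_zero volume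
      (fun x _ => (WF_hasDerivAt x).differentiableAt.differentiableWithinAt) h1
  have h3 : {τ : ℝ | ¬ 0 < wF (VF τ)} ⊆ WF '' {u : ℝ | ¬ 0 < wF u} := by
    intro τ hτ
    exact ⟨VF τ, hτ, WF_VF τ⟩
  exact measure_mono_null h3 h2

end Pool.Agent.H507R3.Lens
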