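import Pool.Agent.H507R3.PlaneInt

/-!
A potential `v = ∑ δᵢ log (2R / |x - pᵢ|)` with poles `pᵢ → 0` and the function `1 / (1 + v)`.
-/

set_option autoImplicit false

namespace Pool.Agent.H507R3

open MeasureTheory Filter Topology Set Metric
open scoped RealInnerProductSpace ENNReal

/-- The weights. -/
noncomputable def dl (i : ℕ) : ℝ := (1 / 8) ^ i

/-- The poles. -/
noncomputable def pt (R : ℝ) (i : ℕ) : E2 := mk2 (R / 2 ^ (i + 1), 0)

/-- The summands of the potential. -/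
noncomputable def vt (R : ℝ) (i : ℕ) (x : E2) : ℝ := dl i * Real.log (2 * R / ‖x - pt R i‖)

/-- The potential. -/
noncomputable def vp (R : ℝ) (x : E2) : ℝ := ∑' i, vt R i x

/-- The summands of the negative gradient of the potential. -/
noncomputable def gt (R : ℝ) (i : ℕ) (x : E2) : E2 := dl i • ((‖x - pt R i‖ ^ 2)⁻¹ • (x - pt R i))

/-- The negative gradient of the potential. -/
noncomputable def gv (R : ℝ) (x : E2) : E2 := ∑' i, gt R i x

/-- The exceptional set. -/
def Sx (R : ℝ) : Set E2 := insert 0 (range (pt R))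

lemma dl_pos (i : ℕ) : 0 < dl i := by unfold dl; positivity

lemma norm_mk2_zero (a : ℝ) : ‖mk2 (a, 0)‖ = |a| := by
  rw [mk2, EuclideanSpace.norm_eq]
  simp [Fin.sum_univ_two, Real.sqrt_sq_eq_abs]

lemma norm_pt {R : ℝ} (hR : 0 < R) (i : ℕ) : ‖pt R i‖ = R / 2 ^ (i + 1) := by
  rw [pt, norm_mk2_zero, abs_of_pos (by positivity)]

lemma norm_pt_le {R : ℝ} (hR : 0 < R) (i : ℕ) : ‖pt R i‖ ≤ R / 2 := by
  rw [norm_pt hR]
  apply div_le_div_of_nonneg_left hR.le (by norm_num)
  calc (2 : ℝ) = 2 ^ 1 := by norm_num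
    _ ≤ 2 ^ (i + 1) := pow_le_pow_right₀ (by norm_num) (by omega)

lemma pt_mem_ball {R : ℝ} (hR : 0 < R) (i : ℕ) : pt R i ∈ ball (0 : E2) R := by
  rw [mem_ball_zero_iff]
  linarith [norm_pt_le hR i]

lemma tendsto_pt {R : ℝ} (hR : 0 < R) : Tendsto (pt R) atTop (𝓝 0) := by
  rw [tendsto_zero_iff_norm_tendsto_zero]
  have : (fun i => ‖pt R i‖) = fun i => (R / 2) * (1 / 2) ^ i := by
    funext i
    rw [norm_pt hR, pow_succ, div_pow, one_pow]
    field_simp
  rw [this]
  have := (tendsto_pow_atTop_nhds_zero_of_lt_one (r := (1 / 2 : ℝ)) (by norm_num)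
    (by norm_num)).const_mul (R / 2)
  simpa using this

lemma isClosed_Sx {R : ℝ} (hR : 0 < R) : IsClosed (Sx R) :=
  (tendsto_pt hR).isCompact_insert_range.isClosed

lemma exists_dist {R : ℝ} (hR : 0 < R) {x : E2} (hx : x ∉ Sx R) :
    ∃ d : ℝ, 0 < d ∧ ∀ y ∈ ball x d, ∀ i, d ≤ ‖y - pt R i‖ := by
  obtain ⟨ε, hε, h⟩ := Metric.isOpen_iff.mp (isClosed_Sx hR).isOpen_compl x hx
  refine ⟨ε / 2, by positivity, fun y hy i => ?_⟩
  by_contra hcon
  push Not at hcon
  have : pt R i ∈ ball x ε := by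
    rw [mem_ball] at hy ⊢
    calc dist (pt R i) x ≤ dist (pt R i) y + dist y x := dist_triangle _ _ _
      _ < ε / 2 + ε / 2 := by
        rw [dist_comm, dist_eq_norm]
        linarith
      _ = ε := by ring
  exact h this (mem_insert_of_mem _ (mem_range_self i))

lemma summable_dl : Summable dl := summable_geometric_of_lt_one (by norm_num) (by norm_num)

lemma norm_gt (R : ℝ) (i : ℕ) (x : E2) : ‖gt R i x‖ = dl i / ‖x - pt R i‖ := by
  rw [gt, norm_smul, norm_smul, Real.norm_eq_abs, abs_of_pos (dl_pos i), Real.norm_eq_abs,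
    abs_of_nonneg (by positivity)]
  rcases eq_or_ne (‖x - pt R i‖) 0 with h | h
  · rw [h]; simp
  · field_simp

lemma norm_gt_le {R : ℝ} {i : ℕ} {x : E2} {d : ℝ} (hd : 0 < d) (h : d ≤ ‖x - pt R i‖) :
    ‖gt R i x‖ ≤ dl i / d := by
  rw [norm_gt]
  exact div_le_div_of_nonneg_left (dl_pos i).le hd h

lemma summable_norm_gt {R : ℝ} (hR : 0 < R) {x : E2} (hx : x ∉ Sx R) :
    Summable fun i => ‖gt R i x‖ := by
  obtain ⟨d, hd, h⟩ := exists_dist hR hx
  refine Summable.of_nonneg_of_le (fun i => norm_nonneg _)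
    (fun i => norm_gt_le hd (h x (mem_ball_self hd) i)) (summable_dl.div_const d)

lemma summable_gt {R : ℝ} (hR : 0 < R) {x : E2} (hx : x ∉ Sx R) :
    Summable fun i => gt R i x := (summable_norm_gt hR hx).of_norm

lemma dist_pt_le {R : ℝ} (hR : 0 < R) (x : E2) (i : ℕ) : ‖x - pt R i‖ ≤ ‖x‖ + R := by
  have := norm_sub_le x (pt R i)
  linarith [norm_pt_le hR i]

lemma abs_vt_le {R : ℝ} (hR : 0 < R) {x : E2} {i : ℕ} {d : ℝ} (hd : 0 < d)
    (h : d ≤ ‖x - pt R i‖) :
    |vt R i x| ≤ dl i * (|Real.log (2 * R / d)| + |Real.log (2 * R / (‖x‖ + R))|) := by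
  rw [vt, abs_mul, abs_of_pos (dl_pos i)]
  apply mul_le_mul_of_nonneg_left _ (dl_pos i).le
  have hr : 0 < ‖x - pt R i‖ := lt_of_lt_of_le hd h
  have h1 : Real.log (2 * R / ‖x - pt R i‖) ≤ Real.log (2 * R / d) := by
    apply Real.log_le_log (by positivity)
    exact div_le_div_of_nonneg_left (by positivity) hd h
  have h2 : Real.log (2 * R / (‖x‖ + R)) ≤ Real.log (2 * R / ‖x - pt R i‖) := by
    apply Real.log_le_log (by positivity)
    exact div_le_div_of_nonneg_left (by positivity) hr (dist_pt_le hR x i)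
  rw [abs_le]
  constructor
  · have := neg_abs_le (Real.log (2 * R / (‖x‖ + R)))
    have := abs_nonneg (Real.log (2 * R / d))
    linarith
  · have := le_abs_self (Real.log (2 * R / d))
    have := abs_nonneg (Real.log (2 * R / (‖x‖ + R)))
    linarith

lemma summable_vt {R : ℝ} (hR : 0 < R) {x : E2} (hx : x ∉ Sx R) :
    Summable fun i => vt R i x := by
  obtain ⟨d, hd, h⟩ := exists_dist hR hx
  refine Summable.of_norm_bounded (summable_dl.mul_right _)
    (fun i => abs_vt_le hR hd (h x (mem_ball_self hd) i))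

lemma hasFDerivAt_vt {R : ℝ} (hR : 0 < R) {x : E2} {i : ℕ} (hx : x ≠ pt R i) :
    HasFDerivAt (vt R i) (-(innerSL ℝ (gt R i x))) x := by
  have hne : x - pt R i ≠ 0 := sub_ne_zero.mpr hx
  have hpos : 0 < ‖x - pt R i‖ ^ 2 := by positivity
  have h1 : HasFDerivAt (fun y : E2 => ‖y - pt R i‖ ^ 2)
      (2 • (innerSL ℝ (x - pt R i)).comp (ContinuousLinearMap.id ℝ E2)) x :=
    ((hasFDerivAt_id x).sub_const (pt R i)).norm_sq
  have h2 := (h1.log hpos.ne').const_mul (1 / 2 : ℝ)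
  have h3 := (h2.const_sub (Real.log (2 * R))).const_mul (dl i)
  have e : vt R i =ᶠ[𝓝 x] fun y => dl i * (Real.log (2 * R) - 1 / 2 * Real.log (‖y - pt R i‖ ^ 2)) := by
    filter_upwards [isOpen_ne.mem_nhds hx] with y hy
    have hy' : y - pt R i ≠ 0 := sub_ne_zero.mpr hy
    rw [vt, Real.log_div (by positivity) (by positivity), Real.log_pow]
    push_cast
    ring
  refine (h3.congr_of_eventuallyEq e).congr_fderiv ?_
  ext w
  simp only [smul_apply, neg_apply,
    ContinuousLinearMap.comp_id, innerSL_apply_apply, gt, inner_smul_left, smul_eq_mul,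
    conj_trivial, nsmul_eq_mul]
  push_cast
  ring

lemma hasFDerivAt_vp {R : ℝ} (hR : 0 < R) {x : E2} (hx : x ∉ Sx R) :
    HasFDerivAt (vp R) (-(innerSL ℝ (gv R x))) x := by
  obtain ⟨d, hd, h⟩ := exists_dist hR hx
  have key := hasFDerivAt_tsum_of_isPreconnected (𝕜 := ℝ) (u := fun i => dl i / d)
    (s := ball x d) (f := fun i => vt R i) (f' := fun i y => -(innerSL ℝ (gt R i y))) (x₀ := x)
    (x := x) (summable_dl.div_const d) isOpen_ball (convex_ball x d).isPreconnected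
    (fun i y hy => hasFDerivAt_vt hR (by
      intro he
      have := h y hy i
      rw [he, sub_self, norm_zero] at this
      linarith))
    (fun i y hy => by
      rw [norm_neg, innerSL_apply_norm]
      exact norm_gt_le hd (h y hy i))
    (mem_ball_self hd) (summable_vt hR hx) (mem_ball_self hd)
  refine key.congr_fderiv ?_
  rw [tsum_neg, gv, ContinuousLinearMap.map_tsum _ (summable_gt hR hx)]

lemma vt_nonneg {R : ℝ} (hR : 0 < R) {x : E2} (hx : x ∈ ball (0 : E2) R) (i : ℕ) :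
    0 ≤ vt R i x := by
  apply mul_nonneg (dl_pos i).le
  rcases eq_or_ne (‖x - pt R i‖) 0 with h | h
  · rw [h]; simp
  · have hpos : 0 < ‖x - pt R i‖ := lt_of_le_of_ne (norm_nonneg _) (Ne.symm h)
    apply Real.log_nonneg
    rw [le_div_iff₀ hpos]
    have := dist_pt_le hR x i
    rw [mem_ball_zero_iff] at hx
    linarith

lemma vp_nonneg {R : ℝ} (hR : 0 < R) {x : E2} (hx : x ∈ ball (0 : E2) R) : 0 ≤ vp R x :=
  tsum_nonneg (vt_nonneg hR hx)

lemma vt_le_vp {R : ℝ} (hR : 0 < R) {x : E2} (hx : x ∈ ball (0 : E2) R) (hS : x ∉ Sx R) (i : ℕ) :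
    vt R i x ≤ vp R x :=
  (summable_vt hR hS).le_tsum i fun j _ => vt_nonneg hR hx j

lemma measurable_vp (R : ℝ) : Measurable (vp R) := by
  apply Measurable.tsum
  intro i
  unfold vt
  exact measurable_const.mul (Real.measurable_log.comp
    (measurable_const.div ((measurable_id.sub_const _).norm)))

lemma measurable_gt (R : ℝ) (i : ℕ) : Measurable (gt R i) := by
  unfold gt
  have h : Measurable fun x : E2 => x - pt R i := measurable_id.sub_const _
  exact (((h.norm.pow_const 2).inv).smul h).const_smul (dl i)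

lemma measurable_gv (R : ℝ) : Measurable (gv R) := by
  apply Measurable.tsum
  exact measurable_gt R

lemma countable_Sx (R : ℝ) : (Sx R).Countable := (countable_range _).insert _

lemma ae_notMem_Sx (R : ℝ) : ∀ᵐ x : E2, x ∉ Sx R :=
  measure_eq_zero_iff_ae_notMem.mp ((countable_Sx R).measure_zero _)

/-- The sum of the norms of the gradients. -/
noncomputable def Kf (R : ℝ) (x : E2) : ℝ := ∑' i, ‖gt R i x‖

lemma measurable_Kf (R : ℝ) : Measurable (Kf R) :=
  Measurable.tsum fun i => (measurable_gt R i).norm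

lemma Kf_nonneg (R : ℝ) (x : E2) : 0 ≤ Kf R x := tsum_nonneg fun i => norm_nonneg _

lemma norm_gv_le {R : ℝ} (hR : 0 < R) {x : E2} (hx : x ∉ Sx R) : ‖gv R x‖ ≤ Kf R x :=
  norm_tsum_le_tsum_norm (summable_norm_gt hR hx)

/-- The terms of the square sum. -/
noncomputable def Qt (R : ℝ) (i : ℕ) (x : E2) : ℝ := (1 / 16) ^ i / ‖x - pt R i‖ ^ 2

lemma Qt_nonneg (R : ℝ) (i : ℕ) (x : E2) : 0 ≤ Qt R i x := by unfold Qt; positivity

lemma summable_Qt {R : ℝ} (hR : 0 < R) {x : E2} (hx : x ∉ Sx R) :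
    Summable fun i => Qt R i x := by
  obtain ⟨d, hd, h⟩ := exists_dist hR hx
  refine Summable.of_nonneg_of_le (fun i => Qt_nonneg R i x) (fun i => ?_)
    ((summable_geometric_of_lt_one (r := (1 / 16 : ℝ)) (by norm_num) (by norm_num)).div_const (d ^ 2))
  unfold Qt
  apply div_le_div_of_nonneg_left (by positivity) (by positivity)
  exact pow_le_pow_left₀ hd.le (h x (mem_ball_self hd) i) 2

lemma Kf_sq_le {R : ℝ} (hR : 0 < R) {x : E2} (hx : x ∉ Sx R) :
    Kf R x ^ 2 ≤ 4 * ∑' i, Qt R i x := by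
  set Q := ∑' i, Qt R i x with hQ
  have hQ0 : 0 ≤ Q := tsum_nonneg fun i => Qt_nonneg R i x
  have h1 : ∀ i, ‖gt R i x‖ ≤ (1 / 2) ^ i * √Q := by
    intro i
    have h2 : Qt R i x ≤ Q := (summable_Qt hR hx).le_tsum i fun j _ => Qt_nonneg R j x
    have h3 : (1 / 4) ^ i / ‖x - pt R i‖ ≤ √Q := by
      apply Real.le_sqrt_of_sq_le
      rw [div_pow, ← pow_mul, mul_comm i 2, pow_mul]
      norm_num
      unfold Qt at h2
      norm_num at h2
      exact h2
    rw [norm_gt, dl]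
    calc (1 / 8 : ℝ) ^ i / ‖x - pt R i‖ = (1 / 2) ^ i * ((1 / 4) ^ i / ‖x - pt R i‖) := by
          rw [← mul_div_assoc, ← mul_pow]; norm_num
      _ ≤ _ := mul_le_mul_of_nonneg_left h3 (by positivity)
  have hs : Summable fun i : ℕ => (1 / 2 : ℝ) ^ i * √Q :=
    (summable_geometric_of_lt_one (by norm_num) (by norm_num)).mul_right _
  have h4 : Kf R x ≤ 2 * √Q := by
    calc Kf R x ≤ ∑' i : ℕ, (1 / 2 : ℝ) ^ i * √Q := (summable_norm_gt hR hx).tsum_le_tsum h1 hs
      _ = 2 * √Q := by rw [tsum_mul_right, tsum_geometric_two]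
  calc Kf R x ^ 2 ≤ (2 * √Q) ^ 2 := pow_le_pow_left₀ (Kf_nonneg R x) h4 2
    _ = 4 * Q := by rw [mul_pow, Real.sq_sqrt hQ0]; norm_num

end Pool.Agent.H507R3
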