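import Pool.Agent.H507R3.LogPot

/-!
Square integrability of `∑ |∇vᵢ| / (1 + v)`.
-/

set_option autoImplicit false

namespace Pool.Agent.H507R3

open MeasureTheory Filter Topology Set Metric
open scoped RealInnerProductSpace ENNReal

lemma lintegral_polar (F : E2 → ℝ≥0∞) (c : E2) :
    ∫⁻ x, F x = ∫⁻ p in Ioi (0 : ℝ) ×ˢ Ioo (-Real.pi) Real.pi,
      ENNReal.ofReal p.1 * F (c + p.1 • om p.2) := by
  have h1 : ∫⁻ x, F x = ∫⁻ x, F (c + x) := (lintegral_add_left_eq_self F c).symm
  have h2 : ∫⁻ x, F (c + x) = ∫⁻ p : ℝ × ℝ, F (c + mk2 p) :=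
    (mk2_mp.lintegral_comp_emb mk2_emb (fun x => F (c + x))).symm
  rw [h1, h2, ← lintegral_comp_polarCoord_symm]
  refine setLIntegral_congr_fun (measurableSet_Ioi.prod measurableSet_Ioo) ?_
  intro p _
  simp only [smul_eq_mul]
  congr 3
  rw [polarCoord_symm_apply, mk2, om]
  ext i
  fin_cases i <;> simp

/-- The one dimensional integral. -/
lemma lintegral_one {R δ : ℝ} (hR : 0 < R) (hδ : 0 < δ) :
    ∫⁻ r in Ioo 0 (2 * R), ENNReal.ofReal (r * (1 + δ * Real.log (2 * R / r)) ^ 2)⁻¹ ≤
      ENNReal.ofReal δ⁻¹ := by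
  set g : ℝ → ℝ := fun r => if r = 0 then 0 else δ⁻¹ * (1 + δ * Real.log (2 * R / r))⁻¹ with hg
  have hlog : ∀ r ∈ Ioc 0 (2 * R), 0 ≤ Real.log (2 * R / r) := by
    intro r hr
    apply Real.log_nonneg
    rw [le_div_iff₀ hr.1]
    linarith [hr.2]
  have hder : ∀ r ∈ Ioc 0 (2 * R), HasDerivAt g ((r * (1 + δ * Real.log (2 * R / r)) ^ 2)⁻¹) r := by
    intro r hr
    have hr0 : r ≠ 0 := hr.1.ne'
    have hl := hlog r hr
    have hpos : 0 < 1 + δ * Real.log (2 * R / r) := by positivity
    have h1 : HasDerivAt (fun r : ℝ => 2 * R / r) (-(2 * R) / r ^ 2) r := by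
      have := (hasDerivAt_inv hr0).const_mul (2 * R)
      refine (this.congr_deriv ?_)
      field_simp
    have h2 := h1.log (by positivity)
    have h3 := ((h2.const_mul δ).const_add 1).inv hpos.ne'
    have h4 := h3.const_mul δ⁻¹
    have e : g =ᶠ[𝓝 r] fun r => δ⁻¹ * (1 + δ * Real.log (2 * R / r))⁻¹ := by
      filter_upwards [isOpen_ne.mem_nhds hr0] with s hs
      rw [hg]
      simp only
      rw [if_neg hs]
    refine (h4.congr_of_eventuallyEq e).congr_deriv ?_
    have hR' : R ≠ 0 := hR.ne'
    field_simp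
  have hcont : ContinuousOn g (Icc 0 (2 * R)) := by
    intro r hr
    rcases eq_or_lt_of_le hr.1 with h | h
    · subst h
      have hlim : Tendsto (fun r : ℝ => δ⁻¹ * (1 + δ * Real.log (2 * R / r))⁻¹) (𝓝[>] 0) (𝓝 0) := by
        have h1 : Tendsto (fun r : ℝ => 2 * R / r) (𝓝[>] 0) atTop := by
          have := (tendsto_inv_nhdsGT_zero (𝕜 := ℝ)).const_mul_atTop (show 0 < 2 * R by positivity)
          simpa [div_eq_mul_inv] using this
        have h2 := Real.tendsto_log_atTop.comp h1
        have h3 := (tendsto_atTop_add_const_left _ (1 : ℝ) (h2.const_mul_atTop hδ))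
        have h4 := (tendsto_inv_atTop_zero.comp h3).const_mul δ⁻¹
        simpa using h4
      have hs : Icc 0 (2 * R) ⊆ insert 0 (Ioi 0) := by
        intro r hr
        rcases eq_or_lt_of_le hr.1 with h | h
        · left; exact h.symm
        · right; exact h
      have : ContinuousWithinAt g (insert 0 (Ioi 0)) 0 := by
        rw [ContinuousWithinAt, nhdsWithin_insert, tendsto_sup]
        have g0 : g 0 = 0 := by simp [hg]
        rw [g0]
        constructor
        · rw [tendsto_pure_left]
          intro s hs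
          rw [g0]
          exact mem_of_mem_nhds hs
        · refine hlim.congr' ?_
          filter_upwards [self_mem_nhdsWithin] with r hr
          rw [hg]
          simp only
          rw [if_neg (mem_Ioi.mp hr).ne']
      exact this.mono hs
    · exact (hder r ⟨h, hr.2⟩).continuousAt.continuousWithinAt
  have hle : (0 : ℝ) ≤ 2 * R := by positivity
  have hnn : ∀ r ∈ Ioo 0 (2 * R), 0 ≤ (r * (1 + δ * Real.log (2 * R / r)) ^ 2)⁻¹ := by
    intro r hr
    have := hr.1
    positivity
  have hint := intervalIntegral.integrableOn_deriv_of_nonneg hcont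
    (fun r hr => hder r ⟨hr.1, hr.2.le⟩) hnn
  have hftc := intervalIntegral.integral_eq_sub_of_hasDerivAt_of_le hle hcont
    (fun r hr => hder r ⟨hr.1, hr.2.le⟩) ((intervalIntegrable_iff_integrableOn_Ioc_of_le hle).mpr hint)
  rw [intervalIntegral.integral_of_le hle, integral_Ioc_eq_integral_Ioo] at hftc
  rw [← ofReal_integral_eq_lintegral_ofReal (hint.mono_set Ioo_subset_Ioc_self)]
  · rw [hftc]
    have g0 : g 0 = 0 := by simp [hg]
    have g1 : g (2 * R) = δ⁻¹ := by
      rw [hg]
      simp only
      rw [if_neg (by positivity), div_self (by positivity)]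
      simp
    rw [g0, g1, sub_zero]
  · filter_upwards [ae_restrict_mem measurableSet_Ioo] with r hr using hnn r hr

/-- The two dimensional integral. -/
lemma lintegral_two {R δ : ℝ} (hR : 0 < R) (hδ : 0 < δ) (c : E2) :
    ∫⁻ x in ball c (2 * R), ENNReal.ofReal
      (‖x - c‖ ^ 2 * (1 + δ * Real.log (2 * R / ‖x - c‖)) ^ 2)⁻¹ ≤
      ENNReal.ofReal (2 * Real.pi * δ⁻¹) := by
  rw [← lintegral_indicator measurableSet_ball, lintegral_polar _ c]
  calc ∫⁻ p in Ioi (0 : ℝ) ×ˢ Ioo (-Real.pi) Real.pi, ENNReal.ofReal p.1 *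
        (ball c (2 * R)).indicator (fun x => ENNReal.ofReal
        (‖x - c‖ ^ 2 * (1 + δ * Real.log (2 * R / ‖x - c‖)) ^ 2)⁻¹) (c + p.1 • om p.2)
      = ∫⁻ p in Ioi (0 : ℝ) ×ˢ Ioo (-Real.pi) Real.pi,
        (Ioo 0 (2 * R)).indicator (fun r : ℝ => ENNReal.ofReal
          (r * (1 + δ * Real.log (2 * R / r)) ^ 2)⁻¹) p.1 := by
        refine setLIntegral_congr_fun (measurableSet_Ioi.prod measurableSet_Ioo) ?_
        intro p hp
        have hp1 : 0 < p.1 := hp.1
        have e1 : ‖(c + p.1 • om p.2) - c‖ = p.1 := by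
          rw [add_sub_cancel_left, norm_smul, norm_om, mul_one, Real.norm_eq_abs, abs_of_pos hp1]
        by_cases h : p.1 < 2 * R
        · simp only
          rw [indicator_of_mem (by rw [mem_ball, dist_eq_norm, e1]; exact h),
            indicator_of_mem (show p.1 ∈ Ioo 0 (2 * R) from ⟨hp1, h⟩), e1,
            ← ENNReal.ofReal_mul hp1.le]
          congr 1
          rw [mul_inv, mul_inv]
          field_simp
        · simp only
          rw [indicator_of_notMem (by rw [mem_ball, dist_eq_norm, e1]; exact h),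
            indicator_of_notMem (fun hh => h hh.2), mul_zero]
    _ = ∫⁻ r in Ioi (0 : ℝ), ∫⁻ θ in Ioo (-Real.pi) Real.pi,
        (Ioo 0 (2 * R)).indicator (fun r : ℝ => ENNReal.ofReal
          (r * (1 + δ * Real.log (2 * R / r)) ^ 2)⁻¹) r := by
        rw [Measure.volume_eq_prod, ← Measure.prod_restrict, lintegral_prod]
        apply Measurable.aemeasurable
        refine Measurable.comp (Measurable.indicator ?_ measurableSet_Ioo) measurable_fst
        apply ENNReal.measurable_ofReal.comp
        apply Measurable.inv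
        apply measurable_id.mul
        apply Measurable.pow_const
        apply measurable_const.add
        apply measurable_const.mul
        exact Real.measurable_log.comp (measurable_const.div measurable_id)
    _ = ENNReal.ofReal (2 * Real.pi) * ∫⁻ r in Ioi (0 : ℝ),
        (Ioo 0 (2 * R)).indicator (fun r : ℝ => ENNReal.ofReal
          (r * (1 + δ * Real.log (2 * R / r)) ^ 2)⁻¹) r := by
        rw [← lintegral_const_mul' _ _ ENNReal.ofReal_ne_top]
        refine lintegral_congr fun r => ?_
        rw [lintegral_const, Measure.restrict_apply_univ, Real.volume_Ioo, mul_comm]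
        congr 2
        ring
    _ = ENNReal.ofReal (2 * Real.pi) * ∫⁻ r in Ioo 0 (2 * R), ENNReal.ofReal
          (r * (1 + δ * Real.log (2 * R / r)) ^ 2)⁻¹ := by
        rw [lintegral_indicator measurableSet_Ioo, Measure.restrict_restrict measurableSet_Ioo]
        congr 3
        ext r
        simp only [mem_inter_iff, mem_Ioo, mem_Ioi]
        tauto
    _ ≤ ENNReal.ofReal (2 * Real.pi) * ENNReal.ofReal δ⁻¹ := by
        gcongr
        exact lintegral_one hR hδ
    _ = _ := by rw [← ENNReal.ofReal_mul (by positivity)]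

/-- The majorant. -/
noncomputable def Mf (R : ℝ) (x : E2) : ℝ := Kf R x / (1 + vp R x)

lemma measurable_Mf (R : ℝ) : Measurable (Mf R) :=
  (measurable_Kf R).div (measurable_const.add (measurable_vp R))

/-- The terms of the bound. -/
noncomputable def Ft (R : ℝ) (i : ℕ) (x : E2) : ℝ≥0∞ := ENNReal.ofReal (4 * (1 / 16) ^ i) *
  ENNReal.ofReal (‖x - pt R i‖ ^ 2 * (1 + dl i * Real.log (2 * R / ‖x - pt R i‖)) ^ 2)⁻¹

lemma Mf_sq_le {R : ℝ} (hR : 0 < R) {x : E2} (hx : x ∈ ball (0 : E2) R) (hS : x ∉ Sx R) :
    ENNReal.ofReal (Mf R x ^ 2) ≤ ∑' i, Ft R i x := by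
  have hv := vp_nonneg hR hx
  have h1 : Mf R x ^ 2 ≤ ∑' i, (4 * Qt R i x) / (1 + vp R x) ^ 2 := by
    rw [Mf, div_pow, tsum_div_const, tsum_mul_left]
    exact div_le_div_of_nonneg_right (Kf_sq_le hR hS) (by positivity)
  have hs : Summable fun i => (4 * Qt R i x) / (1 + vp R x) ^ 2 :=
    ((summable_Qt hR hS).mul_left 4).div_const _
  refine (ENNReal.ofReal_le_ofReal h1).trans ?_
  rw [ENNReal.ofReal_tsum_of_nonneg (fun i => div_nonneg (mul_nonneg (by norm_num)
    (Qt_nonneg R i x)) (by positivity)) hs]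
  refine ENNReal.tsum_le_tsum fun i => ?_
  rw [Ft, ← ENNReal.ofReal_mul (by positivity)]
  apply ENNReal.ofReal_le_ofReal
  have h2 := vt_le_vp hR hx hS i
  have h3 := vt_nonneg hR hx i
  rw [vt] at h2 h3
  rw [Qt, mul_inv, mul_div_assoc', div_div, div_eq_mul_inv, mul_inv]
  apply mul_le_mul_of_nonneg_left _ (by positivity)
  apply mul_le_mul_of_nonneg_left _ (by positivity)
  apply inv_anti₀ (by positivity)
  exact pow_le_pow_left₀ (by positivity) (by linarith) 2

lemma lintegral_Mf {R : ℝ} (hR : 0 < R) :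
    ∫⁻ x in ball (0 : E2) R, ENNReal.ofReal (Mf R x ^ 2) < ∞ := by
  calc ∫⁻ x in ball (0 : E2) R, ENNReal.ofReal (Mf R x ^ 2)
      ≤ ∫⁻ x in ball (0 : E2) R, ∑' i, Ft R i x := by
        apply lintegral_mono_ae
        filter_upwards [ae_restrict_mem measurableSet_ball, ae_restrict_of_ae (ae_notMem_Sx R)]
          with x hx hS using Mf_sq_le hR hx hS
    _ = ∑' i, ∫⁻ x in ball (0 : E2) R, Ft R i x := by
        rw [lintegral_tsum]
        intro i
        apply Measurable.aemeasurable
        unfold Ft
        refine Measurable.const_mul ?_ _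
        apply ENNReal.measurable_ofReal.comp
        apply Measurable.inv
        have h : Measurable fun x : E2 => ‖x - pt R i‖ := (measurable_id.sub_const _).norm
        apply (h.pow_const 2).mul
        apply Measurable.pow_const
        apply measurable_const.add
        apply measurable_const.mul
        exact Real.measurable_log.comp (measurable_const.div h)
    _ ≤ ∑' i : ℕ, ENNReal.ofReal (8 * Real.pi * (1 / 2) ^ i) := by
        refine ENNReal.tsum_le_tsum fun i => ?_
        unfold Ft
        rw [lintegral_const_mul' _ _ ENNReal.ofReal_ne_top]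
        have hsub : ball (0 : E2) R ⊆ ball (pt R i) (2 * R) := by
          intro x hx
          rw [mem_ball_zero_iff] at hx
          rw [mem_ball, dist_eq_norm]
          linarith [dist_pt_le hR x i]
        calc _ ≤ ENNReal.ofReal (4 * (1 / 16) ^ i) * ENNReal.ofReal (2 * Real.pi * (dl i)⁻¹) := by
              gcongr
              exact (lintegral_mono_set hsub).trans (lintegral_two hR (dl_pos i) _)
          _ = _ := by
              rw [← ENNReal.ofReal_mul (by positivity)]
              congr 1
              rw [dl]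
              have : ((1 : ℝ) / 16) ^ i * ((1 / 8) ^ i)⁻¹ = (1 / 2) ^ i := by
                rw [← inv_pow, ← mul_pow]; norm_num
              calc _ = 8 * Real.pi * (((1 : ℝ) / 16) ^ i * ((1 / 8) ^ i)⁻¹) := by ring
                _ = _ := by rw [this]
    _ < ∞ := by
        rw [← ENNReal.ofReal_tsum_of_nonneg (fun i => by positivity)
          ((summable_geometric_of_lt_one (by norm_num) (by norm_num)).mul_left _)]
        exact ENNReal.ofReal_lt_top

lemma memLp_Mf {R : ℝ} (hR : 0 < R) : MemLp (Mf R) 2 (volume.restrict (ball (0 : E2) R)) := by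
  rw [memLp_two_iff_integrable_sq (measurable_Mf R).aestronglyMeasurable]
  refine ⟨((measurable_Mf R).pow_const 2).aestronglyMeasurable, ?_⟩
  rw [hasFiniteIntegral_iff_ofReal (Eventually.of_forall fun x => sq_nonneg _)]
  exact lintegral_Mf hR

end Pool.Agent.H507R3
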