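import Pool.Agent.H507R3.PCData

/-!
# Kernel-checked integer identities and inequalities for the data
-/

set_option autoImplicit false
set_option maxRecDepth 100000

namespace Pool.Agent.H507R3.PC

def piA (i : Fin 24) : Fin 24 := (piL.getD i (0, 0)).1
def piB (i : Fin 24) : Fin 24 := (piL.getD i (0, 0)).2
def sZ (i : Fin 24) : ℤ := sL.getD i 1
def tN (i : Fin 24) : ℤ := thN.getD i 1
def tD (i : Fin 24) : ℤ := thD.getD i 1
def dZ (i : Fin 24) (c : Fin 2) : ℤ := (dL.getD i []).getD c 0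
def eZ (i : Fin 24) (c : Fin 2) : ℤ := (eL.getD i []).getD c 0

theorem chk_ineq : ∀ i j : Fin 24, i ≠ j →
   0 < fZ j - fZ i - (∑ r : Fin 10, ∑ c : Fin 2, YZ i r c * (XZ j r c - XZ i r c))
     - 100000000 * ∑ r : Fin 10, ∑ s : Fin 10, pZ i r s * ((XZ j r 0 - XZ i r 0) * (XZ j s 1 - XZ i s 1)
       - (XZ j r 1 - XZ i r 1) * (XZ j s 0 - XZ i s 0)) := by
  decide +kernel

theorem chk_Y0 : ∀ (i : Fin 24) (k : Fin 10), YZ i k 0 = ∑ l : Fin 10, BZ k l * XZ i l 1 := by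
  decide +kernel

theorem chk_Y1 : ∀ (i : Fin 24) (k : Fin 10), YZ i k 1 = - ∑ l : Fin 10, BZ k l * XZ i l 0 := by
  decide +kernel

theorem chk_Z0 : ∀ (i : Fin 24) (a : Fin 2), (∑ k : Fin 10, CZ a k * XZ i k 1) + ZZ a 1
    = (∑ k : Fin 10, XZ i k a * YZ i k 0) - (if a = 0 then fZ i else 0) := by
  decide +kernel

theorem chk_Z1 : ∀ (i : Fin 24) (a : Fin 2), -((∑ k : Fin 10, CZ a k * XZ i k 0) + ZZ a 0)
    = (∑ k : Fin 10, XZ i k a * YZ i k 1) - (if a = 1 then fZ i else 0) := by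
  decide +kernel

theorem chk_P : ∀ (i : Fin 24) (r : Fin 10) (c : Fin 2),
    6 * PZ i r c = (6 - sZ i) * AZ (piA i) r c + sZ i * AZ (piB i) r c := by
  decide +kernel

theorem chk_s : ∀ i : Fin 24, 0 < sZ i ∧ sZ i < 6 := by decide +kernel

theorem chk_A : ∀ (i : Fin 24) (r : Fin 10) (c : Fin 2),
    (tN i + tD i) * AZ i r c = tD i * XZ i r c + tN i * PZ i r c := by
  decide +kernel

theorem chk_t : ∀ i : Fin 24, 0 < tN i ∧ 0 < tD i := by decide +kernel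

theorem chk_d : ∀ (i : Fin 24) (r : Fin 10),
    (PZ i r 0 - XZ i r 0) * dZ i 1 = (PZ i r 1 - XZ i r 1) * dZ i 0 := by
  decide +kernel

theorem chk_d0 : ∀ i : Fin 24, 0 < dZ i 0 ^ 2 + dZ i 1 ^ 2 := by decide +kernel

theorem chk_e : ∀ (i : Fin 24) (r : Fin 10),
    (AZ (piB i) r 0 - AZ (piA i) r 0) * eZ (piA i) 1
      = (AZ (piB i) r 1 - AZ (piA i) r 1) * eZ (piA i) 0 := by
  decide +kernel

theorem chk_e0 : ∀ i : Fin 24, 0 < eZ i 0 ^ 2 + eZ i 1 ^ 2 := by decide +kernel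

theorem chk_not : -((∑ k : Fin 10, CZ 0 k * PZ 0 k 0) + ZZ 0 0)
    ≠ ∑ k : Fin 10, PZ 0 k 0 * (- ∑ l : Fin 10, BZ k l * PZ 0 l 0) := by
  decide +kernel

end Pool.Agent.H507R3.PC
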