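import Pool.Agent.H507R3.PCMax

/-!
# Strictly polyconvex functions on `n × 2` matrices with prescribed values and gradients
-/

set_option autoImplicit false
open Set Filter Topology

namespace Pool.Agent.H507R3.PC

/-- Index set of all minors of a `10 × 2` matrix. -/
abbrev Idx : Type := (Σ k : Fin (min 10 2),
        {r : Fin (k.1 + 1) → Fin 10 // StrictMono r} ×
        {c : Fin (k.1 + 1) → Fin 2 // StrictMono c})

/-- `10 × 2` matrices -/
abbrev Mt : Type := Fin 10 → Fin 2 → ℝ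

/-- all minors -/
noncomputable def Phi (Y : Mt) : Idx → ℝ :=
  fun p => Matrix.det ((Matrix.of Y).submatrix p.2.1.1 p.2.2.1)

def e1 (r : Fin 10) (c : Fin 2) : Idx :=
  ⟨⟨0, by decide⟩, ⟨fun _ => r, fun a b h => by
      have : a = b := Subsingleton.elim (α := Fin 1) a b
      exact absurd h (by rw [this]; exact lt_irrefl _)⟩,
    ⟨fun _ => c, fun a b h => by
      have : a = b := Subsingleton.elim (α := Fin 1) a b
      exact absurd h (by rw [this]; exact lt_irrefl _)⟩⟩

lemma sm2 {m : ℕ} {r s : Fin m} (h : r < s) : StrictMono (![r, s] : Fin 2 → Fin m) := by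
  intro a b hab
  match a, b, hab with
  | 0, 0, hab => exact absurd hab (lt_irrefl _)
  | 0, 1, _ => simpa using h
  | 1, 0, hab => exact absurd hab (by decide)
  | 1, 1, hab => exact absurd hab (lt_irrefl _)

def e2 (r s : Fin 10) (h : r < s) : Idx :=
  ⟨⟨1, by decide⟩, ⟨![r, s], sm2 h⟩, ⟨![0, 1], sm2 (by decide)⟩⟩

lemma Phi_e1 (Y : Mt) (r : Fin 10) (c : Fin 2) : Phi Y (e1 r c) = Y r c := by
  show Matrix.det (n := Fin 1) ((Matrix.of Y).submatrix (fun _ => r) (fun _ => c)) = Y r c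
  rw [Matrix.det_fin_one]; rfl

lemma Phi_e2 (Y : Mt) (r s : Fin 10) (h : r < s) :
    Phi Y (e2 r s h) = Y r 0 * Y s 1 - Y r 1 * Y s 0 := by
  show Matrix.det (n := Fin 2) ((Matrix.of Y).submatrix ![r, s] ![0, 1]) = _
  rw [Matrix.det_fin_two]; rfl

/-- antisymmetric extension of the `2 × 2` minors -/
noncomputable def mv (v : Idx → ℝ) (r s : Fin 10) : ℝ :=
  if h : r < s then v (e2 r s h) else if h' : s < r then - v (e2 s r h') else 0

lemma mv_Phi (Y : Mt) (r s : Fin 10) : mv (Phi Y) r s = Y r 0 * Y s 1 - Y r 1 * Y s 0 := by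
  unfold mv
  split_ifs with h h'
  · exact Phi_e2 Y r s h
  · rw [Phi_e2]; ring
  · have : r = s := le_antisymm (not_lt.mp h') (not_lt.mp h)
    subst this; ring

lemma mv_add (u w : Idx → ℝ) (a b : ℝ) (r s : Fin 10) :
    mv (a • u + b • w) r s = a * mv u r s + b * mv w r s := by
  unfold mv
  split_ifs
  · simp
  · simp; ring
  · simp

/-- the affine function attached to a value, a gradient and multipliers at `A` -/
noncomputable def aF (A Y : Mt) (f : ℝ) (p : Fin 10 → Fin 10 → ℝ) (v : Idx → ℝ) : ℝ :=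
  f + ∑ r, ∑ c, Y r c * (v (e1 r c) - A r c)
    + ∑ r, ∑ s, p r s * (mv v r s - v (e1 r 0) * A s 1 - A r 0 * v (e1 s 1)
        + v (e1 r 1) * A s 0 + A r 1 * v (e1 s 0) + (A r 0 * A s 1 - A r 1 * A s 0))

lemma aF_Phi (A Y : Mt) (f : ℝ) (p : Fin 10 → Fin 10 → ℝ) (Z : Mt) :
    aF A Y f p (Phi Z) = f + ∑ r, ∑ c, Y r c * (Z r c - A r c)
      + ∑ r, ∑ s, p r s * ((Z r 0 - A r 0) * (Z s 1 - A s 1) - (Z r 1 - A r 1) * (Z s 0 - A s 0)) := by
  unfold aF
  simp only [Phi_e1, mv_Phi]
  congr 1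
  apply Finset.sum_congr rfl; intro r _
  apply Finset.sum_congr rfl; intro s _
  ring

lemma aF_aff (A Y : Mt) (f : ℝ) (p : Fin 10 → Fin 10 → ℝ) : IsAff (aF A Y f p) := by
  intro u w s t hst
  have ht : t = 1 - s := by linarith
  unfold aF
  simp only [mv_add, Pi.add_apply, Pi.smul_apply, smul_eq_mul]
  have e1' : ∑ r, ∑ c, Y r c * (s * u (e1 r c) + t * w (e1 r c) - A r c)
      = s * ∑ r, ∑ c, Y r c * (u (e1 r c) - A r c) + t * ∑ r, ∑ c, Y r c * (w (e1 r c) - A r c) := by
    simp only [Finset.mul_sum]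
    rw [← Finset.sum_add_distrib]
    apply Finset.sum_congr rfl; intro r _
    rw [← Finset.sum_add_distrib]
    apply Finset.sum_congr rfl; intro c _
    rw [ht]; ring
  rw [e1']
  have e2' : ∑ r, ∑ s', p r s' * (s * mv u r s' + t * mv w r s'
        - (s * u (e1 r 0) + t * w (e1 r 0)) * A s' 1 - A r 0 * (s * u (e1 s' 1) + t * w (e1 s' 1))
        + (s * u (e1 r 1) + t * w (e1 r 1)) * A s' 0 + A r 1 * (s * u (e1 s' 0) + t * w (e1 s' 0))
        + (A r 0 * A s' 1 - A r 1 * A s' 0))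
      = s * ∑ r, ∑ s', p r s' * (mv u r s' - u (e1 r 0) * A s' 1 - A r 0 * u (e1 s' 1)
        + u (e1 r 1) * A s' 0 + A r 1 * u (e1 s' 0) + (A r 0 * A s' 1 - A r 1 * A s' 0))
      + t * ∑ r, ∑ s', p r s' * (mv w r s' - w (e1 r 0) * A s' 1 - A r 0 * w (e1 s' 1)
        + w (e1 r 1) * A s' 0 + A r 1 * w (e1 s' 0) + (A r 0 * A s' 1 - A r 1 * A s' 0)) := by
    simp only [Finset.mul_sum]
    rw [← Finset.sum_add_distrib]
    apply Finset.sum_congr rfl; intro r _
    rw [← Finset.sum_add_distrib]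
    apply Finset.sum_congr rfl; intro c _
    rw [ht]; ring
  rw [e2', ht]
  ring

section norm

variable [Fintype Idx]

lemma mv_contDiff (r s : Fin 10) : ContDiff ℝ 1 (fun v : Idx → ℝ => mv v r s) := by
  unfold mv
  split_ifs
  · exact contDiff_apply ℝ ℝ _
  · exact (contDiff_apply ℝ ℝ _).neg
  · exact contDiff_const

lemma aF_contDiff (A Y : Mt) (f : ℝ) (p : Fin 10 → Fin 10 → ℝ) : ContDiff ℝ 1 (aF A Y f p) := by
  unfold aF
  have hv : ∀ k : Idx, ContDiff ℝ 1 (fun v : Idx → ℝ => v k) := fun k => contDiff_apply ℝ ℝ k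
  have hm := mv_contDiff
  apply ContDiff.add
  · apply ContDiff.add contDiff_const
    apply ContDiff.sum; intro r _
    apply ContDiff.sum; intro c _
    exact contDiff_const.mul ((hv _).sub contDiff_const)
  · apply ContDiff.sum; intro r _
    apply ContDiff.sum; intro s _
    apply contDiff_const.mul
    exact ((((((hm r s).sub ((hv _).mul contDiff_const)).sub (contDiff_const.mul (hv _))).add
      ((hv _).mul contDiff_const)).add (contDiff_const.mul (hv _))).add contDiff_const)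

lemma Phi_contDiff (k : Idx) : ContDiff ℝ 1 (fun Z : Mt => Phi Z k) := by
  unfold Phi
  simp only [Matrix.det_apply']
  apply ContDiff.sum; intro σ _
  apply contDiff_const.mul
  apply contDiff_prod
  intro i _
  simp only [Matrix.submatrix_apply, Matrix.of_apply]
  exact (contDiff_apply ℝ ℝ _).comp (contDiff_apply ℝ (Fin 2 → ℝ) _)

/-- sum of squares -/
noncomputable def sq (v : Idx → ℝ) : ℝ := ∑ k, v k ^ 2

lemma sq_strict {ε : ℝ} (hε : 0 < ε) : StrictConvexOn ℝ univ (fun v : Idx → ℝ => ε * sq v) := by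
  refine ⟨convex_univ, fun u _ w _ huw s t hs ht hst => ?_⟩
  simp only [smul_eq_mul, sq, Pi.add_apply, Pi.smul_apply]
  have key : s * ∑ k, u k ^ 2 + t * ∑ k, w k ^ 2 - ∑ k, (s * u k + t * w k)^2
      = s * t * ∑ k, (u k - w k)^2 := by
    simp only [Finset.mul_sum]
    rw [← Finset.sum_add_distrib, ← Finset.sum_sub_distrib]
    apply Finset.sum_congr rfl; intro k _
    have : t = 1 - s := by linarith
    rw [this]; ring
  have hpos : 0 < ∑ k, (u k - w k)^2 := by
    obtain ⟨k, hk⟩ := Function.ne_iff.mp huw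
    apply Finset.sum_pos' (fun k _ => sq_nonneg _)
    exact ⟨k, Finset.mem_univ k, by have := sub_ne_zero.mpr hk; positivity⟩
  have h2 : 0 < ε * (s * t * ∑ k, (u k - w k)^2) := by positivity
  rw [← key] at h2
  nlinarith [h2]

lemma sq_contDiff : ContDiff ℝ 1 (sq : (Idx → ℝ) → ℝ) := by
  unfold sq
  apply ContDiff.sum; intro k _
  exact (contDiff_apply ℝ ℝ k).pow 2

/-- the affine function with the linearisation of `ε sq` removed -/
noncomputable def bF (ε : ℝ) (a : (Idx → ℝ) → ℝ) (w : Idx → ℝ) (v : Idx → ℝ) : ℝ :=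
  a v - ε * ∑ k, (2 * w k * v k - w k ^ 2)

lemma bF_aff {ε : ℝ} {a : (Idx → ℝ) → ℝ} (ha : IsAff a) (w : Idx → ℝ) : IsAff (bF ε a w) := by
  intro u v s t hst
  unfold bF
  rw [ha u v s t hst]
  simp only [Pi.add_apply, Pi.smul_apply, smul_eq_mul]
  have : ∑ k, (2 * w k * (s * u k + t * v k) - w k ^ 2)
      = s * ∑ k, (2 * w k * u k - w k ^ 2) + t * ∑ k, (2 * w k * v k - w k ^ 2) := by
    simp only [Finset.mul_sum]
    rw [← Finset.sum_add_distrib]
    apply Finset.sum_congr rfl; intro k _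
    have : t = 1 - s := by linarith
    rw [this]; ring
  rw [this]; ring

lemma bF_contDiff {ε : ℝ} {a : (Idx → ℝ) → ℝ} (ha : ContDiff ℝ 1 a) (w : Idx → ℝ) :
    ContDiff ℝ 1 (bF ε a w) := by
  unfold bF
  apply ha.sub
  apply contDiff_const.mul
  apply ContDiff.sum; intro k _
  exact (contDiff_const.mul (contDiff_apply ℝ ℝ k)).sub contDiff_const

lemma bF_add_sq (ε : ℝ) (a : (Idx → ℝ) → ℝ) (w v : Idx → ℝ) :
    ε * sq v + bF ε a w v = a v + ε * ∑ k, (v k - w k)^2 := by
  unfold bF sq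
  have : ∑ k, (v k - w k)^2 = ∑ k, v k ^ 2 - ∑ k, (2 * w k * v k - w k ^ 2) := by
    rw [← Finset.sum_sub_distrib]
    apply Finset.sum_congr rfl; intro k _; ring
  rw [this]; ring

lemma polyconvex_interp {κ : Type*} [Fintype κ] [Nonempty κ] (X Y : κ → Mt) (f : κ → ℝ)
    (p : κ → Fin 10 → Fin 10 → ℝ)
    (hpos : ∀ i j, i ≠ j → 0 < f j - f i - (∑ r, ∑ c, Y i r c * (X j r c - X i r c))
      - ∑ r, ∑ s, p i r s * ((X j r 0 - X i r 0) * (X j s 1 - X i s 1)
          - (X j r 1 - X i r 1) * (X j s 0 - X i s 0))) :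
    ∃ g : (Idx → ℝ) → ℝ, StrictConvexOn ℝ univ g ∧ ContDiff ℝ 1 g ∧
      ∀ j, g (Phi (X j)) = f j ∧
        ∀ E : Mt, fderiv ℝ (fun Z : Mt => g (Phi Z)) (X j) E = ∑ r, ∑ c, Y j r c * E r c := by
  classical
  -- choose ε
  obtain ⟨ε, hε, hε0⟩ : ∃ ε : ℝ, (∀ q : κ × κ, q.1 ≠ q.2 →
      ε * ∑ k, (Phi (X q.2) k - Phi (X q.1) k)^2
        < f q.2 - aF (X q.1) (Y q.1) (f q.1) (p q.1) (Phi (X q.2))) ∧ 0 < ε := by
    have h1 : ∀ᶠ ε in 𝓝[>] (0:ℝ), ∀ q : κ × κ, q.1 ≠ q.2 →
      ε * ∑ k, (Phi (X q.2) k - Phi (X q.1) k)^2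
        < f q.2 - aF (X q.1) (Y q.1) (f q.1) (p q.1) (Phi (X q.2)) := by
      rw [eventually_all]
      intro q
      by_cases hq : q.1 = q.2
      · exact Eventually.of_forall fun γ h => absurd hq h
      · have hpos' : 0 < f q.2 - aF (X q.1) (Y q.1) (f q.1) (p q.1) (Phi (X q.2)) := by
          rw [aF_Phi]
          have := hpos q.1 q.2 hq
          linarith
        have hc : Tendsto (fun ε : ℝ => ε * ∑ k, (Phi (X q.2) k - Phi (X q.1) k)^2) (𝓝 0)
            (𝓝 (0 * ∑ k, (Phi (X q.2) k - Phi (X q.1) k)^2)) :=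
          (continuous_id.mul continuous_const).tendsto 0
        rw [zero_mul] at hc
        filter_upwards [eventually_nhdsWithin_of_eventually_nhds (hc.eventually_lt_const hpos')]
          with ε hε _
        exact hε
    obtain ⟨ε, h2, h3⟩ := (h1.and self_mem_nhdsWithin).exists
    exact ⟨ε, h2, h3⟩
  set a : κ → (Idx → ℝ) → ℝ := fun i => bF ε (aF (X i) (Y i) (f i) (p i)) (Phi (X i)) with hadef
  have haff : ∀ i, IsAff (a i) := fun i => bF_aff (aF_aff _ _ _ _) _
  have hcd : ∀ i, ContDiff ℝ 1 (a i) := fun i => bF_contDiff (aF_contDiff _ _ _ _) _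
  have haF : ∀ j, aF (X j) (Y j) (f j) (p j) (Phi (X j)) = f j := by
    intro j; rw [aF_Phi]; simp
  have hgap : ∀ i j, i ≠ j → a i (Phi (X j)) < a j (Phi (X j)) := by
    intro i j hij
    have h1 := bF_add_sq ε (aF (X i) (Y i) (f i) (p i)) (Phi (X i)) (Phi (X j))
    have h2 := bF_add_sq ε (aF (X j) (Y j) (f j) (p j)) (Phi (X j)) (Phi (X j))
    rw [haF j] at h2
    have h3 := hε (i, j) hij
    simp only at h3
    have h4 : ∑ k, (Phi (X j) k - Phi (X j) k)^2 = 0 := by simp
    rw [h4, mul_zero, add_zero] at h2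
    simp only [hadef]
    linarith
  obtain ⟨h, hconv, hcd1, hev⟩ := exists_convex_interp a haff hcd (fun j => Phi (X j)) hgap
  have hgcd : ContDiff ℝ 1 (fun v : Idx → ℝ => ε * sq v + h v) :=
    (contDiff_const.mul sq_contDiff).add hcd1
  refine ⟨fun v => ε * sq v + h v, (sq_strict hε0).add_convexOn hconv, hgcd, fun j => ?_⟩
  have hPc : ContDiff ℝ 1 Phi := contDiff_pi.mpr fun k => Phi_contDiff k
  constructor
  · simp only
    rw [(hev j).self_of_nhds]
    simp only [hadef]
    rw [bF_add_sq, haF j]; simp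
  · intro E
    have hG : ContDiff ℝ 1 (fun Z : Mt => ε * sq (Phi Z) + h (Phi Z)) := hgcd.comp hPc
    have hGd : HasFDerivAt (fun Z : Mt => ε * sq (Phi Z) + h (Phi Z))
        (fderiv ℝ (fun Z : Mt => ε * sq (Phi Z) + h (Phi Z)) (X j)) (X j) :=
      (hG.differentiable (by norm_num) (X j)).hasFDerivAt
    have hline : HasDerivAt (fun t : ℝ => X j + t • E) E 0 := by
      have := ((hasDerivAt_id (0:ℝ)).smul_const E).const_add (X j)
      simpa using this
    have hl0 : X j + (0:ℝ) • E = X j := by simp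
    have hcomp : HasDerivAt (fun t : ℝ => ε * sq (Phi (X j + t • E)) + h (Phi (X j + t • E)))
        (fderiv ℝ (fun Z : Mt => ε * sq (Phi Z) + h (Phi Z)) (X j) E) 0 := by
      have hGd' : HasFDerivAt (fun Z : Mt => ε * sq (Phi Z) + h (Phi Z))
        (fderiv ℝ (fun Z : Mt => ε * sq (Phi Z) + h (Phi Z)) (X j)) (X j + (0:ℝ) • E) := by
        rw [hl0]; exact hGd
      exact hGd'.comp_hasDerivAt 0 hline
    -- explicit formula near 0
    have hevt : (fun t : ℝ => ε * sq (Phi (X j + t • E)) + h (Phi (X j + t • E)))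
        =ᶠ[𝓝 0] fun t => f j + t * (∑ r, ∑ c, Y j r c * E r c)
          + t^2 * (∑ r, ∑ s, p j r s * (E r 0 * E s 1 - E r 1 * E s 0))
          + ε * ∑ k, (Phi (X j + t • E) k - Phi (X j) k)^2 := by
      have hcont : Tendsto (fun t : ℝ => Phi (X j + t • E)) (𝓝 0) (𝓝 (Phi (X j))) := by
        have hc0 : Continuous (fun t : ℝ => X j + t • E) := by fun_prop
        have h1 : Continuous fun t : ℝ => Phi (X j + t • E) := hPc.continuous.comp hc0
        have := h1.tendsto 0
        simpa [hl0] using this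
      filter_upwards [hcont.eventually (hev j)] with t ht
      rw [ht]
      simp only [hadef]
      rw [bF_add_sq, aF_Phi]
      congr 1
      have e1' : ∑ r, ∑ c, Y j r c * ((X j + t • E) r c - X j r c)
          = t * ∑ r, ∑ c, Y j r c * E r c := by
        simp only [Finset.mul_sum]
        apply Finset.sum_congr rfl; intro r _
        apply Finset.sum_congr rfl; intro c _
        simp only [Pi.add_apply, Pi.smul_apply, smul_eq_mul]; ring
      have e2' : ∑ r, ∑ s, p j r s * (((X j + t • E) r 0 - X j r 0) * ((X j + t • E) s 1 - X j s 1)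
          - ((X j + t • E) r 1 - X j r 1) * ((X j + t • E) s 0 - X j s 0))
          = t^2 * ∑ r, ∑ s, p j r s * (E r 0 * E s 1 - E r 1 * E s 0) := by
        simp only [Finset.mul_sum]
        apply Finset.sum_congr rfl; intro r _
        apply Finset.sum_congr rfl; intro c _
        simp only [Pi.add_apply, Pi.smul_apply, smul_eq_mul]; ring
      rw [e1', e2']
    have hd2 : HasDerivAt (fun t : ℝ => f j + t * (∑ r, ∑ c, Y j r c * E r c)
          + t^2 * (∑ r, ∑ s, p j r s * (E r 0 * E s 1 - E r 1 * E s 0))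
          + ε * ∑ k, (Phi (X j + t • E) k - Phi (X j) k)^2)
          (∑ r, ∑ c, Y j r c * E r c) 0 := by
      have k1 : HasDerivAt (fun t : ℝ => f j + t * (∑ r, ∑ c, Y j r c * E r c))
          (∑ r, ∑ c, Y j r c * E r c) 0 := by
        have := ((hasDerivAt_id (0:ℝ)).mul_const (∑ r, ∑ c, Y j r c * E r c)).const_add (f j)
        simpa using this
      have k2 : HasDerivAt (fun t : ℝ => t^2 * (∑ r, ∑ s, p j r s * (E r 0 * E s 1 - E r 1 * E s 0)))
          0 0 := by
        have := (hasDerivAt_pow 2 (0:ℝ)).mul_const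
          (∑ r, ∑ s, p j r s * (E r 0 * E s 1 - E r 1 * E s 0))
        simpa using this
      have k3 : HasDerivAt (fun t : ℝ => ε * ∑ k, (Phi (X j + t • E) k - Phi (X j) k)^2) 0 0 := by
        have k4 : ∀ k ∈ (Finset.univ : Finset Idx),
            HasDerivAt (fun t : ℝ => (Phi (X j + t • E) k - Phi (X j) k)^2) 0 0 := by
          intro k _
          have k5 : HasDerivAt (fun t : ℝ => Phi (X j + t • E) k)
              (fderiv ℝ (fun Z : Mt => Phi Z k) (X j) E) 0 := by
            have k6 : HasFDerivAt (fun Z : Mt => Phi Z k)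
                (fderiv ℝ (fun Z : Mt => Phi Z k) (X j)) (X j + (0:ℝ) • E) := by
              rw [hl0]
              exact ((Phi_contDiff k).differentiable (by norm_num) (X j)).hasFDerivAt
            exact k6.comp_hasDerivAt 0 hline
          have k7 := (k5.sub_const (Phi (X j) k)).pow 2
          refine k7.congr_deriv ?_
          simp
        have k8 := (HasDerivAt.fun_sum k4).const_mul ε
        simpa using k8
      have k9 := (k1.add k2).add k3
      rw [add_zero, add_zero] at k9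
      exact k9
    exact hcomp.unique (hd2.congr_of_eventuallyEq hevt)

end norm

end Pool.Agent.H507R3.PC
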