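import Pool.Agent.H507R3.PCCheck
import Pool.Agent.H507R3.PCInterp

/-!
# The laminate: all hull points are images of an affine map
-/

set_option autoImplicit false
open Set

namespace Pool.Agent.H507R3.PC

noncomputable def XR (i : Fin 24) : Mt := fun r c => (XZ i r c : ℝ)
noncomputable def AR (i : Fin 24) : Mt := fun r c => (AZ i r c : ℝ)
noncomputable def PR (i : Fin 24) : Mt := fun r c => (PZ i r c : ℝ)
noncomputable def YR (i : Fin 24) : Mt := fun r c => (YZ i r c : ℝ)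

abbrev T3 : Type := Mt × Mt × (Fin 2 → Fin 2 → ℝ)

noncomputable def Yaff (Ξ : Mt) : Mt := fun k c =>
  if c = 0 then ∑ l, (BZ k l : ℝ) * Ξ l 1 else - ∑ l, (BZ k l : ℝ) * Ξ l 0

noncomputable def Zlin (Ξ : Mt) : Fin 2 → Fin 2 → ℝ := fun a b =>
  if b = 0 then ∑ k, (CZ a k : ℝ) * Ξ k 1 else - ∑ k, (CZ a k : ℝ) * Ξ k 0

noncomputable def Zaff (Ξ : Mt) : Fin 2 → Fin 2 → ℝ := fun a b =>
  if b = 0 then (∑ k, (CZ a k : ℝ) * Ξ k 1) + (ZZ a 1 : ℝ)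
  else - ((∑ k, (CZ a k : ℝ) * Ξ k 0) + (ZZ a 0 : ℝ))

noncomputable def pt3 (Ξ : Mt) : T3 := (Ξ, Yaff Ξ, Zaff Ξ)

lemma pt3_line (Ξ D : Mt) (t : ℝ) : pt3 (Ξ + t • D) = pt3 Ξ + t • ((D, Yaff D, Zlin D) : T3) := by
  have hY : Yaff (Ξ + t • D) = Yaff Ξ + t • Yaff D := by
    funext k c
    simp only [Yaff, Pi.add_apply, Pi.smul_apply, smul_eq_mul]
    split_ifs
    · rw [Finset.mul_sum, ← Finset.sum_add_distrib]
      apply Finset.sum_congr rfl; intro l _; ring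
    · rw [mul_neg, Finset.mul_sum, ← neg_add, ← Finset.sum_add_distrib]
      congr 1
      apply Finset.sum_congr rfl; intro l _; ring
  have hZ : Zaff (Ξ + t • D) = Zaff Ξ + t • Zlin D := by
    funext a b
    simp only [Zaff, Zlin, Pi.add_apply, Pi.smul_apply, smul_eq_mul]
    split_ifs
    · have : ∑ k, (CZ a k : ℝ) * (Ξ k 1 + t * D k 1)
          = ∑ k, (CZ a k : ℝ) * Ξ k 1 + t * ∑ k, (CZ a k : ℝ) * D k 1 := by
        rw [Finset.mul_sum, ← Finset.sum_add_distrib]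
        apply Finset.sum_congr rfl; intro l _; ring
      rw [this]; ring
    · have : ∑ k, (CZ a k : ℝ) * (Ξ k 0 + t * D k 0)
          = ∑ k, (CZ a k : ℝ) * Ξ k 0 + t * ∑ k, (CZ a k : ℝ) * D k 0 := by
        rw [Finset.mul_sum, ← Finset.sum_add_distrib]
        apply Finset.sum_congr rfl; intro l _; ring
      rw [this]; ring
  unfold pt3
  rw [hY, hZ]
  rfl

/-- Membership in the wave cone. -/
def Lam (B : T3) : Prop :=
  ∃ ξ : Fin 2 → ℝ, ∑ j, ξ j ^ 2 = 1 ∧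
    (∀ i, ∑ j, B.2.1 i j * ξ j = 0) ∧
    (∀ a, ∑ j, B.2.2 a j * ξ j = 0) ∧
    ∃ u : Fin 10 → ℝ, ∀ i j, B.1 i j = u i * ξ j

lemma lam_of (D : Mt) (u : Fin 10 → ℝ) (d : Fin 2 → ℝ) (hd : 0 < d 0 ^ 2 + d 1 ^ 2)
    (hD : ∀ r c, D r c = u r * d c) : Lam ((D, Yaff D, Zlin D) : T3) := by
  set q := Real.sqrt (d 0 ^ 2 + d 1 ^ 2) with hq
  have hq0 : 0 < q := Real.sqrt_pos.mpr hd
  have hq2 : q ^ 2 = d 0 ^ 2 + d 1 ^ 2 := Real.sq_sqrt hd.le
  refine ⟨fun c => d c / q, ?_, ?_, ?_, fun r => u r * q, ?_⟩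
  · rw [Fin.sum_univ_two, div_pow, div_pow, ← add_div, hq2, div_self hd.ne']
  · intro i
    rw [Fin.sum_univ_two]
    have h0 : Yaff D i 0 = (∑ l, (BZ i l : ℝ) * u l) * d 1 := by
      simp only [Yaff, if_true]
      rw [Finset.sum_mul]
      apply Finset.sum_congr rfl; intro l _; rw [hD]; ring
    have h1 : Yaff D i 1 = - ((∑ l, (BZ i l : ℝ) * u l) * d 0) := by
      simp only [Yaff]
      rw [if_neg (by decide), Finset.sum_mul]
      congr 1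
      apply Finset.sum_congr rfl; intro l _; rw [hD]; ring
    show Yaff D i 0 * (d 0 / q) + Yaff D i 1 * (d 1 / q) = 0
    rw [h0, h1]; ring
  · intro i
    rw [Fin.sum_univ_two]
    have h0 : Zlin D i 0 = (∑ l, (CZ i l : ℝ) * u l) * d 1 := by
      simp only [Zlin, if_true]
      rw [Finset.sum_mul]
      apply Finset.sum_congr rfl; intro l _; rw [hD]; ring
    have h1 : Zlin D i 1 = - ((∑ l, (CZ i l : ℝ) * u l) * d 0) := by
      simp only [Zlin]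
      rw [if_neg (by decide), Finset.sum_mul]
      congr 1
      apply Finset.sum_congr rfl; intro l _; rw [hD]; ring
    show Zlin D i 0 * (d 0 / q) + Zlin D i 1 * (d 1 / q) = 0
    rw [h0, h1]; ring
  · intro i j
    show D i j = u i * q * (d j / q)
    rw [hD]; field_simp

lemma rank1 (D : Mt) (d : Fin 2 → ℝ) (hd : 0 < d 0 ^ 2 + d 1 ^ 2)
    (hpar : ∀ r, D r 0 * d 1 = D r 1 * d 0) : ∃ u : Fin 10 → ℝ, ∀ r c, D r c = u r * d c := by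
  refine ⟨fun r => (D r 0 * d 0 + D r 1 * d 1) / (d 0 ^ 2 + d 1 ^ 2), fun r c => ?_⟩
  have h := hpar r
  have hne := hd.ne'
  fin_cases c
  · show D r 0 = (D r 0 * d 0 + D r 1 * d 1) / (d 0 ^ 2 + d 1 ^ 2) * d 0
    rw [div_mul_eq_mul_div, eq_div_iff hne]
    linear_combination (d 1) * h
  · show D r 1 = (D r 0 * d 0 + D r 1 * d 1) / (d 0 ^ 2 + d 1 ^ 2) * d 1
    rw [div_mul_eq_mul_div, eq_div_iff hne]
    linear_combination (-(d 0)) * h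

/-- functions convex along the wave cone -/
def LamConv (F : T3 → ℝ) : Prop :=
  ∀ A' B : T3, Lam B → ConvexOn ℝ univ (fun t : ℝ => F (A' + t • B))

lemma seg {F : T3 → ℝ} (hF : LamConv F) (Ξ Ξ' M : Mt) {s : ℝ} (hs0 : 0 ≤ s) (hs1 : s ≤ 1)
    (hM : ∀ r c, M r c = (1 - s) * Ξ r c + s * Ξ' r c) (d : Fin 2 → ℝ)
    (hd : 0 < d 0 ^ 2 + d 1 ^ 2)
    (hpar : ∀ r, (Ξ' r 0 - Ξ r 0) * d 1 = (Ξ' r 1 - Ξ r 1) * d 0) :
    F (pt3 M) ≤ (1 - s) * F (pt3 Ξ) + s * F (pt3 Ξ') := by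
  obtain ⟨u, hu⟩ := rank1 (Ξ' - Ξ) d hd hpar
  have hlam := lam_of (Ξ' - Ξ) u d hd hu
  have hc := hF (pt3 Ξ) _ hlam
  have h1 := hc.2 (mem_univ (0:ℝ)) (mem_univ (1:ℝ)) (by linarith : 0 ≤ 1 - s) hs0 (by ring)
  simp only [smul_eq_mul, mul_zero, zero_add, mul_one] at h1
  rw [← pt3_line, ← pt3_line, ← pt3_line] at h1
  have e0 : Ξ + (0:ℝ) • (Ξ' - Ξ) = Ξ := by simp
  have e1' : Ξ + (1:ℝ) • (Ξ' - Ξ) = Ξ' := by simp
  have e2' : Ξ + s • (Ξ' - Ξ) = M := by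
    funext r c
    simp only [Pi.add_apply, Pi.smul_apply, Pi.sub_apply, smul_eq_mul]
    rw [hM]; ring
  rw [e0, e1', e2'] at h1
  exact h1

theorem hull_point {F : T3 → ℝ} (hF : LamConv F) (hK : ∀ i, F (pt3 (XR i)) ≤ 0) :
    F (pt3 (PR 0)) ≤ 0 := by
  by_contra hcon
  push Not at hcon
  obtain ⟨i0, hi0⟩ := Finite.exists_max (fun i : Fin 24 => F (pt3 (PR i)))
  set m := F (pt3 (PR i0)) with hm
  have hm0 : 0 < m := lt_of_lt_of_le hcon (hi0 0)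
  have hA : ∀ i, F (pt3 (AR i)) < m := by
    intro i
    have ht := chk_t i
    have ht1 : (0:ℝ) < tN i := by exact_mod_cast ht.1
    have ht2 : (0:ℝ) < tD i := by exact_mod_cast ht.2
    set τ : ℝ := (tN i : ℝ) / ((tN i : ℝ) + tD i) with hτ
    have hsum : (0:ℝ) < (tN i : ℝ) + tD i := by linarith
    have hτ0 : 0 ≤ τ := by positivity
    have hτ1 : τ < 1 := by rw [hτ, div_lt_one hsum]; linarith
    have hs := seg hF (XR i) (PR i) (AR i) hτ0 hτ1.le (by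
      intro r c
      have h1 : ((tN i : ℝ) + tD i) * (AZ i r c : ℝ) = tD i * (XZ i r c : ℝ) + tN i * (PZ i r c : ℝ) := by
        exact_mod_cast chk_A i r c
      show (AZ i r c : ℝ) = (1 - τ) * (XZ i r c : ℝ) + τ * (PZ i r c : ℝ)
      have h2 : 1 - τ = (tD i : ℝ) / ((tN i : ℝ) + tD i) := by
        rw [hτ]; field_simp; ring
      rw [h2, hτ]
      field_simp
      linarith) (fun c => (dZ i c : ℝ)) (by exact_mod_cast chk_d0 i) (by
      intro r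
      show ((PZ i r 0 : ℝ) - (XZ i r 0 : ℝ)) * (dZ i 1 : ℝ)
        = ((PZ i r 1 : ℝ) - (XZ i r 1 : ℝ)) * (dZ i 0 : ℝ)
      exact_mod_cast chk_d i r)
    have h3 := hK i
    have h4 : F (pt3 (PR i)) ≤ m := hi0 i
    have h5 : (1 - τ) * F (pt3 (XR i)) ≤ 0 := mul_nonpos_of_nonneg_of_nonpos (by linarith) h3
    have h6 : τ * F (pt3 (PR i)) ≤ τ * m := mul_le_mul_of_nonneg_left h4 hτ0
    have h7 : τ * m < m := by nlinarith
    linarith
  have hsz := chk_s i0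
  have hs0 : (0:ℝ) < sZ i0 := by exact_mod_cast hsz.1
  have hs6 : (sZ i0 : ℝ) < 6 := by exact_mod_cast hsz.2
  have hs := seg hF (AR (piA i0)) (AR (piB i0)) (PR i0) (s := (sZ i0 : ℝ) / 6) (by positivity)
    (by linarith) (by
      intro r c
      have h1 : 6 * (PZ i0 r c : ℝ) = (6 - (sZ i0 : ℝ)) * (AZ (piA i0) r c : ℝ)
          + sZ i0 * (AZ (piB i0) r c : ℝ) := by
        exact_mod_cast chk_P i0 r c
      show (PZ i0 r c : ℝ) = (1 - (sZ i0 : ℝ) / 6) * (AZ (piA i0) r c : ℝ)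
        + (sZ i0 : ℝ) / 6 * (AZ (piB i0) r c : ℝ)
      linarith) (fun c => (eZ (piA i0) c : ℝ)) (by exact_mod_cast chk_e0 (piA i0)) (by
      intro r
      show ((AZ (piB i0) r 0 : ℝ) - (AZ (piA i0) r 0 : ℝ)) * (eZ (piA i0) 1 : ℝ)
        = ((AZ (piB i0) r 1 : ℝ) - (AZ (piA i0) r 1 : ℝ)) * (eZ (piA i0) 0 : ℝ)
      exact_mod_cast chk_e i0 r)
  have h1 := hA (piA i0)
  have h2 := hA (piB i0)
  have h3 : (1 - (sZ i0 : ℝ) / 6) * F (pt3 (AR (piA i0))) < (1 - (sZ i0 : ℝ) / 6) * m :=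
    mul_lt_mul_of_pos_left h1 (by linarith)
  have h4 : (sZ i0 : ℝ) / 6 * F (pt3 (AR (piB i0))) < (sZ i0 : ℝ) / 6 * m :=
    mul_lt_mul_of_pos_left h2 (by positivity)
  have h5 : m < m := by
    calc m ≤ _ := hs
      _ < (1 - (sZ i0 : ℝ) / 6) * m + (sZ i0 : ℝ) / 6 * m := by linarith
      _ = m := by ring
  exact lt_irrefl _ h5

lemma YR_eq (i : Fin 24) : Yaff (XR i) = YR i := by
  funext k c
  fin_cases c
  · show (if (0 : Fin 2) = 0 then _ else _) = (YZ i k 0 : ℝ)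
    rw [if_pos rfl, chk_Y0 i k]
    push_cast
    rfl
  · show (if (1 : Fin 2) = 0 then _ else _) = (YZ i k 1 : ℝ)
    rw [if_neg (by decide), chk_Y1 i k]
    push_cast
    rfl

lemma ZR_eq (i : Fin 24) (a b : Fin 2) :
    Zaff (XR i) a b = ∑ k, XR i k a * YR i k b - (fZ i : ℝ) * (if a = b then (1:ℝ) else 0) := by
  fin_cases b
  · show (if (0 : Fin 2) = 0 then _ else _) = _
    rw [if_pos rfl]
    have h : ((∑ k : Fin 10, (CZ a k : ℝ) * (XZ i k 1 : ℝ)) + (ZZ a 1 : ℝ))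
        = (∑ k : Fin 10, (XZ i k a : ℝ) * (YZ i k 0 : ℝ)) - (if a = 0 then (fZ i : ℝ) else 0) := by
      exact_mod_cast chk_Z0 i a
    show ((∑ k : Fin 10, (CZ a k : ℝ) * (XZ i k 1 : ℝ)) + (ZZ a 1 : ℝ)) = _
    rw [h]
    show _ = (∑ k : Fin 10, (XZ i k a : ℝ) * (YZ i k 0 : ℝ)) - (fZ i : ℝ) * (if a = 0 then (1:ℝ) else 0)
    split_ifs <;> ring
  · show (if (1 : Fin 2) = 0 then _ else _) = _
    rw [if_neg (by decide)]
    have h : -((∑ k : Fin 10, (CZ a k : ℝ) * (XZ i k 0 : ℝ)) + (ZZ a 0 : ℝ))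
        = (∑ k : Fin 10, (XZ i k a : ℝ) * (YZ i k 1 : ℝ)) - (if a = 1 then (fZ i : ℝ) else 0) := by
      exact_mod_cast chk_Z1 i a
    show -((∑ k : Fin 10, (CZ a k : ℝ) * (XZ i k 0 : ℝ)) + (ZZ a 0 : ℝ)) = _
    rw [h]
    show _ = (∑ k : Fin 10, (XZ i k a : ℝ) * (YZ i k 1 : ℝ)) - (fZ i : ℝ) * (if a = 1 then (1:ℝ) else 0)
    split_ifs <;> ring

lemma not_scalar : Zaff (PR 0) 0 1 ≠ ∑ k, PR 0 k 0 * Yaff (PR 0) k 1 := by
  intro h
  apply chk_not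
  have h2 : -((∑ k : Fin 10, (CZ 0 k : ℝ) * (PZ 0 k 0 : ℝ)) + (ZZ 0 0 : ℝ))
    = ∑ k : Fin 10, (PZ 0 k 0 : ℝ) * (- ∑ l : Fin 10, (BZ k l : ℝ) * (PZ 0 l 0 : ℝ)) := by
    have h3 := h
    simp only [Zaff, Yaff, PR] at h3
    rw [if_neg (by decide)] at h3
    simpa using h3
  exact_mod_cast h2

lemma pos_real (i j : Fin 24) (hij : i ≠ j) :
    0 < (fZ j : ℝ) - (fZ i : ℝ) - (∑ r, ∑ c, YR i r c * (XR j r c - XR i r c))
      - ∑ r, ∑ s, (100000000 * (pZ i r s : ℝ)) * ((XR j r 0 - XR i r 0) * (XR j s 1 - XR i s 1)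
          - (XR j r 1 - XR i r 1) * (XR j s 0 - XR i s 0)) := by
  have h := chk_ineq i j hij
  have h' : (0:ℝ) < (fZ j : ℝ) - (fZ i : ℝ)
      - (∑ r : Fin 10, ∑ c : Fin 2, (YZ i r c : ℝ) * ((XZ j r c : ℝ) - (XZ i r c : ℝ)))
     - 100000000 * ∑ r : Fin 10, ∑ s : Fin 10, (pZ i r s : ℝ) * (((XZ j r 0 : ℝ) - (XZ i r 0 : ℝ))
       * ((XZ j s 1 : ℝ) - (XZ i s 1 : ℝ))
       - ((XZ j r 1 : ℝ) - (XZ i r 1 : ℝ)) * ((XZ j s 0 : ℝ) - (XZ i s 0 : ℝ))) := by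
    exact_mod_cast h
  have e : ∑ r, ∑ s, (100000000 * (pZ i r s : ℝ)) * ((XR j r 0 - XR i r 0) * (XR j s 1 - XR i s 1)
          - (XR j r 1 - XR i r 1) * (XR j s 0 - XR i s 0))
      = 100000000 * ∑ r : Fin 10, ∑ s : Fin 10, (pZ i r s : ℝ) * (((XZ j r 0 : ℝ) - (XZ i r 0 : ℝ))
       * ((XZ j s 1 : ℝ) - (XZ i s 1 : ℝ))
       - ((XZ j r 1 : ℝ) - (XZ i r 1 : ℝ)) * ((XZ j s 0 : ℝ) - (XZ i s 0 : ℝ))) := by
    rw [Finset.mul_sum]
    apply Finset.sum_congr rfl; intro r _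
    rw [Finset.mul_sum]
    apply Finset.sum_congr rfl; intro s _
    simp only [XR]; ring
  rw [e]
  exact h'

/-- The function. -/
theorem exists_g [Fintype Idx] : ∃ g : (Idx → ℝ) → ℝ, StrictConvexOn ℝ univ g ∧ ContDiff ℝ 1 g ∧
      ∀ j : Fin 24, g (Phi (XR j)) = (fZ j : ℝ) ∧
        ∀ E : Mt, fderiv ℝ (fun Z : Mt => g (Phi Z)) (XR j) E = ∑ r, ∑ c, YR j r c * E r c :=
  polyconvex_interp XR YR (fun j => (fZ j : ℝ)) (fun i r s => 100000000 * (pZ i r s : ℝ))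
    (fun i j hij => pos_real i j hij)

end Pool.Agent.H507R3.PC
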