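import Mathlib

/-!
# A regularised maximum of finitely many affine functions
-/

set_option autoImplicit false
open Set Filter Topology

namespace Pool.Agent.H507R3.PC

lemma sqpos_hasDerivAt (s : ℝ) : HasDerivAt (fun t : ℝ => (max t 0)^2) (2 * max s 0) s := by
  rcases lt_trichotomy s 0 with hs | hs | hs
  · have hev : (fun t : ℝ => (max t 0)^2) =ᶠ[𝓝 s] fun _ => 0 := by
      filter_upwards [eventually_lt_nhds hs] with t ht
      rw [max_eq_right ht.le]; norm_num
    rw [max_eq_right hs.le, mul_zero]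
    exact (hasDerivAt_const s (0:ℝ)).congr_of_eventuallyEq hev
  · subst hs
    have h1 : HasDerivWithinAt (fun t : ℝ => (max t 0)^2) 0 (Iic 0) 0 := by
      refine (hasDerivWithinAt_const (0:ℝ) (Iic 0) (0:ℝ)).congr ?_ ?_
      · intro z hz; rw [max_eq_right (show z ≤ 0 from hz)]; norm_num
      · simp
    have h2 : HasDerivWithinAt (fun t : ℝ => (max t 0)^2) 0 (Ici 0) 0 := by
      have h3 : HasDerivWithinAt (fun t : ℝ => t^2) 0 (Ici 0) 0 := by
        simpa using (hasDerivAt_pow 2 (0:ℝ)).hasDerivWithinAt (s := Ici 0)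
      refine h3.congr ?_ ?_
      · intro z hz; rw [max_eq_left (show 0 ≤ z from hz)]
      · simp
    have h4 := h1.union h2
    rw [Iic_union_Ici, hasDerivWithinAt_univ] at h4
    simpa using h4
  · have hev : (fun t : ℝ => (max t 0)^2) =ᶠ[𝓝 s] fun t => t^2 := by
      filter_upwards [eventually_gt_nhds hs] with t ht
      rw [max_eq_left (le_of_lt ht)]
    rw [max_eq_left hs.le]
    have := (hasDerivAt_pow 2 s).congr_of_eventuallyEq hev
    simpa using this

/-- A `C¹` regularisation of the positive part. -/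
noncomputable def psi (δ t : ℝ) : ℝ := ((max (t + δ) 0)^2 - (max (t - δ) 0)^2) / (4 * δ)

/-- its derivative -/
noncomputable def psi' (δ t : ℝ) : ℝ := (max (t + δ) 0 - max (t - δ) 0) / (2 * δ)

section
variable {δ : ℝ} (hδ : 0 < δ)
include hδ

lemma psi_low {t : ℝ} (h : t ≤ -δ) : psi δ t = 0 := by
  unfold psi
  rw [max_eq_right (by linarith), max_eq_right (by linarith)]; simp

lemma psi_high {t : ℝ} (h : δ ≤ t) : psi δ t = t := by
  unfold psi
  rw [max_eq_left (by linarith), max_eq_left (by linarith)]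
  field_simp; ring

lemma psi_hasDerivAt (t : ℝ) : HasDerivAt (psi δ) (psi' δ t) t := by
  unfold psi psi'
  have h1 : HasDerivAt (fun t : ℝ => (max (t + δ) 0)^2) (2 * max (t + δ) 0) t := by
    have := (sqpos_hasDerivAt (t + δ)).comp_add_const t δ
    exact this
  have h2 : HasDerivAt (fun t : ℝ => (max (t - δ) 0)^2) (2 * max (t - δ) 0) t := by
    have := (sqpos_hasDerivAt (t - δ)).comp_sub_const t δ
    exact this
  have h3 := (h1.sub h2).div_const (4 * δ)
  refine h3.congr_deriv ?_
  field_simp; ring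

lemma psi'_mono : Monotone (psi' δ) := by
  intro s t hst
  unfold psi'
  apply div_le_div_of_nonneg_right _ (by linarith)
  rcases max_cases (s + δ) 0 with h1 | h1 <;> rcases max_cases (s - δ) 0 with h2 | h2 <;>
    rcases max_cases (t + δ) 0 with h3 | h3 <;> rcases max_cases (t - δ) 0 with h4 | h4 <;>
    linarith [h1.1, h1.2, h2.1, h2.2, h3.1, h3.2, h4.1, h4.2]

lemma psi'_nonneg (t : ℝ) : 0 ≤ psi' δ t := by
  unfold psi'
  apply div_nonneg _ (by linarith)
  rcases max_cases (t + δ) 0 with h3 | h3 <;> rcases max_cases (t - δ) 0 with h4 | h4 <;>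
    linarith [h3.1, h3.2, h4.1, h4.2]

lemma psi'_le_one (t : ℝ) : psi' δ t ≤ 1 := by
  unfold psi'
  rw [div_le_one (by linarith)]
  rcases max_cases (t + δ) 0 with h3 | h3 <;> rcases max_cases (t - δ) 0 with h4 | h4 <;>
    linarith [h3.1, h3.2, h4.1, h4.2]

lemma psi_deriv : deriv (psi δ) = psi' δ := by
  funext t; exact (psi_hasDerivAt hδ t).deriv

lemma psi_differentiable : Differentiable ℝ (psi δ) := fun t =>
  (psi_hasDerivAt hδ t).differentiableAt

lemma psi_convex : ConvexOn ℝ univ (psi δ) := by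
  apply Monotone.convexOn_univ_of_deriv (psi_differentiable hδ)
  rw [psi_deriv hδ]; exact psi'_mono hδ

lemma psi_mono : Monotone (psi δ) := by
  apply monotone_of_deriv_nonneg (psi_differentiable hδ)
  intro t; rw [psi_deriv hδ]; exact psi'_nonneg hδ t

lemma psi_lip : Monotone (fun t => t - psi δ t) := by
  apply monotone_of_deriv_nonneg
  · exact differentiable_id.sub (psi_differentiable hδ)
  · intro t
    have h : HasDerivAt (fun t => t - psi δ t) (1 - psi' δ t) t :=
      (hasDerivAt_id t).sub (psi_hasDerivAt hδ t)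
    rw [h.deriv]; linarith [psi'_le_one hδ t]

lemma psi_contDiff : ContDiff ℝ 1 (psi δ) := by
  rw [contDiff_one_iff_deriv]
  refine ⟨psi_differentiable hδ, ?_⟩
  rw [psi_deriv hδ]
  unfold psi'
  fun_prop

lemma psi_ge_self (t : ℝ) : t ≤ psi δ t := by
  have h := psi_lip hδ (le_max_left t δ)
  simp only at h
  rw [psi_high hδ (le_max_right t δ)] at h
  linarith

lemma psi_nonneg (t : ℝ) : 0 ≤ psi δ t := by
  have h := psi_mono hδ (min_le_left t (-δ))
  rw [psi_low hδ (min_le_right t (-δ))] at h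
  exact h

lemma psi_le (t : ℝ) {M : ℝ} (hM : 0 ≤ M) (ht : t ≤ M) : psi δ t ≤ M + δ := by
  rcases le_total δ t with h | h
  · rw [psi_high hδ h]; linarith
  · have := psi_mono hδ h
    rw [psi_high hδ le_rfl] at this
    linarith

end

/-- affine functions -/
def IsAff {V : Type*} [AddCommGroup V] [Module ℝ V] (a : V → ℝ) : Prop :=
  ∀ u w : V, ∀ s t : ℝ, s + t = 1 → a (s • u + t • w) = s * a u + t * a w

section smax

variable {V : Type*} [NormedAddCommGroup V] [NormedSpace ℝ V]

lemma smax_convex {δ : ℝ} (hδ : 0 < δ) {h a : V → ℝ} (hh : ConvexOn ℝ univ h) (ha : IsAff a) :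
    ConvexOn ℝ univ (fun v => h v + psi δ (a v - h v)) := by
  refine ⟨convex_univ, fun u _ w _ s t hs ht hst => ?_⟩
  have h1 := hh.2 (mem_univ u) (mem_univ w) hs ht hst
  have h2 := ha u w s t hst
  simp only [smul_eq_mul] at h1 ⊢
  set x := h (s • u + t • w)
  rw [h2]
  set x1 := h u
  set x2 := h w
  set y1 := a u
  set y2 := a w
  have h3 := psi_lip hδ (show s * y1 + t * y2 - (s * x1 + t * x2) ≤ s * y1 + t * y2 - x by linarith)
  have h4 := (psi_convex hδ).2 (mem_univ (y1 - x1)) (mem_univ (y2 - x2)) hs ht hst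
  simp only [smul_eq_mul] at h3 h4
  have e : s * (y1 - x1) + t * (y2 - x2) = s * y1 + t * y2 - (s * x1 + t * x2) := by ring
  rw [e] at h4
  nlinarith [h3, h4]

lemma smax_finset {κ : Type*} (a : κ → V → ℝ) (ha : ∀ i, IsAff (a i))
    (hd : ∀ i, ContDiff ℝ 1 (a i)) {δ : ℝ} (hδ : 0 < δ) (N : ℕ) (s : Finset κ) (hs : s.Nonempty)
    (hN : s.card ≤ N) :
    ∃ h : V → ℝ, ConvexOn ℝ univ h ∧ ContDiff ℝ 1 h ∧
      (∀ v M, (∀ i ∈ s, a i v ≤ M) → h v ≤ M + s.card * δ) ∧
      (∀ v, ∀ j ∈ s, (∀ i ∈ s, i ≠ j → a i v + (N + 2) * δ ≤ a j v) → h v = a j v) := by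
  classical
  induction hs using Finset.Nonempty.cons_induction with
  | singleton k =>
    refine ⟨a k, ?_, hd k, ?_, ?_⟩
    · refine ⟨convex_univ, fun u _ w _ s t hs ht hst => ?_⟩
      rw [ha k u w s t hst]; simp
    · intro v M hM
      have := hM k (Finset.mem_singleton_self k)
      simp only [Finset.card_singleton, Nat.cast_one, one_mul]
      linarith
    · intro v j hj _
      rw [Finset.mem_singleton] at hj
      rw [hj]
  | cons k s hk hs ih =>
    rw [Finset.card_cons] at hN
    obtain ⟨h, h1, h2, h3, h4⟩ := ih (by omega)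
    have hcard : ((Finset.cons k s hk).card : ℝ) = (s.card : ℝ) + 1 := by
      rw [Finset.card_cons]; push_cast; ring
    have hNr : (s.card : ℝ) + 1 ≤ N := by exact_mod_cast hN
    have hc0 : (0:ℝ) ≤ s.card := Nat.cast_nonneg _
    refine ⟨fun v => h v + psi δ (a k v - h v), smax_convex hδ h1 (ha k), ?_, ?_, ?_⟩
    · exact h2.add ((psi_contDiff hδ).comp ((hd k).sub h2))
    · intro v M hM
      have hM1 : h v ≤ M + s.card * δ := h3 v M fun i hi => hM i (Finset.mem_cons_of_mem hi)
      have hM2 : a k v ≤ M := hM k (Finset.mem_cons_self k s)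
      rw [hcard]
      have : psi δ (a k v - h v) ≤ (M + s.card * δ - h v) + δ := by
        apply psi_le hδ
        · linarith
        · nlinarith
      simp only
      nlinarith
    · intro v j hj hgap
      rw [Finset.mem_cons] at hj
      rcases hj with rfl | hj
      · have hle : h v ≤ (a j v - (N + 2) * δ) + s.card * δ := by
          apply h3
          intro i hi
          have hne : i ≠ j := by rintro rfl; exact hk hi
          have := hgap i (Finset.mem_cons_of_mem hi) hne
          linarith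
        have hge : δ ≤ a j v - h v := by nlinarith
        simp only
        rw [psi_high hδ hge]; ring
      · have hhj : h v = a j v := h4 v j hj fun i hi hne => hgap i (Finset.mem_cons_of_mem hi) hne
        have hkj : k ≠ j := by rintro rfl; exact hk hj
        have := hgap k (Finset.mem_cons_self k s) hkj
        have hlow : a k v - h v ≤ -δ := by
          rw [hhj]; nlinarith
        simp only
        rw [psi_low hδ hlow, hhj, add_zero]

lemma exists_convex_interp {κ : Type*} [Fintype κ] [Nonempty κ] (a : κ → V → ℝ)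
    (ha : ∀ i, IsAff (a i)) (hd : ∀ i, ContDiff ℝ 1 (a i)) (v : κ → V)
    (hgap : ∀ i j, i ≠ j → a i (v j) < a j (v j)) :
    ∃ h : V → ℝ, ConvexOn ℝ univ h ∧ ContDiff ℝ 1 h ∧ ∀ j, h =ᶠ[𝓝 (v j)] a j := by
  classical
  obtain ⟨γ, hγ, hγ0⟩ : ∃ γ : ℝ, (∀ p : κ × κ, p.1 ≠ p.2 → γ ≤ a p.2 (v p.2) - a p.1 (v p.2)) ∧ 0 < γ := by
    have h1 : ∀ᶠ γ in 𝓝[>] (0:ℝ), ∀ p : κ × κ, p.1 ≠ p.2 → γ ≤ a p.2 (v p.2) - a p.1 (v p.2) := by
      rw [eventually_all]
      intro p
      by_cases hp : p.1 = p.2
      · exact Eventually.of_forall fun γ h => absurd hp h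
      · have hpos : 0 < a p.2 (v p.2) - a p.1 (v p.2) := by linarith [hgap p.1 p.2 hp]
        filter_upwards [eventually_nhdsWithin_of_eventually_nhds (eventually_le_nhds hpos)] with γ hγ _
        exact hγ
    obtain ⟨γ, h2, h3⟩ := (h1.and self_mem_nhdsWithin).exists
    exact ⟨γ, h2, h3⟩
  set N := (Finset.univ : Finset κ).card with hN
  have hN2 : (0:ℝ) < (N:ℝ) + 2 := by positivity
  set δ := γ / (2 * ((N:ℝ) + 2)) with hδdef
  have hδ : 0 < δ := by positivity
  have hδ2 : ((N:ℝ) + 2) * δ = γ / 2 := by rw [hδdef]; field_simp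
  obtain ⟨h, h1, h2, _, h4⟩ := smax_finset a ha hd hδ N Finset.univ Finset.univ_nonempty le_rfl
  refine ⟨h, h1, h2, fun j => ?_⟩
  have hev : ∀ᶠ w in 𝓝 (v j), ∀ i, i ≠ j → a i w + ((N:ℝ) + 2) * δ ≤ a j w := by
    rw [eventually_all]
    intro i
    by_cases hij : i = j
    · exact Eventually.of_forall fun w hh => absurd hij hh
    · have hlt : a i (v j) + ((N:ℝ) + 2) * δ < a j (v j) := by
        have := hγ (i, j) hij
        simp only at this
        rw [hδ2]; linarith
      have hc : ∀ᶠ w in 𝓝 (v j), a i w + ((N:ℝ) + 2) * δ < a j w :=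
        ((hd i).continuous.add continuous_const).continuousAt.eventually_lt
          (hd j).continuous.continuousAt hlt
      filter_upwards [hc] with w hw _
      exact hw.le
  filter_upwards [hev] with w hw
  exact h4 w j (Finset.mem_univ j) fun i _ hi => hw i hi

end smax

end Pool.Agent.H507R3.PC
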