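import Mathlib

/-!
Integration over the Euclidean plane in polar and in Cartesian coordinates, for functions which are
differentiable outside a small exceptional set.
-/

set_option autoImplicit false

namespace Pool.Agent.H507R3

open MeasureTheory Filter Topology Set Metric
open scoped RealInnerProductSpace

/-- The Euclidean plane. -/
abbrev E2 : Type := EuclideanSpace ℝ (Fin 2)

/-- The point with the given coordinates. -/
noncomputable def mk2 (p : ℝ × ℝ) : E2 := !₂[p.1, p.2]

lemma mk2_mp : MeasurePreserving mk2 := by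
  have h1 := (volume_preserving_finTwoArrow ℝ).symm
  have h2 := PiLp.volume_preserving_toLp (Fin 2)
  have h3 := h2.comp h1
  have : mk2 = (WithLp.toLp 2 ∘ (MeasurableEquiv.finTwoArrow (α := ℝ)).symm) := by
    funext p
    rfl
  rw [this]
  exact h3

lemma mk2_emb : MeasurableEmbedding mk2 := by
  have h1 := (MeasurableEquiv.finTwoArrow (α := ℝ)).symm.measurableEmbedding
  have h2 : MeasurableEmbedding (WithLp.toLp 2 : (Fin 2 → ℝ) → E2) :=
    (MeasurableEquiv.toLp 2 (Fin 2 → ℝ)).measurableEmbedding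
  exact h2.comp h1

/-- The unit vector in direction `θ`. -/
noncomputable def om (θ : ℝ) : E2 := !₂[Real.cos θ, Real.sin θ]

lemma norm_om (θ : ℝ) : ‖om θ‖ = 1 := by
  rw [om, EuclideanSpace.norm_eq]
  simp

lemma integral_polar (F : E2 → ℝ) (c : E2) :
    ∫ x, F x = ∫ p in Ioi (0 : ℝ) ×ˢ Ioo (-Real.pi) Real.pi, p.1 * F (c + p.1 • om p.2) := by
  have h1 : ∫ x, F x = ∫ x, F (c + x) := (integral_add_left_eq_self F c).symm
  have h2 : ∫ x, F (c + x) = ∫ p : ℝ × ℝ, F (c + mk2 p) :=
    (mk2_mp.integral_comp mk2_emb (fun x => F (c + x))).symm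
  rw [h1, h2, ← integral_comp_polarCoord_symm]
  refine setIntegral_congr_fun (measurableSet_Ioi.prod measurableSet_Ioo) ?_
  intro p _
  simp only [smul_eq_mul]
  congr 3
  rw [polarCoord_symm_apply, mk2, om]
  ext i
  fin_cases i <;> simp

/-- **Integration along rays.** -/
lemma ray_integral {φ : E2 → ℝ} {Φ : E2 → E2} {c : E2}
    (hd : ∀ θ ∈ Ioo (-Real.pi) Real.pi, θ ≠ 0 → ∀ r : ℝ, 0 < r →
      HasFDerivAt φ (innerSL ℝ (Φ (c + r • om θ))) (c + r • om θ))
    (h0 : ∀ θ ∈ Ioo (-Real.pi) Real.pi, θ ≠ 0 → Tendsto (fun r : ℝ => φ (c + r • om θ)) (𝓝[>] 0) (𝓝 0))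
    (h1 : HasCompactSupport φ) :
    ∫ x, ⟪(‖x - c‖ ^ 2)⁻¹ • (x - c), Φ x⟫ = 0 := by
  rw [integral_polar _ c]
  by_cases hI : IntegrableOn (fun p : ℝ × ℝ => p.1 *
    ⟪(‖(c + p.1 • om p.2) - c‖ ^ 2)⁻¹ • ((c + p.1 • om p.2) - c), Φ (c + p.1 • om p.2)⟫)
    (Ioi (0 : ℝ) ×ˢ Ioo (-Real.pi) Real.pi)
  swap
  · exact integral_undef hI
  rw [Measure.volume_eq_prod, ← Measure.prod_restrict, integral_prod_symm _ (by
    rwa [IntegrableOn, Measure.volume_eq_prod, ← Measure.prod_restrict] at hI)]
  have hae : ∀ᵐ θ : ℝ ∂(volume.restrict (Ioo (-Real.pi) Real.pi)), θ ≠ 0 :=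
    ae_restrict_of_ae (by rw [ae_iff]; simp)
  apply integral_eq_zero_of_ae
  filter_upwards [hae, ae_restrict_mem measurableSet_Ioo] with θ hθ0 hθ
  simp only [Pi.zero_apply]
  have e1 : ∀ r ∈ Ioi (0 : ℝ), r * ⟪(‖(c + r • om θ) - c‖ ^ 2)⁻¹ • ((c + r • om θ) - c),
      Φ (c + r • om θ)⟫ = ⟪Φ (c + r • om θ), om θ⟫ := by
    intro r hr
    have hr0 : r ≠ 0 := (mem_Ioi.mp hr).ne'
    rw [add_sub_cancel_left, norm_smul, norm_om, mul_one, inner_smul_left, inner_smul_left,
      real_inner_comm]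
    simp only [Real.norm_eq_abs, sq_abs, conj_trivial]
    field_simp
  rw [setIntegral_congr_fun measurableSet_Ioi e1]
  by_cases hJ : IntegrableOn (fun r : ℝ => ⟪Φ (c + r • om θ), om θ⟫) (Ioi 0)
  swap
  · exact integral_undef hJ
  have hder : ∀ r ∈ Ioi (0 : ℝ), HasDerivAt (fun r : ℝ => φ (c + r • om θ))
      ⟪Φ (c + r • om θ), om θ⟫ r := by
    intro r hr
    have hl : HasDerivAt (fun r : ℝ => c + r • om θ) (om θ) r := by
      simpa using ((hasDerivAt_id r).smul_const (om θ)).const_add c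
    exact (hd θ hθ hθ0 r hr).comp_hasDerivAt r hl
  have htop : Tendsto (fun r : ℝ => φ (c + r • om θ)) atTop (𝓝 0) := by
    obtain ⟨M, hM⟩ := h1.isCompact.isBounded.subset_closedBall c
    refine tendsto_const_nhds.congr' ?_
    filter_upwards [eventually_gt_atTop (max M 0)] with r hr
    symm
    apply image_eq_zero_of_notMem_tsupport
    intro hmem
    have := hM hmem
    rw [mem_closedBall, dist_self_add_left, norm_smul, norm_om, mul_one, Real.norm_eq_abs,
      abs_of_pos (lt_of_le_of_lt (le_max_right _ _) hr)] at this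
    exact absurd (lt_of_le_of_lt (le_max_left _ _) hr) (not_lt.mpr this)
  have := integral_Ioi_of_hasDerivAt_of_tendsto
    (f := fun r : ℝ => if r = 0 then 0 else φ (c + r • om θ))
    (f' := fun r : ℝ => ⟪Φ (c + r • om θ), om θ⟫) (a := 0) (m := 0) ?_ ?_ hJ ?_
  · rw [this]; simp
  · rw [ContinuousWithinAt, if_pos rfl]
    have : Ici (0 : ℝ) = insert 0 (Ioi 0) := by ext; simp [le_iff_eq_or_lt, eq_comm]
    rw [this, nhdsWithin_insert, tendsto_sup]
    constructor
    · rw [tendsto_pure_left]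
      intro s hs
      simp only [if_true]
      exact mem_of_mem_nhds hs
    · refine (h0 θ hθ hθ0).congr' ?_
      filter_upwards [self_mem_nhdsWithin] with r hr
      rw [if_neg (mem_Ioi.mp hr).ne']
  · intro r hr
    refine (hder r hr).congr_of_eventuallyEq ?_
    filter_upwards [isOpen_Ioi.mem_nhds hr] with s hs
    rw [if_neg (mem_Ioi.mp hs).ne']
  · refine htop.congr' ?_
    filter_upwards [eventually_gt_atTop 0] with r hr
    rw [if_neg hr.ne']

/-- Integration along the lines parallel to the second axis. -/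
lemma line_integral_one {w : E2 → ℝ} {W : E2 → ℝ} {N : Set ℝ} (hN : volume N = 0)
    (hd : ∀ s, s ∉ N → ∀ t : ℝ, HasDerivAt (fun t : ℝ => w (mk2 (s, t))) (W (mk2 (s, t))) t)
    (hc : HasCompactSupport w) :
    ∫ x, W x = 0 := by
  rw [← mk2_mp.integral_comp mk2_emb]
  by_cases hI : Integrable (fun p : ℝ × ℝ => W (mk2 p))
  swap
  · exact integral_undef hI
  rw [Measure.volume_eq_prod, integral_prod _ (by rwa [← Measure.volume_eq_prod])]
  apply integral_eq_zero_of_ae
  have : ∀ᵐ s : ℝ, s ∉ N := measure_eq_zero_iff_ae_notMem.mp hN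
  filter_upwards [this] with s hs
  simp only [Pi.zero_apply]
  by_cases hJ : Integrable (fun t : ℝ => W (mk2 (s, t)))
  swap
  · exact integral_undef hJ
  apply integral_eq_zero_of_hasDerivAt_of_integrable (hd s hs) hJ
  have hcont : Continuous (fun t : ℝ => w (mk2 (s, t))) :=
    continuous_iff_continuousAt.mpr fun t => (hd s hs t).continuousAt
  apply hcont.integrable_of_hasCompactSupport
  obtain ⟨M, hM⟩ := hc.isCompact.isBounded.subset_closedBall 0
  refine HasCompactSupport.intro (isCompact_closedBall (0 : ℝ) M) ?_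
  intro t ht
  apply image_eq_zero_of_notMem_tsupport
  intro hmem
  apply ht
  have := hM hmem
  rw [mem_closedBall, dist_zero_right] at this ⊢
  refine le_trans ?_ this
  have h2 := EuclideanSpace.norm_eq (mk2 (s, t))
  rw [h2]
  apply Real.le_sqrt_of_sq_le
  simp [mk2, Fin.sum_univ_two]
  positivity

/-- Integration along the lines parallel to the first axis. -/
lemma line_integral_zero {w : E2 → ℝ} {W : E2 → ℝ} {N : Set ℝ} (hN : volume N = 0)
    (hd : ∀ t, t ∉ N → ∀ s : ℝ, HasDerivAt (fun s : ℝ => w (mk2 (s, t))) (W (mk2 (s, t))) s)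
    (hc : HasCompactSupport w) :
    ∫ x, W x = 0 := by
  rw [← mk2_mp.integral_comp mk2_emb]
  by_cases hI : Integrable (fun p : ℝ × ℝ => W (mk2 p))
  swap
  · exact integral_undef hI
  rw [Measure.volume_eq_prod, integral_prod_symm _ (by rwa [← Measure.volume_eq_prod])]
  apply integral_eq_zero_of_ae
  have : ∀ᵐ s : ℝ, s ∉ N := measure_eq_zero_iff_ae_notMem.mp hN
  filter_upwards [this] with t ht
  simp only [Pi.zero_apply]
  by_cases hJ : Integrable (fun s : ℝ => W (mk2 (s, t)))
  swap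
  · exact integral_undef hJ
  apply integral_eq_zero_of_hasDerivAt_of_integrable (hd t ht) hJ
  have hcont : Continuous (fun s : ℝ => w (mk2 (s, t))) :=
    continuous_iff_continuousAt.mpr fun s => (hd t ht s).continuousAt
  apply hcont.integrable_of_hasCompactSupport
  obtain ⟨M, hM⟩ := hc.isCompact.isBounded.subset_closedBall 0
  refine HasCompactSupport.intro (isCompact_closedBall (0 : ℝ) M) ?_
  intro s hs
  apply image_eq_zero_of_notMem_tsupport
  intro hmem
  apply hs
  have := hM hmem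
  rw [mem_closedBall, dist_zero_right] at this ⊢
  refine le_trans ?_ this
  have h2 := EuclideanSpace.norm_eq (mk2 (s, t))
  rw [h2]
  apply Real.le_sqrt_of_sq_le
  simp [mk2, Fin.sum_univ_two]
  positivity

end Pool.Agent.H507R3
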