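import Pool.Agent.H312R2.RG.C1
import Pool.Agent.H507R3.RamAll

/-!
# A Ramsey theorem for chains of record gaps between consecutive primes

Adapted from `Pool.Agent.H312R2.RG.chains_of` (starting repository): the tuple of primes that is
kept alive in the record window is first thinned out by the finite Ramsey theorem.
-/

set_option autoImplicit false

namespace Pool.Agent.H507R3.RamGaps

open Finset Filter
open Pool.Agent.H256R2.SC (ff)
open Pool.Agent.H378R2 (yy)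
open Pool.Agent.H312R2.RG

/-- The `k + 1` consecutive primes `p_n, …, p_{n+k}` (numbered from `p_0 = 2`). -/
noncomputable def chain (n k : ℕ) : Finset ℕ :=
  (Finset.range (k + 1)).image (fun i => Nat.nth Nat.Prime (n + i))

/-- primes at the scales `H / R ^ j` -/
theorem scale_primes (R K Y : ℕ) (hR : 4 ≤ R) (H : ℝ) (hH : (R : ℝ) ^ (K + 1) * ((Y : ℝ) + 2) ≤ H) :
    ∃ t : Fin K → ℕ, ∀ j : Fin K, (t j).Prime ∧ Y < t j ∧ H / (2 * (R : ℝ) ^ (j : ℕ)) < t j ∧
      (t j : ℝ) ≤ H / (R : ℝ) ^ (j : ℕ) := by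
  have hR4 : (4 : ℝ) ≤ R := by exact_mod_cast hR
  have hY0 : (0 : ℝ) ≤ Y := Nat.cast_nonneg _
  have hH0 : 0 < H := lt_of_lt_of_le (by positivity) hH
  have key : ∀ j : Fin K, 2 * (R : ℝ) ^ (j : ℕ) * ((Y : ℝ) + 2) ≤ H := by
    intro j
    refine le_trans ?_ hH
    apply mul_le_mul_of_nonneg_right _ (by positivity)
    have hjK : (R : ℝ) ^ (j : ℕ) ≤ (R : ℝ) ^ K := pow_le_pow_right₀ (by linarith) j.2.le
    rw [pow_succ]
    nlinarith [show (0 : ℝ) ≤ (R : ℝ) ^ K by positivity]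
  have hex : ∀ j : Fin K, ∃ p : ℕ, p.Prime ∧ H / (2 * (R : ℝ) ^ (j : ℕ)) < p ∧
      (p : ℝ) ≤ H / (R : ℝ) ^ (j : ℕ) := by
    intro j
    have h4 : (0 : ℝ) < (R : ℝ) ^ (j : ℕ) := by positivity
    have hbig : 1 ≤ H / (2 * (R : ℝ) ^ (j : ℕ)) := by
      rw [le_div_iff₀ (by positivity), one_mul]
      refine le_trans ?_ (key j)
      nlinarith
    have hn0 : ⌊H / (2 * (R : ℝ) ^ (j : ℕ))⌋₊ ≠ 0 := by
      have : 0 < ⌊H / (2 * (R : ℝ) ^ (j : ℕ))⌋₊ := Nat.floor_pos.mpr hbig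
      omega
    obtain ⟨p, hp, h1, h2⟩ := Nat.exists_prime_lt_and_le_two_mul _ hn0
    refine ⟨p, hp, ?_, ?_⟩
    · exact (Nat.floor_lt (by positivity)).mp h1
    · have h3 : (p : ℝ) ≤ 2 * (⌊H / (2 * (R : ℝ) ^ (j : ℕ))⌋₊ : ℝ) := by exact_mod_cast h2
      have h5 : (⌊H / (2 * (R : ℝ) ^ (j : ℕ))⌋₊ : ℝ) ≤ H / (2 * (R : ℝ) ^ (j : ℕ)) :=
        Nat.floor_le (by positivity)
      calc (p : ℝ) ≤ 2 * (H / (2 * (R : ℝ) ^ (j : ℕ))) := by linarith
        _ = H / (R : ℝ) ^ (j : ℕ) := by field_simp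
  choose t ht1 ht2 ht3 using hex
  refine ⟨t, fun j => ⟨ht1 j, ?_, ht2 j, ht3 j⟩⟩
  have h1 : (Y : ℝ) < H / (2 * (R : ℝ) ^ (j : ℕ)) := by
    rw [lt_div_iff₀ (by positivity)]
    refine lt_of_lt_of_le ?_ (key j)
    have h4 : (0 : ℝ) < (R : ℝ) ^ (j : ℕ) := by positivity
    nlinarith
  have h2 : (Y : ℝ) < t j := h1.trans (ht2 j)
  exact_mod_cast h2

open Classical in
theorem ramsey_chains (h : MTRG) (k r : ℕ) (A : ℝ) (hA : 0 ≤ A) : ∃ c : ℝ, 0 < c ∧ ∀ᶠ x : ℝ in atTop,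
    ∀ χ : Finset ℕ → Fin r, (∀ (Q : Finset ℕ) (a : ℕ), χ (Q.image (fun q => q + a)) = χ Q) →
    x ^ (7 / 8 : ℝ) ≤ (((Finset.range ⌊x⌋₊).filter (fun n : ℕ => (Nat.nth Nat.Prime (n + k) : ℝ) ≤ x ∧
      (∀ i < k, c * ff x ≤ (Nat.nth Nat.Prime (n + i + 1) : ℝ) - Nat.nth Nat.Prime (n + i)) ∧
      (∀ i, i + 1 < k → A * ((Nat.nth Nat.Prime (n + i + 1) : ℝ) - Nat.nth Nat.Prime (n + i)) ≤
        (Nat.nth Nat.Prime (n + i + 2) : ℝ) - Nat.nth Nat.Prime (n + i + 1)) ∧
      ∀ Q Q' : Finset ℕ, Q ⊆ chain n k → Q' ⊆ chain n k → Q.card = Q'.card → χ Q = χ Q')).card : ℝ) := by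
  rcases Nat.eq_zero_or_pos r with hr0 | hr0
  · subst hr0
    exact ⟨1, one_pos, Filter.Eventually.of_forall fun x χ => (χ ∅).elim0⟩
  have hne : Nonempty (Fin r) := ⟨⟨0, hr0⟩⟩
  obtain ⟨K, -, c0, hc0, X0, hX0⟩ := h (k + 1)
  obtain ⟨M, hM⟩ := Pool.Agent.H507R3.RamAll.ramsey_all (Fin r) (k + 1) K
  obtain ⟨R, hR4, hRA⟩ : ∃ R : ℕ, 4 ≤ R ∧ 2 * A + 2 ≤ R := by
    refine ⟨⌈2 * A + 2⌉₊ + 4, by omega, ?_⟩
    push_cast
    linarith [Nat.le_ceil (2 * A + 2)]
  have hR4' : (4 : ℝ) ≤ R := by exact_mod_cast hR4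
  have hR0 : (0 : ℝ) < R := by linarith
  refine ⟨c0 / (8 * (R : ℝ) ^ M), by positivity, ?_⟩
  have tX : Tendsto (fun x : ℝ => x / 5) atTop atTop := tendsto_id.atTop_div_const (by norm_num)
  filter_upwards [tX.eventually_ge_atTop X0, tX.eventually (c1_ff_log ((R : ℝ) ^ (M + 1) * 3 / c0)),
    tX.eventually (ev_ff c0 hc0), Pool.Agent.H378R2.RGT.ff_half, c1_card,
    tX.eventually (Real.tendsto_log_atTop.eventually_ge_atTop 1), eventually_ge_atTop 10]
    with x e1 e2 e3 e4 e5 e6 e7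
  intro χ hχ
  set X : ℝ := x / 5 with hX
  have hx5 : x = 5 * X := by rw [hX]; ring
  obtain ⟨f1, f2, f3⟩ := e3
  set H : ℝ := c0 * ff X with hH
  have hH0 : 0 ≤ H := mul_nonneg hc0.le f2
  have hyy : (yy X : ℝ) ≤ Real.log X := by
    unfold yy
    refine (Nat.floor_le (by positivity)).trans ?_
    linarith
  have hHbig : (R : ℝ) ^ (M + 1) * ((yy X : ℝ) + 2) ≤ H := by
    have h1 : ((R : ℝ) ^ (M + 1) * 3 / c0 * Real.log X) * c0 ≤ ff X * c0 :=
      mul_le_mul_of_nonneg_right e2 hc0.le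
    have h2 : ((R : ℝ) ^ (M + 1) * 3 / c0 * Real.log X) * c0 = (R : ℝ) ^ (M + 1) * (3 * Real.log X) := by
      field_simp
    have h3 : (R : ℝ) ^ (M + 1) * ((yy X : ℝ) + 2) ≤ (R : ℝ) ^ (M + 1) * (3 * Real.log X) := by
      apply mul_le_mul_of_nonneg_left _ (by positivity)
      linarith
    rw [hH, mul_comm c0]
    linarith
  have hHpos : 0 < H := lt_of_lt_of_le (by positivity) hHbig
  obtain ⟨s, hs0⟩ := scale_primes R M (yy X) hR4 H hHbig
  have hgap : 0 < H / (4 * (R : ℝ) ^ M) := by positivity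
  -- separation
  have hstep : ∀ i j : Fin M, i < j → H / (R : ℝ) ^ (j : ℕ) ≤ H / (R : ℝ) ^ (i : ℕ) / R := by
    intro i j hij
    have hij' : (i : ℕ) + 1 ≤ j := hij
    have h4 : (R : ℝ) ^ ((i : ℕ) + 1) ≤ (R : ℝ) ^ (j : ℕ) := pow_le_pow_right₀ (by linarith) hij'
    rw [div_div, ← pow_succ]
    exact div_le_div_of_nonneg_left hHpos.le (by positivity) h4
  have hlow : ∀ i j : Fin M, i < j →
      H / (R : ℝ) ^ (i : ℕ) / 2 - H / (R : ℝ) ^ (i : ℕ) / R ≤ (s i : ℝ) - s j := by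
    intro i j hij
    have h1 := hstep i j hij
    have h2 := (hs0 i).2.2.1
    have h3 := (hs0 j).2.2.2
    have h4 : H / (2 * (R : ℝ) ^ (i : ℕ)) = H / (R : ℝ) ^ (i : ℕ) / 2 := by
      rw [mul_comm, div_div]
    rw [h4] at h2
    linarith
  have hsep0 : ∀ i j : Fin M, i < j → H / (4 * (R : ℝ) ^ M) ≤ (s i : ℝ) - s j := by
    intro i j hij
    refine le_trans ?_ (hlow i j hij)
    have h5 : H / (R : ℝ) ^ (i : ℕ) / R ≤ H / (R : ℝ) ^ (i : ℕ) / 4 :=
      div_le_div_of_nonneg_left (by positivity) (by norm_num) hR4'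
    have h6 : H / (R : ℝ) ^ M ≤ H / (R : ℝ) ^ (i : ℕ) :=
      div_le_div_of_nonneg_left hHpos.le (by positivity)
        (pow_le_pow_right₀ (by linarith) i.2.le)
    have h7 : H / (4 * (R : ℝ) ^ M) = H / (R : ℝ) ^ M / 4 := by
      rw [mul_comm, div_div]
    rw [h7]
    linarith
  have hratio0 : ∀ i j l : Fin M, i < j → A * ((s j : ℝ) - s l) ≤ (s i : ℝ) - s j := by
    intro i j l hij
    refine le_trans ?_ (hlow i j hij)
    set E : ℝ := H / (R : ℝ) ^ (i : ℕ) with hE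
    have hE0 : 0 < E := by positivity
    have h1 : (s j : ℝ) - s l ≤ E / R := by
      have h2 := (hs0 j).2.2.2
      have h3 := hstep i j hij
      have h4 : (0 : ℝ) ≤ s l := Nat.cast_nonneg _
      linarith
    have h8 : E / 2 - E / R = (E / R) * ((R : ℝ) / 2 - 1) := by
      field_simp
    have hER : 0 < E / R := by positivity
    rw [h8]
    calc A * ((s j : ℝ) - s l) ≤ A * (E / R) := mul_le_mul_of_nonneg_left h1 hA
      _ = (E / R) * A := mul_comm _ _
      _ ≤ _ := mul_le_mul_of_nonneg_left (by linarith) hER.le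
  have hsinj : Function.Injective s := by
    intro i j hij
    rcases lt_trichotomy i j with hlt | heq | hlt
    · have := hsep0 i j hlt
      rw [hij] at this
      linarith
    · exact heq
    · have := hsep0 j i hlt
      rw [hij] at this
      linarith
  have hs : ∀ j, (s j).Prime ∧ yy X < s j ∧ (s j : ℝ) ≤ H := fun j =>
    ⟨(hs0 j).1, (hs0 j).2.1, (hs0 j).2.2.2.trans
      (div_le_self hHpos.le (one_le_pow₀ (by linarith)))⟩
  -- the homogeneous subset
  obtain ⟨T, hTS, hTK, hT⟩ := hM (Finset.univ.image s) χ (by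
    rw [Finset.card_image_of_injective _ hsinj, Finset.card_univ, Fintype.card_fin])
  have hTmem : ∀ a ∈ T, ∃ i, s i = a := by
    intro a ha
    obtain ⟨i, -, hi⟩ := Finset.mem_image.1 (hTS ha)
    exact ⟨i, hi⟩
  let t : Fin K → ℕ := fun j => T.orderEmbOfFin hTK j
  have htT : ∀ j, t j ∈ T := fun j => Finset.orderEmbOfFin_mem T hTK j
  have hinj : Function.Injective t := (T.orderEmbOfFin hTK).injective
  have ht : ∀ j, (t j).Prime ∧ yy X < t j ∧ (t j : ℝ) ≤ H := by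
    intro j
    obtain ⟨i, hi⟩ := hTmem _ (htT j)
    rw [← hi]
    exact hs i
  have hsep : ∀ a ∈ T, ∀ b ∈ T, a < b → H / (4 * (R : ℝ) ^ M) ≤ (b : ℝ) - a := by
    intro a ha b hb hab
    obtain ⟨i, rfl⟩ := hTmem a ha
    obtain ⟨j, rfl⟩ := hTmem b hb
    have hab' : (s i : ℝ) < s j := by exact_mod_cast hab
    rcases lt_trichotomy i j with hlt | heq | hlt
    · have := hsep0 i j hlt
      linarith
    · rw [heq] at hab
      exact absurd hab (lt_irrefl _)
    · exact hsep0 j i hlt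
  have hratio : ∀ a ∈ T, ∀ b ∈ T, ∀ d ∈ T, b < d → A * ((b : ℝ) - a) ≤ (d : ℝ) - b := by
    intro a ha b hb d hd hbd
    obtain ⟨l, rfl⟩ := hTmem a ha
    obtain ⟨j, rfl⟩ := hTmem b hb
    obtain ⟨i, rfl⟩ := hTmem d hd
    have hbd' : (s j : ℝ) < s i := by exact_mod_cast hbd
    rcases lt_trichotomy i j with hlt | heq | hlt
    · exact hratio0 i j l hlt
    · rw [heq] at hbd
      exact absurd hbd (lt_irrefl _)
    · have := hsep0 j i hlt
      linarith
  by_contra hcon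
  push Not at hcon
  set Ch : Finset ℕ := (Finset.range ⌊x⌋₊).filter (fun n : ℕ => (Nat.nth Nat.Prime (n + k) : ℝ) ≤ x ∧
      (∀ i < k, c0 / (8 * (R : ℝ) ^ M) * ff x ≤
        (Nat.nth Nat.Prime (n + i + 1) : ℝ) - Nat.nth Nat.Prime (n + i)) ∧
      (∀ i, i + 1 < k → A * ((Nat.nth Nat.Prime (n + i + 1) : ℝ) - Nat.nth Nat.Prime (n + i)) ≤
        (Nat.nth Nat.Prime (n + i + 2) : ℝ) - Nat.nth Nat.Prime (n + i + 1)) ∧
      ∀ Q Q' : Finset ℕ, Q ⊆ chain n k → Q' ⊆ chain n k → Q.card = Q'.card → χ Q = χ Q') with hCh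
  -- the bad set
  set B : ℕ := ⌊H⌋₊ with hB
  let bad : Finset ℕ := Ch.biUnion (fun n => Finset.Icc (Nat.nth Nat.Prime n - B) (Nat.nth Nat.Prime n))
  have hBle : (B : ℝ) ≤ H := Nat.floor_le hH0
  have hbad : (bad.card : ℝ) ≤ X ^ (9 / 10 : ℝ) := by
    have h1 : bad.card ≤ ∑ n ∈ Ch, (B + 1) := by
      refine Finset.card_biUnion_le.trans (Finset.sum_le_sum fun n _ => ?_)
      rw [Nat.card_Icc]
      omega
    rw [Finset.sum_const, smul_eq_mul] at h1
    have h2 : (bad.card : ℝ) ≤ (Ch.card : ℝ) * ((B : ℝ) + 1) := by exact_mod_cast h1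
    refine h2.trans (le_trans ?_ e5)
    apply mul_le_mul hcon.le _ (by positivity) (by positivity)
    linarith
  obtain ⟨N, hN1, hN2, hNbad, hNr, hNs⟩ := hX0 X e1 t hinj ht bad hbad
  -- the index
  set n : ℕ := Nat.count Nat.Prime N with hn
  have hcount : n + (k + 1) ≤ Nat.count Nat.Prime (N + (B + 1)) := by
    rw [Nat.count_add, ← hn]
    apply Nat.add_le_add_left
    rw [Nat.count_eq_card_filter_range]
    refine hNr.trans ?_
    refine Finset.card_le_card_of_injOn t ?_ (fun i _ j _ hij => hinj hij)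
    intro j hj
    simp only [Finset.coe_filter, Finset.mem_univ, true_and, Set.mem_ofPred_eq] at hj
    simp only [Finset.coe_filter, Finset.mem_range, Set.mem_ofPred_eq]
    refine ⟨?_, hj⟩
    have : t j ≤ B := Nat.le_floor (ht j).2.2
    omega
  have hprime : ∀ i, (Nat.nth Nat.Prime i).Prime := fun i => Nat.prime_nth_prime i
  have hlo : ∀ i, N ≤ Nat.nth Nat.Prime (n + i) := by
    intro i
    have h1 : Nat.nth Nat.Prime n ≤ Nat.nth Nat.Prime (n + i) :=
      Nat.nth_monotone Nat.infinite_setOfPred_prime (Nat.le_add_right n i)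
    refine le_trans ?_ h1
    by_contra hc
    push Not at hc
    have h2 : Nat.count Nat.Prime (Nat.nth Nat.Prime n + 1) ≤ Nat.count Nat.Prime N :=
      Nat.count_monotone _ hc
    rw [Nat.count_succ, Nat.count_nth_of_infinite Nat.infinite_setOfPred_prime,
      if_pos (hprime n)] at h2
    omega
  have hhi : ∀ i, i ≤ k → Nat.nth Nat.Prime (n + i) ≤ N + B := by
    intro i hi
    have h1 : Nat.nth Nat.Prime (n + i) < N + (B + 1) := Nat.nth_lt_of_lt_count (by omega)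
    omega
  have hform : ∀ i, i ≤ k → ∃ a ∈ T, Nat.nth Nat.Prime (n + i) = a + N := by
    intro i hi
    obtain ⟨u, hu⟩ := Nat.exists_eq_add_of_le (hlo i)
    have huB : u ≤ B := by
      have := hhi i hi
      omega
    have huH : (u : ℝ) ≤ H := le_trans (by exact_mod_cast huB) hBle
    have hp : (N + u).Prime := hu ▸ hprime (n + i)
    obtain ⟨j, hj⟩ := hNs u huH hp
    exact ⟨t j, htT j, by rw [hu, hj, add_comm]⟩
  have hgaps : ∀ i < k, c0 / (8 * (R : ℝ) ^ M) * ff x ≤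
      (Nat.nth Nat.Prime (n + i + 1) : ℝ) - Nat.nth Nat.Prime (n + i) := by
    intro i hi
    obtain ⟨a, ha, hj⟩ := hform i hi.le
    obtain ⟨b, hb, hj'⟩ := hform (i + 1) hi
    have hlt : Nat.nth Nat.Prime (n + i) < Nat.nth Nat.Prime (n + (i + 1)) :=
      Nat.nth_strictMono Nat.infinite_setOfPred_prime (by omega)
    have hdiff : (Nat.nth Nat.Prime (n + i + 1) : ℝ) - Nat.nth Nat.Prime (n + i) =
        (b : ℝ) - a := by
      rw [add_assoc n i 1, hj, hj']
      push_cast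
      ring
    rw [hdiff]
    have htt : a < b := by
      rw [hj, hj'] at hlt
      omega
    refine le_trans ?_ (hsep a ha b hb htt)
    calc c0 / (8 * (R : ℝ) ^ M) * ff x = c0 / (4 * (R : ℝ) ^ M) * (ff x / 2) := by
          rw [show (8 : ℝ) * (R : ℝ) ^ M = 4 * (R : ℝ) ^ M * 2 by ring, ← div_div]
          ring
      _ ≤ c0 / (4 * (R : ℝ) ^ M) * ff X := mul_le_mul_of_nonneg_left e4 (by positivity)
      _ = H / (4 * (R : ℝ) ^ M) := by rw [hH]; ring
  have hgrow : ∀ i, i + 1 < k →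
      A * ((Nat.nth Nat.Prime (n + i + 1) : ℝ) - Nat.nth Nat.Prime (n + i)) ≤
        (Nat.nth Nat.Prime (n + i + 2) : ℝ) - Nat.nth Nat.Prime (n + i + 1) := by
    intro i hi
    obtain ⟨a, ha, hj⟩ := hform i (by omega)
    obtain ⟨b, hb, hj'⟩ := hform (i + 1) (by omega)
    obtain ⟨d, hd, hj''⟩ := hform (i + 2) (by omega)
    have hlt : Nat.nth Nat.Prime (n + (i + 1)) < Nat.nth Nat.Prime (n + (i + 2)) :=
      Nat.nth_strictMono Nat.infinite_setOfPred_prime (by omega)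
    have hbd : b < d := by
      rw [hj', hj''] at hlt
      omega
    have h1 := hratio a ha b hb d hd hbd
    rw [add_assoc n i 1, add_assoc n i 2, hj, hj', hj'']
    push_cast
    linarith
  -- homogeneity
  have hsub : ∀ Q ⊆ chain n k, ∃ R ⊆ T, R.card = Q.card ∧ χ Q = χ R := by
    intro Q hQ
    have hQN : ∀ q ∈ Q, q - N ∈ T ∧ q - N + N = q := by
      intro q hq
      obtain ⟨i, hi, rfl⟩ := Finset.mem_image.1 (hQ hq)
      obtain ⟨a, ha, hai⟩ := hform i (by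
        have := Finset.mem_range.1 hi
        omega)
      refine ⟨?_, ?_⟩
      · rw [hai, Nat.add_sub_cancel]
        exact ha
      · omega
    have himg : (Q.image (fun q => q - N)).image (fun q => q + N) = Q := by
      rw [Finset.image_image]
      conv_rhs => rw [← Finset.image_id (s := Q)]
      refine Finset.image_congr fun q hq => ?_
      exact (hQN q hq).2
    refine ⟨Q.image (fun q => q - N), ?_, ?_, ?_⟩
    · intro a ha
      obtain ⟨q, hq, rfl⟩ := Finset.mem_image.1 ha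
      exact (hQN q hq).1
    · apply Finset.card_image_of_injOn
      intro p hp q hq hpq
      have h1 := (hQN p hp).2
      have h2 := (hQN q hq).2
      simp only at hpq
      omega
    · have h9 := hχ (Q.image (fun q => q - N)) N
      rw [himg] at h9
      exact h9
  have hcardle : ∀ Q ⊆ chain n k, Q.card ≤ k + 1 := by
    intro Q hQ
    refine (Finset.card_le_card hQ).trans ?_
    unfold chain
    exact Finset.card_image_le.trans (by rw [Finset.card_range])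
  have hmono : ∀ Q Q' : Finset ℕ, Q ⊆ chain n k → Q' ⊆ chain n k → Q.card = Q'.card → χ Q = χ Q' := by
    intro Q Q' hQ hQ' hcard
    obtain ⟨R, hR, hRc, hRχ⟩ := hsub Q hQ
    obtain ⟨R', hR', hRc', hRχ'⟩ := hsub Q' hQ'
    obtain ⟨col, hcol⟩ := hT Q.card (hcardle Q hQ)
    rw [hRχ, hRχ', hcol R hR hRc, hcol R' hR' (by rw [hRc', hcard])]
  have hn_mem : n ∈ Ch := by
    rw [hCh, Finset.mem_filter, Finset.mem_range]
    refine ⟨?_, ?_, hgaps, hgrow, hmono⟩
    · have h1 : n ≤ N := Nat.count_le _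
      have h2 : ((n + 1 : ℕ) : ℝ) ≤ x := by
        push_cast
        have : (n : ℝ) ≤ N := by exact_mod_cast h1
        linarith
      exact Nat.le_floor h2
    · have h1 := hhi k le_rfl
      have h2 : (Nat.nth Nat.Prime (n + k) : ℝ) ≤ N + B := by exact_mod_cast h1
      linarith
  apply hNbad
  simp only [bad, Finset.mem_biUnion]
  refine ⟨n, hn_mem, ?_⟩
  rw [Finset.mem_Icc]
  have h1 := hlo 0
  have h2 := hhi 0 (Nat.zero_le _)
  rw [add_zero] at h1 h2
  omega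

end Pool.Agent.H507R3.RamGaps
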